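import Pool.Agent.TNX.Lin

/-!
# TNX/Big: if `P n > 4 √n`, then `t_n = P n` and `k(n) = 1` (difficulty 3)

Let `p = P n`, `m = n / p`, `n = p m`, `w = Nat.sqrt n` (`w ^ 2 ≤ n < (w + 1) ^ 2`, `w ≥ 8`).  `p ^ 2 > 16 n ≥ (4 w) ^ 2`, so `p ≥ 4 w + 1`;
`m p = n ≤ w ^ 2 + 2 w`, so `m < w`, `m + 1 ≤ p`, `P (m + 1) ≤ m + 1 ≤ p` (`P_le`), so `kk n = 1` (`kk_le`, `kk_spec`).
`p ^ 2 ∤ n` (as `p ^ 2 > n > 0`), so `p ≤ tn n` (`TN.P_le_tn`), and `n` is not a square (`p ∣ n`, `¬ p ^ 2 ∣ n`).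
By `works_of_mem` and `tn_le` it is enough to show `vv n ∈ V := Sp n (n + p)`.
(1) For every natural number `α` with `w ≤ 2 α` and `α ≤ 2 w`: `vv α + vv (α + 1) ∈ V`.  `β = n / α + 1`: `n < α β ≤ n + α`,
  `(α + 1) β ≤ n + α + n / α + 1 ≤ n + 4 w + 1 ≤ n + p` since `α ^ 2 + n + α ≤ α (4 w + 1)`, i.e. `α ^ 2 - 4 w α + w ^ 2 + 2 w ≤ 0` on
  `[w / 2, 2 w]` (convex, `w ≥ 8`); `vv (α β) + vv ((α + 1) β) = vv α + vv (α + 1) + (vv β + vv β)`.
(2) So `vv α + vv α' ∈ V` for all `α, α' ∈ [w / 2, 2 w]` (induction).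
(3) There is `a` with `w ≤ 2 a ^ 2`, `a ^ 2 ≤ 2 w` (`a = Nat.sqrt (2 w)`), `vv (a * a) = 0`: so `vv α ∈ V` for all `α ∈ [w / 2, 2 w]`.
(4) For `1 ≤ r ≤ 2 w` there is `i` with `w ≤ 2 * 4 ^ i * r`, `4 ^ i * r ≤ 2 w` (largest `i` with `4 ^ i * r ≤ 2 w`), and
  `vv (4 ^ i * r) = vv r` (`4 ^ i = 2 ^ i * 2 ^ i`): so `vv r ∈ V`.
(5) `vv n = vv p + vv m`, `vv (n + p) = vv p + vv (m + 1) ∈ V`, `vv n = vv (n + p) + vv m + vv (m + 1) ∈ V` by (4).
-/

namespace Pool.Agent.TNX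

open Pool.Agent.TN Finset

/-- the base case of (1): consecutive numbers near `√n` -/
theorem big_step {n w p : ℕ} (hw : 8 ≤ w) (_h1 : w ^ 2 ≤ n) (h2 : n ≤ w ^ 2 + 2 * w) (hp : 4 * w + 1 ≤ p)
    {α : ℕ} (ha : w ≤ 2 * α) (hb : α ≤ 2 * w) : vv α + vv (α + 1) ∈ Sp n (n + p) := by
  have hα : 0 < α := by omega
  obtain ⟨β, hβ⟩ : ∃ β, β = n / α + 1 := ⟨_, rfl⟩
  have e1 : n < α * β := by
    rw [hβ]
    exact Nat.lt_mul_div_succ n hα
  have e2 : α * β ≤ n + α := by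
    rw [hβ, mul_add, mul_one]
    exact Nat.add_le_add_right (Nat.mul_div_le n α) α
  have hβ0 : β ≠ 0 := by rw [hβ]; exact Nat.succ_ne_zero _
  have e3 : β ≤ 4 * w + 1 - α := by
    -- `α (4 w - α) ≥ n`
    have hd : n / α ≤ 4 * w - α := by
      apply Nat.div_le_of_le_mul
      have hα4 : α ≤ 4 * w := by omega
      zify [hα4]
      have h1' : (w : ℤ) ≤ 2 * α := by exact_mod_cast ha
      have h2' : (α : ℤ) ≤ 2 * w := by exact_mod_cast hb
      have h3' : (n : ℤ) ≤ (w : ℤ) ^ 2 + 2 * w := by exact_mod_cast h2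
      have hw' : (8 : ℤ) ≤ w := by exact_mod_cast hw
      nlinarith [mul_nonneg (sub_nonneg.2 h1') (sub_nonneg.2 h2')]
    rw [hβ]; omega
  have m1 : vv (α * β) ∈ Sp n (n + p) := mem_Sp e1 (by omega)
  have m2 : vv ((α + 1) * β) ∈ Sp n (n + p) :=
    mem_Sp (e1.trans_le (Nat.mul_le_mul_right β (Nat.le_succ α))) (by rw [add_mul, one_mul]; omega)
  have m3 := Submodule.add_mem _ m1 m2
  rw [vv_mul hα.ne' hβ0, vv_mul (by omega) hβ0] at m3
  have e4 : vv α + vv β + (vv (α + 1) + vv β) = vv α + vv (α + 1) := by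
    have : vv β + vv β = 0 := by rw [← vv_mul hβ0 hβ0]; exact vv_sq hβ0
    calc vv α + vv β + (vv (α + 1) + vv β) = vv α + vv (α + 1) + (vv β + vv β) := by abel
      _ = _ := by rw [this, add_zero]
  rwa [e4] at m3

theorem big_two {n w p : ℕ} (hw : 8 ≤ w) (h1 : w ^ 2 ≤ n) (h2 : n ≤ w ^ 2 + 2 * w) (hp : 4 * w + 1 ≤ p)
    {α α' : ℕ} (ha : w ≤ 2 * α) (hb : α' ≤ 2 * w) (hle : α ≤ α') : vv α + vv α' ∈ Sp n (n + p) := by
  induction α', hle using Nat.le_induction with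
  | base =>
    have : vv α + vv α = 0 := by
      have hα : α ≠ 0 := by omega
      rw [← vv_mul hα hα]; exact vv_sq hα
    rw [this]; exact Submodule.zero_mem _
  | succ k hk ih =>
    have h3 := ih (by omega)
    have h4 := big_step hw h1 h2 hp (α := k) (by omega) (by omega)
    have h5 := Submodule.add_mem _ h3 h4
    have hk0 : k ≠ 0 := by omega
    have : vv k + vv k = 0 := by rw [← vv_mul hk0 hk0]; exact vv_sq hk0
    have e : vv α + vv k + (vv k + vv (k + 1)) = vv α + vv (k + 1) := by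
      calc vv α + vv k + (vv k + vv (k + 1)) = vv α + vv (k + 1) + (vv k + vv k) := by abel
        _ = _ := by rw [this, add_zero]
    rwa [e] at h5

theorem big_all {n w p : ℕ} (hw : 8 ≤ w) (h1 : w ^ 2 ≤ n) (h2 : n ≤ w ^ 2 + 2 * w) (hp : 4 * w + 1 ≤ p)
    {α : ℕ} (ha : w ≤ 2 * α) (hb : α ≤ 2 * w) : vv α ∈ Sp n (n + p) := by
  obtain ⟨a, haa⟩ : ∃ a, a = Nat.sqrt (2 * w) := ⟨_, rfl⟩
  have a1 : a * a ≤ 2 * w := by rw [haa]; exact Nat.sqrt_le (2 * w)
  have a2 : 2 * w < (a + 1) * (a + 1) := by rw [haa]; exact Nat.lt_succ_sqrt (2 * w)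
  have a4 : 4 ≤ a := by
    by_contra hlt
    have : (a + 1) * (a + 1) ≤ 4 * 4 := Nat.mul_le_mul (by omega) (by omega)
    omega
  have a3 : w ≤ 2 * (a * a) := by nlinarith
  have a0 : a ≠ 0 := by omega
  rcases le_total α (a * a) with h | h
  · have h3 := big_two hw h1 h2 hp ha a1 h
    rwa [vv_sq a0, add_zero] at h3
  · have h3 := big_two hw h1 h2 hp a3 hb h
    rwa [vv_sq a0, zero_add] at h3

theorem big_small {n w p : ℕ} (hw : 8 ≤ w) (h1 : w ^ 2 ≤ n) (h2 : n ≤ w ^ 2 + 2 * w) (hp : 4 * w + 1 ≤ p)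
    {r : ℕ} (hr : 1 ≤ r) (hr2 : r ≤ 2 * w) : vv r ∈ Sp n (n + p) := by
  obtain ⟨k, hk⟩ : ∃ k, k = 2 * w - r := ⟨_, rfl⟩
  induction k using Nat.strong_induction_on generalizing r with
  | _ k ih =>
    by_cases hc : w ≤ 2 * r
    · exact big_all hw h1 h2 hp hc hr2
    · have h3 := ih (2 * w - (2 * 2) * r) (by omega) (r := (2 * 2) * r) (by omega) (by omega) rfl
      rwa [vv_mul (by norm_num) (by omega), vv_sq (by norm_num), zero_add] at h3

theorem big {n : ℕ} (hn : 64 ≤ n) (h : 16 * n < P n ^ 2) : tn n = kk n * P n := by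
  obtain ⟨w, hw⟩ : ∃ w, w = Nat.sqrt n := ⟨_, rfl⟩
  have w1 : w * w ≤ n := by rw [hw]; exact Nat.sqrt_le n
  have w2 : n < (w + 1) * (w + 1) := by rw [hw]; exact Nat.lt_succ_sqrt n
  have w8 : 8 ≤ w := by
    rw [hw]
    have : Nat.sqrt 64 ≤ Nat.sqrt n := Nat.sqrt_le_sqrt hn
    have e : Nat.sqrt 64 = 8 := by norm_num
    omega
  have hn2 : 2 ≤ n := by omega
  have hpr := P_prime hn2
  have hdvd := P_dvd hn2
  obtain ⟨p, hp⟩ : ∃ p, p = P n := ⟨_, rfl⟩
  obtain ⟨m, hm⟩ := hdvd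
  rw [← hp] at h hpr hm ⊢
  have hpos : 0 < p := hpr.pos
  have hdiv : n / p = m := by rw [hm]; exact Nat.mul_div_cancel_left m hpos
  have hp4 : 4 * w + 1 ≤ p := by
    by_contra hlt
    have : p ^ 2 ≤ (4 * w) ^ 2 := Nat.pow_le_pow_left (by omega) 2
    nlinarith
  have hm0 : 0 < m := by
    rcases Nat.eq_zero_or_pos m with h0 | h0
    · rw [h0] at hm; omega
    · exact h0
  have hmw : m < w := by
    by_contra hge
    have : w * (4 * w + 1) ≤ m * p := Nat.mul_le_mul (by omega) hp4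
    nlinarith
  have hkk : kk n = 1 := by
    have h1 : kk n ≤ 1 := kk_le one_pos (by
      rw [← hp, hdiv]
      exact (P_le (by omega)).trans (by omega))
    have h2 := (kk_spec hn2).1
    omega
  rw [hkk, one_mul]
  have hsq : ¬ p ^ 2 ∣ n := fun hd => by
    have := Nat.le_of_dvd (by omega) hd
    omega
  apply le_antisymm
  swap
  · rw [hp]
    exact P_le_tn hn2 (by rw [← hp]; exact hsq)
  · apply tn_le hpos
    apply works_of_mem (by omega)
    · rintro ⟨r, hr⟩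
      apply hsq
      have hdr : p ∣ r := by
        have : p ∣ r * r := by rw [← hr, hm]; exact dvd_mul_right _ _
        exact (hpr.dvd_mul.1 this).elim id id
      rw [hr, ← pow_two]
      exact pow_dvd_pow_of_dvd hdr 2
    · have hw2 : n ≤ w ^ 2 + 2 * w := by nlinarith
      have hw1 : w ^ 2 ≤ n := by nlinarith
      have m1 := big_small w8 hw1 hw2 hp4 (r := m) (by omega) (by omega)
      have m2 := big_small w8 hw1 hw2 hp4 (r := m + 1) (by omega) (by omega)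
      have m3 : vv (n + p) ∈ Sp n (n + p) := mem_Sp (by omega) le_rfl
      have e1 : n + p = p * (m + 1) := by rw [hm]; ring
      have e2 : vv (n + p) = vv p + vv (m + 1) := by rw [e1]; exact vv_mul hpos.ne' (by omega)
      have e3 : vv n = vv p + vv m := by
        have : vv n = vv (p * m) := by rw [← hm]
        rw [this]; exact vv_mul hpos.ne' (by omega)
      have m4 := Submodule.add_mem _ (Submodule.add_mem _ m3 m1) m2
      have e4 : vv (n + p) + vv m + vv (m + 1) = vv n := by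
        have h0 : vv (m + 1) + vv (m + 1) = 0 := by
          rw [← vv_mul (by omega) (by omega)]; exact vv_sq (by omega)
        rw [e2, e3]
        calc vv p + vv (m + 1) + vv m + vv (m + 1) = vv p + vv m + (vv (m + 1) + vv (m + 1)) := by abel
          _ = _ := by rw [h0, add_zero]
      rwa [e4] at m4

end Pool.Agent.TNX
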