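import Pool.Agent.TNX.Low
import Pool.Agent.TNA.Low

/-!
# TNX/FLow: `k(n) P(n) ≤ F(n)`
-/

namespace Pool.Agent.TNX

open Pool.Agent.TN Pool.Agent.TNA Finset

theorem fac_P {n : ℕ} (hn : 2 ≤ n) (h2 : ¬ P n ^ 2 ∣ n) : n.factorization (P n) = 1 := by
  have hp := P_prime hn
  have h1 : 1 ≤ n.factorization (P n) :=
    (hp.dvd_iff_one_le_factorization (by omega)).mp (P_dvd hn)
  have h3 : n.factorization (P n) < 2 := by
    by_contra h
    push Not at h
    exact h2 ((hp.pow_dvd_iff_le_factorization (by omega)).mpr h)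
  omega

theorem nonsq_P {n : ℕ} (hn : 2 ≤ n) (h2 : ¬ P n ^ 2 ∣ n) : ¬ IsSquare n := by
  rintro ⟨r, hr⟩
  have hf := fac_P hn h2
  have hr0 : r ≠ 0 := by
    rintro rfl
    omega
  rw [congrArg Nat.factorization hr, Nat.factorization_mul hr0 hr0, Finsupp.add_apply] at hf
  omega

theorem Pd_eq_P {n : ℕ} (hn : 2 ≤ n) (h2 : ¬ P n ^ 2 ∣ n) : Pd n = P n := by
  apply le_antisymm
  · unfold Pd
    apply Finset.sup_le
    intro q hq
    rw [Finset.mem_filter] at hq
    exact le_P hq.1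
  · exact le_Pd (by rw [fac_P hn h2]; exact odd_one)

theorem F_low {n : ℕ} (hn : 2 ≤ n) (h2 : ¬ P n ^ 2 ∣ n)
    (hj : ∀ j, 1 ≤ j → j < kk n → ∃ q, q.Prime ∧ kk n * P n < q ∧ q ∣ n / P n + j ∧
      ¬ q ^ 2 ∣ n / P n + j) : kk n * P n ≤ F n := by
  by_contra hlt
  push Not at hlt
  obtain ⟨a, ha1, ha2, ha3, ha4⟩ := F_spec (by omega) (nonsq_P hn h2)
  rw [Pd_eq_P hn h2] at ha3
  have hp := P_prime hn
  have hd := P_dvd hn
  have hkk := (kk_spec hn).1
  obtain ⟨p, hpdef⟩ : ∃ p : ℕ, p = P n := ⟨_, rfl⟩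
  rw [← hpdef] at hp hd hlt ha3 hj
  obtain ⟨m, hm⟩ := hd
  have hmdiv : n / p = m := by
    rw [hm]
    exact Nat.mul_div_cancel_left m hp.pos
  rw [hmdiv] at hj
  have hpa : p ∣ a := by
    by_contra hnd
    rw [Nat.factorization_eq_zero_of_not_dvd hnd] at ha3
    exact absurd ha3 (by decide)
  obtain ⟨j, hjj⟩ : p ∣ a - n := Nat.dvd_sub hpa ⟨m, hm⟩
  have hae : a = p * (m + j) := by
    rw [mul_add, ← hm, ← hjj]
    omega
  have hj1 : 1 ≤ j := by
    rcases Nat.eq_zero_or_pos j with h | h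
    · rw [h, mul_zero] at hjj
      omega
    · exact h
  have hj2 : j < kk n := by
    have h3 : p * j < p * kk n := by
      rw [← hjj, mul_comm p (kk n)]
      omega
    exact Nat.lt_of_mul_lt_mul_left h3
  obtain ⟨q, hq, hkq, hqd, hq2⟩ := hj j hj1 hj2
  have hpq : p < q := lt_of_le_of_lt (Nat.le_mul_of_pos_left p hkk) hkq
  have hqp : ¬ q ∣ p := fun h => absurd (Nat.le_of_dvd hp.pos h) (not_le.2 hpq)
  have hfq : a.factorization q = 1 := by
    rw [hae, Nat.factorization_mul hp.ne_zero (by omega), Finsupp.add_apply,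
      Nat.factorization_eq_zero_of_not_dvd hqp, zero_add]
    have h1 : 1 ≤ (m + j).factorization q :=
      (hq.dvd_iff_one_le_factorization (by omega)).mp hqd
    have h3 : (m + j).factorization q < 2 := by
      by_contra h
      push Not at h
      exact hq2 ((hq.pow_dvd_iff_le_factorization (by omega)).mpr h)
    omega
  have h5 : q ≤ Pd a := le_Pd (by rw [hfq]; exact odd_one)
  omega

/-- the case `P n ^ 2 > 16 n` -/
theorem F_big {n : ℕ} (hn : 64 ≤ n) (h : 16 * n < P n ^ 2) (ht : tn n = P n) : F n = tn n := by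
  have hn2 : 2 ≤ n := by omega
  have h2 : ¬ P n ^ 2 ∣ n := by
    intro hd
    have := Nat.le_of_dvd (by omega) hd
    omega
  have hsq := nonsq_P hn2 h2
  apply le_antisymm (F_le_tn (by omega) hsq)
  rw [ht, ← Pd_eq_P hn2 h2]
  exact Pd_le_F (by omega) hsq

end Pool.Agent.TNX
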