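import Pool.Agent.TNX.Defs

/-!
# TNX/GC: multiples of elements of thin sets (difficulty 3)

`GR d`: the `x` such that `(x, x + 2 ^ d]` contains no `2 ^ d`-smooth integer; `GLf d`: the same for `[x - 2 ^ d, x)`.
* `right_count`: union over `r` of the images of `{x | 1 ≤ x ∧ x ≤ N / r ∧ x ∈ G}` under `x ↦ r * x`.
* `left_count`: the integers `b = n + k * P n ≤ M := N + K * 2 ^ (j + 1)` with a divisor `r ≤ R`, `b / r ∈ G`: at most the sum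
  (by `right_count`'s argument).  For given `b` and `k`, `n = b - k p` with `p = P n` a prime factor of `b` (`P n ∣ n`, so `P n ∣ b`):
  at most `b.primeFactors.card ≤ Nat.log 2 b ≤ Nat.log 2 M` values (`2 ^ (number of prime factors) ≤ b`).
* `left_of_right`: at most `2 ^ d + 1` of the `x` are `≤ 2 ^ d + 1`; for the others `x ↦ x - (2 ^ d + 1)` maps `GLf d` to `GR d`.
-/

namespace Pool.Agent.TNX

open Pool.Agent.TN Finset

/-- No `2 ^ d`-smooth integer in `(x, x + 2 ^ d]`. -/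
def GR (d : ℕ) : Set ℕ := {x | ∀ a, x < a → a ≤ x + 2 ^ d → 2 ^ d < P a}

/-- No `2 ^ d`-smooth integer in `[x - 2 ^ d, x)`. -/
def GLf (d : ℕ) : Set ℕ := {x | ∀ a, 0 < a → a < x → x ≤ a + 2 ^ d → 2 ^ d < P a}

theorem GC_card (b : ℕ) (hb : 0 < b) : b.primeFactors.card ≤ Nat.log 2 b := by
  have h1 : 2 ^ b.primeFactors.card ≤ ∏ p ∈ b.primeFactors, p :=
    Finset.pow_card_le_prod _ _ _ fun p hp => (Nat.prime_of_mem_primeFactors hp).two_le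
  have h2 : ∏ p ∈ b.primeFactors, p ≤ b := Nat.le_of_dvd hb (Nat.prod_primeFactors_dvd b)
  exact Nat.le_log_of_pow_le (by norm_num) (h1.trans h2)

theorem GC_fin (N : ℕ) (G : Set ℕ) : {x | 1 ≤ x ∧ x ≤ N ∧ x ∈ G}.Finite :=
  (Set.finite_Icc 1 N).subset fun _ hx => ⟨hx.1, hx.2.1⟩

theorem right_count (N R : ℕ) (G : Set ℕ) :
    {n | (1 ≤ n ∧ n ≤ N) ∧ ∃ r, 1 ≤ r ∧ r ≤ R ∧ r ∣ n ∧ n / r ∈ G}.ncard ≤
      ∑ r ∈ Icc 1 R, {x | 1 ≤ x ∧ x ≤ N / r ∧ x ∈ G}.ncard := by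
  have hsub : {n | (1 ≤ n ∧ n ≤ N) ∧ ∃ r, 1 ≤ r ∧ r ≤ R ∧ r ∣ n ∧ n / r ∈ G} ⊆
      ⋃ r ∈ Icc 1 R, (fun x => r * x) '' {x | 1 ≤ x ∧ x ≤ N / r ∧ x ∈ G} := by
    rintro n ⟨⟨h1, h2⟩, r, hr1, hr2, hd, hG⟩
    simp only [Set.mem_iUnion]
    refine ⟨r, Finset.mem_Icc.2 ⟨hr1, hr2⟩, n / r, ⟨?_, Nat.div_le_div_right h2, hG⟩,
      Nat.mul_div_cancel' hd⟩
    exact Nat.div_pos (Nat.le_of_dvd (by omega) hd) (by omega)
  have hfin : (⋃ r ∈ Icc 1 R, (fun x => r * x) '' {x | 1 ≤ x ∧ x ≤ N / r ∧ x ∈ G}).Finite :=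
    Set.Finite.biUnion (Finset.finite_toSet _) fun r _ => (GC_fin _ G).image _
  refine (Set.ncard_le_ncard hsub hfin).trans ?_
  refine (Finset.set_ncard_biUnion_le _ _).trans ?_
  exact Finset.sum_le_sum fun r _ => Set.ncard_image_le (GC_fin _ G)

theorem left_count (N j K R : ℕ) (G : Set ℕ) :
    {n | Rg N j n ∧ ∃ k, 1 ≤ k ∧ k ≤ K ∧ ∃ r, 1 ≤ r ∧ r ≤ R ∧ r ∣ n + k * P n ∧
      (n + k * P n) / r ∈ G}.ncard ≤
      K * (Nat.log 2 (N + K * 2 ^ (j + 1)) + 1) *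
        ∑ r ∈ Icc 1 R, {x | 1 ≤ x ∧ x ≤ (N + K * 2 ^ (j + 1)) / r ∧ x ∈ G}.ncard := by
  set M : ℕ := N + K * 2 ^ (j + 1) with hM
  set B : Set ℕ := {n | (1 ≤ n ∧ n ≤ M) ∧ ∃ r, 1 ≤ r ∧ r ≤ R ∧ r ∣ n ∧ n / r ∈ G} with hB
  have hBf : B.Finite := (Set.finite_Icc 1 M).subset fun _ hx => hx.1
  have hBc : B.ncard ≤ ∑ r ∈ Icc 1 R, {x | 1 ≤ x ∧ x ≤ M / r ∧ x ∈ G}.ncard := right_count M R G
  have hsub : {n | Rg N j n ∧ ∃ k, 1 ≤ k ∧ k ≤ K ∧ ∃ r, 1 ≤ r ∧ r ≤ R ∧ r ∣ n + k * P n ∧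
      (n + k * P n) / r ∈ G} ⊆ ⋃ k ∈ Icc 1 K, ⋃ b ∈ hBf.toFinset,
        ((b.primeFactors.image fun p => b - k * p : Finset ℕ) : Set ℕ) := by
    rintro n ⟨hn, k, hk1, hk2, r, hr1, hr2, hd, hG⟩
    have hb : n + k * P n ≤ M := by
      have h1 : k * P n ≤ K * 2 ^ (j + 1) := Nat.mul_le_mul hk2 hn.2.2
      have h2 := hn.1.2
      omega
    simp only [Set.mem_iUnion]
    refine ⟨k, Finset.mem_Icc.2 ⟨hk1, hk2⟩, n + k * P n, ?_, ?_⟩
    · rw [Set.Finite.mem_toFinset]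
      exact ⟨⟨by have := hn.1.1; omega, hb⟩, r, hr1, hr2, hd, hG⟩
    · rw [Finset.mem_coe, Finset.mem_image]
      refine ⟨P n, ?_, Nat.add_sub_cancel _ _⟩
      rw [Nat.mem_primeFactors]
      exact ⟨hn.prime, Dvd.dvd.add hn.dvd (Dvd.intro_left k rfl), by have := hn.1.1; omega⟩
  have hfin : (⋃ k ∈ Icc 1 K, ⋃ b ∈ hBf.toFinset,
        ((b.primeFactors.image fun p => b - k * p : Finset ℕ) : Set ℕ)).Finite :=
    Set.Finite.biUnion (Finset.finite_toSet _) fun k _ =>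
      Set.Finite.biUnion (Finset.finite_toSet _) fun b _ => Finset.finite_toSet _
  refine (Set.ncard_le_ncard hsub hfin).trans ?_
  refine (Finset.set_ncard_biUnion_le _ _).trans ?_
  have hk : ∀ k ∈ Icc 1 K, (⋃ b ∈ hBf.toFinset,
        ((b.primeFactors.image fun p => b - k * p : Finset ℕ) : Set ℕ)).ncard ≤
        (Nat.log 2 M + 1) * B.ncard := by
    intro k _
    refine (Finset.set_ncard_biUnion_le _ _).trans ?_
    have h1 : ∀ b ∈ hBf.toFinset,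
        ((b.primeFactors.image fun p => b - k * p : Finset ℕ) : Set ℕ).ncard ≤ Nat.log 2 M + 1 := by
      intro b hb
      rw [Set.Finite.mem_toFinset] at hb
      rw [Set.ncard_coe_finset]
      refine Finset.card_image_le.trans ?_
      refine (GC_card b (by have := hb.1.1; omega)).trans ?_
      exact (Nat.log_mono_right hb.1.2).trans (Nat.le_succ _)
    refine (Finset.sum_le_sum h1).trans ?_
    rw [Finset.sum_const, smul_eq_mul, ← Set.ncard_eq_toFinset_card B hBf, mul_comm]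
  refine (Finset.sum_le_sum hk).trans ?_
  rw [Finset.sum_const, smul_eq_mul, Nat.card_Icc, Nat.add_sub_cancel, mul_assoc]
  exact Nat.mul_le_mul_left _ (Nat.mul_le_mul_left _ hBc)

theorem left_of_right (X d : ℕ) :
    {x | 1 ≤ x ∧ x ≤ X ∧ x ∈ GLf d}.ncard ≤ {x | 1 ≤ x ∧ x ≤ X ∧ x ∈ GR d}.ncard + (2 ^ d + 1) := by
  have hsub : {x | 1 ≤ x ∧ x ≤ X ∧ x ∈ GLf d} ⊆
      (fun y => y + (2 ^ d + 1)) '' {x | 1 ≤ x ∧ x ≤ X ∧ x ∈ GR d} ∪ Set.Icc 1 (2 ^ d + 1) := by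
    rintro x ⟨h1, h2, h3⟩
    by_cases hx : x ≤ 2 ^ d + 1
    · exact Or.inr ⟨h1, hx⟩
    · left
      have hpos : 0 < 2 ^ d := Nat.two_pow_pos d
      refine ⟨x - (2 ^ d + 1), ⟨by omega, (Nat.sub_le _ _).trans h2, ?_⟩,
        Nat.sub_add_cancel (by omega)⟩
      intro a ha ha2
      exact h3 a (by omega) (by omega) (by omega)
  have hfin : ((fun y => y + (2 ^ d + 1)) '' {x | 1 ≤ x ∧ x ≤ X ∧ x ∈ GR d} ∪
      Set.Icc 1 (2 ^ d + 1)).Finite := ((GC_fin X (GR d)).image _).union (Set.finite_Icc _ _)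
  refine (Set.ncard_le_ncard hsub hfin).trans ?_
  refine (Set.ncard_union_le _ _).trans ?_
  have h2 : (Set.Icc 1 (2 ^ d + 1)).ncard = 2 ^ d + 1 := by
    rw [← Finset.coe_Icc, Set.ncard_coe_finset, Nat.card_Icc, Nat.add_sub_cancel]
  rw [h2]
  exact Nat.add_le_add_right (Set.ncard_image_le (GC_fin X (GR d))) _

end Pool.Agent.TNX
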