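import Pool.Agent.TNX.Defs

/-!
# TNX/Low: the lower bound `k(n) P(n) ≤ t_n` (difficulty 2)

As `TN.P_le_tn` (file `TN/Tail.lean`).  Let `p = P n`, `m = n / p`, `n = p m`.  Suppose `t = tn n < kk n * p`,
`S ⊆ [n + 1, n + t]`, `n * ∏ S` a square.  The exponent of `p` in `n` is `1`, the total exponent is even, so some `a ∈ S` is
divisible by `p`; `a = n + j p = p (m + j)` with `1 ≤ j`, `j p ≤ t`, so `j < kk n`.  Take `q` from `hj`.  `q ∤ n`: `q > kk n * p ≥ p = P n`
(`le_P`; `kk_spec`).  `q` divides no other element `a'` of `S`: `0 < |a - a'| < t < q`.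
`q ∣ m + j`, `¬ q ^ 2 ∣ m + j`, `q` prime, `q ≠ p`: the exponent of `q` in `a = p (m + j)` is exactly `1`.  So the exponent of `q` in
`n * ∏ S` is `1`: contradiction.
-/

namespace Pool.Agent.TNX

open Pool.Agent.TN Finset

theorem low {n : ℕ} (hn : 2 ≤ n) (h2 : ¬ P n ^ 2 ∣ n)
    (hj : ∀ j, 1 ≤ j → j < kk n → ∃ q, q.Prime ∧ kk n * P n < q ∧ q ∣ n / P n + j ∧
      ¬ q ^ 2 ∣ n / P n + j) : kk n * P n ≤ tn n := by
  by_contra hlt
  push Not at hlt
  obtain ⟨h0, S, hSne, hS, hsquare⟩ := tn_spec (show 1 ≤ n by omega)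
  have hp := P_prime hn
  have hd := P_dvd hn
  have hkk := (kk_spec hn).1
  have hle : ∀ q, q.Prime → q ∣ n → q ≤ P n := fun q hq hqn =>
    le_P (Nat.mem_primeFactors.2 ⟨hq, hqn, by omega⟩)
  set p := P n with hpdef
  obtain ⟨m, hm⟩ := hd
  have hmdiv : n / p = m := by
    rw [hm]
    exact Nat.mul_div_cancel_left m hp.pos
  rw [hmdiv] at hj
  have hne : ∀ a ∈ S, a ≠ 0 := by
    intro a ha
    have h1 := Finset.mem_Icc.mp (hS ha)
    omega
  have hprod : ∏ a ∈ S, a ≠ 0 := Finset.prod_ne_zero_iff.mpr hne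
  have heven : ∀ q, (n * ∏ a ∈ S, a).factorization q ≠ 1 := by
    intro q hfac
    obtain ⟨r, hr⟩ := hsquare
    have hr0 : r ≠ 0 := by
      rintro rfl
      have : n * ∏ a ∈ S, a ≠ 0 := mul_ne_zero (by omega) hprod
      omega
    rw [hr, Nat.factorization_mul hr0 hr0, Finsupp.add_apply] at hfac
    omega
  have hex : ∃ a ∈ S, p ∣ a := by
    by_contra hnd
    push Not at hnd
    refine heven p ?_
    rw [Nat.factorization_mul (by omega) hprod, Finsupp.add_apply,
      Nat.factorization_prod_apply hne]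
    rw [Finset.sum_eq_zero]
    · have h1 : 1 ≤ n.factorization p :=
        (hp.dvd_iff_one_le_factorization (by omega)).mp ⟨m, hm⟩
      have h3 : n.factorization p < 2 := by
        by_contra h
        push Not at h
        exact h2 ((hp.pow_dvd_iff_le_factorization (by omega)).mpr h)
      omega
    · intro a ha
      exact Nat.factorization_eq_zero_of_not_dvd (hnd a ha)
  obtain ⟨a, ha, hpa⟩ := hex
  have haI := Finset.mem_Icc.mp (hS ha)
  obtain ⟨j, hjj⟩ : p ∣ a - n := Nat.dvd_sub hpa ⟨m, hm⟩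
  have hae : a = p * (m + j) := by
    rw [mul_add, ← hm, ← hjj]
    omega
  have hj1 : 1 ≤ j := by
    rcases Nat.eq_zero_or_pos j with h | h
    · rw [h, mul_zero] at hjj
      omega
    · exact h
  have hj2 : j < kk n := by
    have h3 : p * j < p * kk n := by
      rw [← hjj, mul_comm p (kk n)]
      omega
    exact Nat.lt_of_mul_lt_mul_left h3
  obtain ⟨q, hq, hkq, hqd, hq2⟩ := hj j hj1 hj2
  have hpq : p < q := lt_of_le_of_lt (Nat.le_mul_of_pos_left p hkk) hkq
  have hqn : ¬ q ∣ n := fun h => absurd (hle q hq h) (not_le.2 hpq)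
  have hqp : ¬ q ∣ p := fun h => absurd (Nat.le_of_dvd hp.pos h) (not_le.2 hpq)
  refine heven q ?_
  rw [Nat.factorization_mul (by omega) hprod, Finsupp.add_apply,
    Nat.factorization_prod_apply hne, Nat.factorization_eq_zero_of_not_dvd hqn, zero_add,
    Finset.sum_eq_single a]
  · rw [hae, Nat.factorization_mul hp.ne_zero (by omega), Finsupp.add_apply,
      Nat.factorization_eq_zero_of_not_dvd hqp, zero_add]
    have h1 : 1 ≤ (m + j).factorization q :=
      (hq.dvd_iff_one_le_factorization (by omega)).mp hqd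
    have h3 : (m + j).factorization q < 2 := by
      by_contra h
      push Not at h
      exact hq2 ((hq.pow_dvd_iff_le_factorization (by omega)).mpr h)
    omega
  · intro b hb hba
    refine Nat.factorization_eq_zero_of_not_dvd ?_
    intro hqb
    have hbI := Finset.mem_Icc.mp (hS hb)
    have hqa : q ∣ a := by
      rw [hae]
      exact Dvd.dvd.mul_left hqd p
    rcases Nat.lt_or_gt_of_ne hba with h | h
    · have h3 := Nat.le_of_dvd (by omega) (Nat.dvd_sub hqa hqb)
      omega
    · have h3 := Nat.le_of_dvd (by omega) (Nat.dvd_sub hqb hqa)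
      omega
  · intro h
    exact absurd ha h

end Pool.Agent.TNX
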