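import Pool.Agent.TNX.Hone
import Pool.Agent.TNX.Low
import Pool.Agent.TNX.FLow
import Pool.Agent.TNX.GC

/-!
# TNX/Good: a good `n` satisfies the formula or is exceptional (difficulty 3)

Let `p = P n`, `m = n / p`, `k = kk n` (`1 ≤ k ≤ K`, `P (m + k) ≤ p` by `kk_spec`), `b = n + k p = p (m + k)`, `z = 2 ^ d`.
`2 ^ j < p ≤ 2 ^ (j + 1)`, `hnear` with `r = p`: `p ∤ m` and `p ∤ m + k`, so the exponent of `p` in `n` and in `b` is `1`
(`Nat.factorization_mul`, `Nat.factorization_eq_zero_of_not_dvd`), `¬ p ^ 2 ∣ n`, `n` is not a square.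
(1) `k p ≤ tn n`: `low` with `q = P (m + j')` for `1 ≤ j' < k` (`lt_of_lt_kk`: `p < q`; `P_prime`, `P_dvd`; `m + j' ≥ 2` as `P 1 = 0`):
  `¬ q ^ 2 ∣ m + j'` by `hsq`; `kk n * p < q` since otherwise `q ≤ K p ≤ 2 ^ h p`, excluded by `hfar`.
(2) `hone` with `z`: let `r ≠ p` be a prime `> z`.  If `r ∣ n`: `r ≤ P n = p ≤ 2 ^ (j + 1)` (`le_P`), `r ∣ m`, so `r ≤ 2 ^ (j - d)` by `hnear` (`k = 0`); by `hright`
  there is `a` with `n / r < a ≤ n / r + 2 ^ d` and `P a ≤ 2 ^ d`; `r * (n / r) = n`, so `n < r a ≤ n + r 2 ^ d ≤ n + 2 ^ j ≤ b`.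
  If `r ∣ b = p (m + k)`: `r ∣ m + k`, `r ≤ P (m + k) ≤ p`, so `r ≤ 2 ^ (j - d)` by `hnear`; by `hleft` there is `0 < a < b / r` with
  `b / r ≤ a + 2 ^ d`, `P a ≤ 2 ^ d`, so `r a < b`, `r a ≥ b - r 2 ^ d ≥ b - 2 ^ j > b - p ≥ n`.
(3) If `vv n ∈ Sp n b`: `works_of_mem` and `tn_le` give `tn n ≤ k p`, so equality.  Otherwise `Exc z n b`.
-/

namespace Pool.Agent.TNX

open Pool.Agent.TN Finset

theorem good {N j d K h n : ℕ} (hd : 2 * d ≤ j) (hR : Rg N j n) (hK : kk n ≤ K) (hh : K ≤ 2 ^ h)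
    (hsq : ∀ k, 1 ≤ k → k ≤ K → ∀ q, P n < q → ¬ q ^ 2 ∣ n / P n + k)
    (hfar : ∀ k, 1 ≤ k → k ≤ K → ∀ q, q.Prime → P n < q → q ≤ 2 ^ h * P n → ¬ q ∣ n / P n + k)
    (hnear : ∀ k, k ≤ K → ∀ r, r.Prime → 2 ^ (j - d) < r → r ≤ 2 ^ (j + 1) → ¬ r ∣ n / P n + k)
    (hright : ∀ r, 1 ≤ r → r ≤ 2 ^ (j - d) → r ∣ n → n / r ∉ GR d)
    (hleft : ∀ r, 1 ≤ r → r ≤ 2 ^ (j - d) → r ∣ n + kk n * P n → (n + kk n * P n) / r ∉ GLf d) :
    (TNA.F n = tn n ∧ tn n = kk n * P n) ∨ Exc (2 ^ d) n (n + kk n * P n) := by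
  have hn2 := hR.two_le
  have hp := hR.prime
  have hmn := hR.mul_div
  obtain ⟨hk, hPk⟩ := kk_spec hn2
  have hlt1 := hR.2.1
  have hlt2 := hR.2.2
  have hleP : ∀ q, q.Prime → q ∣ n → q ≤ P n := fun q hq hqn =>
    le_P (Nat.mem_primeFactors.2 ⟨hq, hqn, by omega⟩)
  have hlow0 : ∀ j', 1 ≤ j' → j' < kk n → P n < P (n / P n + j') := fun j' h1 h2 => lt_of_lt_kk h1 h2
  set p := P n with hpdef
  set m := n / p with hmdef
  set k := kk n with hkdef
  have hm1 : 1 ≤ m := by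
    rcases Nat.eq_zero_or_pos m with e | e
    · rw [e, mul_zero] at hmn
      omega
    · exact e
  have hpd : 2 ^ (j - d) < p := lt_of_le_of_lt (Nat.pow_le_pow_right (by norm_num) (by omega)) hlt1
  have hnd0 : ¬ p ∣ m := by
    have := hnear 0 (by omega) p hp hpd hlt2
    rwa [add_zero] at this
  have hndk : ¬ p ∣ m + k := hnear k hK p hp hpd hlt2
  have hb : n + k * p = p * (m + k) := by
    rw [mul_add, hmn, mul_comm p k]
  have hfn : n.factorization p = 1 := by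
    rw [← hmn, Nat.factorization_mul hp.ne_zero (by omega), Finsupp.add_apply,
      hp.factorization_self, Nat.factorization_eq_zero_of_not_dvd hnd0]
  have hfb : (n + k * p).factorization p = 1 := by
    rw [hb, Nat.factorization_mul hp.ne_zero (by omega), Finsupp.add_apply,
      hp.factorization_self, Nat.factorization_eq_zero_of_not_dvd hndk]
  have hsq2 : ¬ p ^ 2 ∣ n := by
    intro h2
    rw [← hmn, pow_two] at h2
    exact hnd0 (Nat.dvd_of_mul_dvd_mul_left hp.pos h2)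
  -- (1) the lower bound
  have hlowq : ∀ j', 1 ≤ j' → j' < k → ∃ q, q.Prime ∧ k * p < q ∧ q ∣ m + j' ∧
      ¬ q ^ 2 ∣ m + j' := by
    intro j' h1 h2
    have hq1 := hlow0 j' h1 h2
    have h2' : 2 ≤ m + j' := by omega
    have hqp := P_prime h2'
    have hqd := P_dvd h2'
    refine ⟨P (m + j'), hqp, ?_, hqd, hsq j' h1 (by omega) _ hq1⟩
    by_contra hcon
    rw [not_lt] at hcon
    refine hfar j' h1 (by omega) _ hqp hq1 ?_ hqd
    calc P (m + j') ≤ k * p := hcon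
      _ ≤ 2 ^ h * p := Nat.mul_le_mul_right p (hK.trans hh)
  have hlow : k * p ≤ tn n := low hn2 hsq2 hlowq
  have hlowF : k * p ≤ TNA.F n := F_low hn2 hsq2 hlowq
  have hFle : TNA.F n ≤ tn n := TNA.F_le_tn (by omega) (nonsq_P hn2 hsq2)
  have hkp : p ≤ k * p := Nat.le_mul_of_pos_left p hk
  have hrd : ∀ r, r ≤ 2 ^ (j - d) → r * 2 ^ d ≤ 2 ^ j := by
    intro r hr
    calc r * 2 ^ d ≤ 2 ^ (j - d) * 2 ^ d := Nat.mul_le_mul_right _ hr
      _ = 2 ^ j := by rw [← pow_add, Nat.sub_add_cancel (by omega)]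
  -- (2) all primes larger than `2 ^ d` can be removed
  have hx : ∃ x ∈ Sp n (n + k * p), vv n + x ∈ Kz (2 ^ d) := by
    refine hone hp (by omega) hk hfn hfb ?_
    intro r hr hzr hrp hdvd
    have hcop : Nat.Coprime r p := (Nat.coprime_primes hr hp).2 hrp
    rcases hdvd with hrn | hrb
    · have hrm : r ∣ m := by
        rw [← hmn] at hrn
        exact hcop.dvd_of_dvd_mul_left hrn
      have hrle : r ≤ 2 ^ (j - d) := by
        by_contra hcon
        have h3 := hnear 0 (by omega) r hr (not_le.1 hcon) ((hleP r hr hrn).trans hlt2)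
        rw [add_zero] at h3
        exact h3 hrm
      have h4 := hright r hr.one_le hrle hrn
      unfold GR at h4
      rw [Set.mem_ofPred_eq] at h4
      push Not at h4
      obtain ⟨a, ha1, ha2, ha3⟩ := h4
      have h5 := Nat.mul_div_cancel' hrn
      have h6 := hrd r hrle
      refine ⟨a, lt_of_le_of_lt (Nat.zero_le _) ha1, ha3, ?_, ?_⟩
      · calc n = r * (n / r) := h5.symm
          _ < r * a := Nat.mul_lt_mul_of_pos_left ha1 hr.pos
      · calc r * a ≤ r * (n / r + 2 ^ d) := Nat.mul_le_mul_left r ha2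
          _ = n + r * 2 ^ d := by rw [mul_add, h5]
          _ ≤ n + k * p := by omega
    · have hrm : r ∣ m + k := by
        rw [hb] at hrb
        exact hcop.dvd_of_dvd_mul_left hrb
      have hrP : r ≤ P (m + k) := le_P (Nat.mem_primeFactors.2 ⟨hr, hrm, by omega⟩)
      have hrle : r ≤ 2 ^ (j - d) := by
        by_contra hcon
        exact hnear k hK r hr (not_le.1 hcon) ((hrP.trans hPk).trans hlt2) hrm
      have h4 := hleft r hr.one_le hrle hrb
      unfold GLf at h4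
      rw [Set.mem_ofPred_eq] at h4
      push Not at h4
      obtain ⟨a, ha0, ha1, ha2, ha3⟩ := h4
      have h5 := Nat.mul_div_cancel' hrb
      have h6 := hrd r hrle
      refine ⟨a, ha0, ha3, ?_, ?_⟩
      · have h7 : n + k * p ≤ r * a + r * 2 ^ d := by
          calc n + k * p = r * ((n + k * p) / r) := h5.symm
            _ ≤ r * (a + 2 ^ d) := Nat.mul_le_mul_left r ha2
            _ = _ := by rw [mul_add]
        omega
      · calc r * a ≤ r * ((n + k * p) / r) := Nat.mul_le_mul_left r ha1.le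
          _ = _ := h5
  by_cases hmem : vv n ∈ Sp n (n + k * p)
  · left
    suffices hup : tn n ≤ k * p from
      ⟨le_antisymm hFle (hup.trans hlowF), le_antisymm hup hlow⟩
    refine tn_le (Nat.mul_pos hk hp.pos) ?_
    refine works_of_mem (by omega) ?_ hmem
    rintro ⟨r, hr⟩
    have hr0 : r ≠ 0 := by
      rintro rfl
      omega
    rw [hr, Nat.factorization_mul hr0 hr0, Finsupp.add_apply] at hfn
    omega
  · exact Or.inr ⟨hmem, hx⟩

end Pool.Agent.TNX
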