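import Pool.Agent.TNX.Un

/-!
# TNX/R1: smooth `n`, and `P n` near `√n` (difficulty 3)

* `reg_smooth`: `TN.card_smooth_le` (file `TN/Cheb.lean`) with `y = 2 ^ ⌈η J⌉₊`: divide by `log N / 2 ≥ J log 2 / 2`:
  count `≤ √N + 4 N (⌈η J⌉ log 2 + 2 log 2) / (J log 2) ≤ √N + 4 N (η + 3 / J)`; `η = min (ε / 16) (1 / 4)`, `J ≥ 48 / ε`,
  `√N ≤ ε N / 4` for `N ≥ 16 / ε ^ 2`.
* `reg_mid`: `P n ^ 2 ≤ 16 n ≤ 16 N < 2 ^ (J + 5)` gives `P n < 2 ^ (J / 2 + 3)`; so `n` is in one of the ranges `Rg N j n`,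
  `J / 2 ≤ j < J / 2 + 3` (for example `j = Nat.clog 2 (P n) - 1`); `union_le`, `card_Rg`: count `≤ 3 * 12 N / (J / 2 + 1) ≤ ε N`.
-/

namespace Pool.Agent.TNX

open Pool.Agent.TN Finset

theorem reg_smooth {ε : ℝ} (hε : 0 < ε) : ∃ η : ℝ, 0 < η ∧ η ≤ 1 / 4 ∧ ∃ J0 : ℕ, ∀ J : ℕ, J0 ≤ J →
    ∀ N : ℕ, 2 ^ J ≤ N → N < 2 ^ (J + 1) →
      ({n | (1 ≤ n ∧ n ≤ N) ∧ P n ≤ 2 ^ ⌈η * J⌉₊}.ncard : ℝ) ≤ ε * N := by
  refine ⟨min (ε / 16) (1 / 4), lt_min (by positivity) (by norm_num), min_le_right _ _, 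
    ⌈48 / ε⌉₊ + ⌈16 / ε ^ 2⌉₊ + 1, ?_⟩
  intro J hJ N hN1 hN2
  set η : ℝ := min (ε / 16) (1 / 4) with hη
  have hη0 : 0 < η := lt_min (by positivity) (by norm_num)
  have hη1 : η ≤ ε / 16 := min_le_left _ _
  have hJ1 : (⌈48 / ε⌉₊ : ℝ) + (⌈16 / ε ^ 2⌉₊ : ℝ) + 1 ≤ J := by exact_mod_cast hJ
  have hc1 := Nat.le_ceil (48 / ε)
  have hc2 := Nat.le_ceil (16 / ε ^ 2)
  have hp1 : 0 < 48 / ε := by positivity
  have hp2 : 0 < 16 / ε ^ 2 := by positivity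
  have hJ48 : 48 / ε ≤ J := by linarith
  have hJ16 : 16 / ε ^ 2 ≤ J := by linarith
  have hJpos : (0 : ℝ) < J := by linarith
  have hJN : (J : ℝ) ≤ N := by
    have h1 : J < 2 ^ J := Nat.lt_two_pow_self
    exact_mod_cast (h1.le.trans hN1)
  have hNpos : (0 : ℝ) < N := lt_of_lt_of_le hJpos hJN
  have hN0 : 1 ≤ N := by exact_mod_cast (Nat.one_le_two_pow.trans hN1)
  have hlog2 : 0 < Real.log 2 := Real.log_pos (by norm_num)
  have hlogN : (J : ℝ) * Real.log 2 ≤ Real.log N := by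
    rw [← Real.log_pow]
    apply Real.log_le_log (by positivity)
    exact_mod_cast hN1
  have hlogNpos : 0 < Real.log N := lt_of_lt_of_le (by positivity) hlogN
  have key := card_smooth_le N (2 ^ ⌈η * J⌉₊) hN0 Nat.one_le_two_pow
  have hly : Real.log ((2 ^ ⌈η * J⌉₊ : ℕ) : ℝ) ≤ (η * J + 1) * Real.log 2 := by
    push_cast
    rw [Real.log_pow]
    apply mul_le_mul_of_nonneg_right _ hlog2.le
    exact (Nat.ceil_lt_add_one (by positivity)).le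
  have hl4 : Real.log 4 = 2 * Real.log 2 := by
    rw [show (4 : ℝ) = 2 ^ 2 by norm_num, Real.log_pow]
    norm_num
  have hsq : √(N : ℝ) ≤ ε / 4 * N := by
    rw [Real.sqrt_le_left (by positivity)]
    have h16 : 16 / ε ^ 2 ≤ N := hJ16.trans hJN
    rw [div_le_iff₀ (by positivity)] at h16
    nlinarith
  have h48 : 48 ≤ ε * J := by
    rw [div_le_iff₀ hε] at hJ48
    linarith
  set C : ℝ := ({n | (1 ≤ n ∧ n ≤ N) ∧ P n ≤ 2 ^ ⌈η * J⌉₊}.ncard : ℝ) with hC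
  have hmid : 2 * (N : ℝ) * (Real.log ((2 ^ ⌈η * J⌉₊ : ℕ) : ℝ) + Real.log 4) ≤
      (3 * ε / 4) * N * (Real.log N / 2) := by
    have e1 : Real.log ((2 ^ ⌈η * J⌉₊ : ℕ) : ℝ) + Real.log 4 ≤ (η * J + 3) * Real.log 2 := by
      rw [hl4]; linarith
    have e2 : (η * J + 3) * Real.log 2 ≤ (3 * ε / 16) * (J * Real.log 2) := by
      have : η * J + 3 ≤ (3 * ε / 16) * J := by
        have h5 : η * J ≤ ε / 16 * J := mul_le_mul_of_nonneg_right hη1 hJpos.le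
        linarith
      calc (η * J + 3) * Real.log 2 ≤ ((3 * ε / 16) * J) * Real.log 2 :=
            mul_le_mul_of_nonneg_right this hlog2.le
        _ = _ := by ring
    have e3 : (3 * ε / 16) * (J * Real.log 2) ≤ (3 * ε / 16) * Real.log N :=
      mul_le_mul_of_nonneg_left hlogN (by positivity)
    calc 2 * (N : ℝ) * (Real.log ((2 ^ ⌈η * J⌉₊ : ℕ) : ℝ) + Real.log 4)
        ≤ 2 * (N : ℝ) * ((3 * ε / 16) * Real.log N) :=
          mul_le_mul_of_nonneg_left (e1.trans (e2.trans e3)) (by positivity)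
      _ = (3 * ε / 4) * N * (Real.log N / 2) := by ring
  have hfin : C * (Real.log N / 2) ≤ (ε * N) * (Real.log N / 2) := by
    calc C * (Real.log N / 2) ≤ √N * (Real.log N / 2) +
        2 * N * (Real.log ((2 ^ ⌈η * J⌉₊ : ℕ) : ℝ) + Real.log 4) := key
      _ ≤ (ε / 4 * N) * (Real.log N / 2) + (3 * ε / 4) * N * (Real.log N / 2) := by
          apply add_le_add _ hmid
          exact mul_le_mul_of_nonneg_right hsq (by positivity)
      _ = (ε * N) * (Real.log N / 2) := by ring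
  exact le_of_mul_le_mul_right hfin (by positivity)

theorem reg_mid {ε : ℝ} (hε : 0 < ε) : ∃ J0 : ℕ, ∀ J : ℕ, J0 ≤ J →
    ∀ N : ℕ, 2 ^ J ≤ N → N < 2 ^ (J + 1) →
      ({n | (1 ≤ n ∧ n ≤ N) ∧ 2 ^ (J / 2) < P n ∧ P n ^ 2 ≤ 16 * n}.ncard : ℝ) ≤ ε * N := by
  refine ⟨⌈72 / ε⌉₊ + 1, ?_⟩
  intro J hJ N hN1 hN2
  have hJ1 : (⌈72 / ε⌉₊ : ℝ) + 1 ≤ J := by exact_mod_cast hJ
  have hc1 := Nat.le_ceil (72 / ε)
  have hp1 : 0 < 72 / ε := by positivity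
  have hJ72 : 72 / ε ≤ J := by linarith
  have hJpos : (0 : ℝ) < J := by linarith
  have hsub : {n | (1 ≤ n ∧ n ≤ N) ∧ 2 ^ (J / 2) < P n ∧ P n ^ 2 ≤ 16 * n} ⊆
      {n | ∃ j ∈ Ico (J / 2) (J / 2 + 3), Rg N j n ∧ True} := by
    rintro n ⟨hn, h1, h2⟩
    have hP1 : 1 < P n := lt_of_le_of_lt Nat.one_le_two_pow h1
    have hlt : P n < 2 ^ (J / 2 + 3) := by
      have h3 : P n ^ 2 < (2 ^ (J / 2 + 3)) ^ 2 := by
        calc P n ^ 2 ≤ 16 * n := h2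
          _ ≤ 16 * N := Nat.mul_le_mul_left _ hn.2
          _ < 16 * 2 ^ (J + 1) := by omega
          _ = 2 ^ (J + 5) := by ring
          _ ≤ 2 ^ ((J / 2 + 3) * 2) := Nat.pow_le_pow_right (by norm_num) (by omega)
          _ = (2 ^ (J / 2 + 3)) ^ 2 := by rw [pow_mul]
      exact lt_of_pow_lt_pow_left₀ 2 (by positivity) h3
    have hcl1 : J / 2 < Nat.clog 2 (P n) := by
      rw [Nat.lt_clog_iff_pow_lt (by norm_num)]
      exact h1
    have hcl2 : Nat.clog 2 (P n) ≤ J / 2 + 3 := by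
      rw [Nat.clog_le_iff_le_pow (by norm_num)]
      exact hlt.le
    refine ⟨Nat.clog 2 (P n) - 1, ?_, ⟨hn, ?_, ?_⟩, trivial⟩
    · rw [Finset.mem_Ico]; omega
    · rw [← Nat.lt_clog_iff_pow_lt (by norm_num)]
      omega
    · have : Nat.clog 2 (P n) - 1 + 1 = Nat.clog 2 (P n) := by omega
      rw [this]
      exact Nat.le_pow_clog (by norm_num) _
  have hfin : {n | ∃ j ∈ Ico (J / 2) (J / 2 + 3), Rg N j n ∧ True}.Finite := by
    apply (Set.finite_Icc 1 N).subset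
    rintro n ⟨j, _, hn, _⟩
    exact hn.1
  have hcard : ({n | (1 ≤ n ∧ n ≤ N) ∧ 2 ^ (J / 2) < P n ∧ P n ^ 2 ≤ 16 * n}.ncard : ℝ) ≤
      ({n | ∃ j ∈ Ico (J / 2) (J / 2 + 3), Rg N j n ∧ True}.ncard : ℝ) := by
    exact_mod_cast Set.ncard_le_ncard hsub hfin
  refine hcard.trans ?_
  have hU := union_le N (J / 2) (J / 2 + 3) (fun _ _ => True) (fun j => N * (12 / (j + 1))) (by
    intro j _
    have h := card_Rg N j
    simpa using h)
  refine hU.trans ?_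
  have hbd : ∀ j ∈ Ico (J / 2) (J / 2 + 3), (N : ℝ) * (12 / ((j : ℝ) + 1)) ≤ N * (24 / J) := by
    intro j hj
    rw [Finset.mem_Ico] at hj
    apply mul_le_mul_of_nonneg_left _ (Nat.cast_nonneg _)
    rw [div_le_div_iff₀ (by positivity) hJpos]
    have h3 : (J : ℝ) ≤ 2 * j + 2 := by
      have : J ≤ 2 * j + 2 := by omega
      exact_mod_cast this
    linarith
  calc ∑ j ∈ Ico (J / 2) (J / 2 + 3), (N : ℝ) * (12 / ((j : ℝ) + 1))
      ≤ ∑ j ∈ Ico (J / 2) (J / 2 + 3), (N : ℝ) * (24 / J) := Finset.sum_le_sum hbd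
    _ = 72 / J * N := by
        rw [Finset.sum_const, Nat.card_Ico, nsmul_eq_mul]
        have : J / 2 + 3 - J / 2 = 3 := by omega
        rw [this]
        push_cast
        ring
    _ ≤ ε * N := by
        apply mul_le_mul_of_nonneg_right _ (Nat.cast_nonneg _)
        rw [div_le_iff₀ hJpos]
        rw [div_le_iff₀ hε] at hJ72
        linarith

end Pool.Agent.TNX
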