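import Pool.Agent.TNX.Fib

/-!
# TNX/KkC: `k(n) > K` is rare (difficulty 3)

Write the set as `{n | Rg N j n ∧ Q (P n) (n / P n)}` with `Q p m := K < sInf {k | 0 < k ∧ P (m + k) ≤ p}` (this is `K < kk n`) and use
`fib` with `B p = N / p / (K + 1) + 1`.  For a prime `p`, if `m < m'` both satisfy `P m ≤ p`, `P m' ≤ p` and `Q p m`, then
`K < m' - m` (`m' - m` is in the set of the `sInf`, `Nat.sInf_le`).  So `m ↦ m / (K + 1)` is injective on
`{m | 1 ≤ m ∧ m ≤ N / p ∧ P m ≤ p ∧ Q p m}`, with values `≤ (N / p) / (K + 1)`: at most `N / p / (K + 1) + 1` elements.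
Sum with `inv_block` and `card_block`.
-/

namespace Pool.Agent.TNX

open Pool.Agent.TN Finset

theorem kkC_fib (N K p : ℕ) :
    ({m | 1 ≤ m ∧ m ≤ N / p ∧ P m ≤ p ∧ K < sInf {k : ℕ | 0 < k ∧ P (m + k) ≤ p}}.ncard : ℝ) ≤
      (N : ℝ) / (K + 1) * (1 / p) + 1 := by
  set A : Set ℕ := {m | 1 ≤ m ∧ m ≤ N / p ∧ P m ≤ p ∧ K < sInf {k : ℕ | 0 < k ∧ P (m + k) ≤ p}} with hA
  have hgap : ∀ m ∈ A, ∀ m' ∈ A, m < m' → K < m' - m := by
    intro m hm m' hm' hlt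
    refine lt_of_lt_of_le hm.2.2.2 (Nat.sInf_le ⟨by omega, ?_⟩)
    rw [Nat.add_sub_cancel' hlt.le]
    exact hm'.2.2.1
  have hK : 0 < K + 1 := Nat.succ_pos K
  have hdiv : ∀ m ∈ A, ∀ m' ∈ A, m < m' → m / (K + 1) ≠ m' / (K + 1) := by
    intro m hm m' hm' hlt he
    have h1 := hgap m hm m' hm' hlt
    have h2 := Nat.div_add_mod m (K + 1)
    have h3 := Nat.div_add_mod m' (K + 1)
    have h4 := Nat.mod_lt m hK
    have h5 := Nat.mod_lt m' hK
    rw [he] at h2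
    omega
  have hinj : Set.InjOn (fun m => m / (K + 1)) A := by
    intro m hm m' hm' he
    rcases lt_trichotomy m m' with h | h | h
    · exact absurd he (hdiv m hm m' hm' h)
    · exact h
    · exact absurd he.symm (hdiv m' hm' m hm h)
  have hmaps : ∀ m ∈ A, m / (K + 1) ∈ (Finset.range (N / p / (K + 1) + 1) : Set ℕ) := by
    intro m hm
    rw [Finset.coe_range, Set.mem_Iio]
    have := Nat.div_le_div_right (c := K + 1) hm.2.1
    omega
  have hcard : A.ncard ≤ N / p / (K + 1) + 1 := by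
    have := Set.ncard_le_ncard_of_injOn (fun m => m / (K + 1)) hmaps hinj (Finset.finite_toSet _)
    rw [Set.ncard_coe_finset, Finset.card_range] at this
    exact this
  have h1 : (A.ncard : ℝ) ≤ ((N / p / (K + 1) : ℕ) : ℝ) + 1 := by exact_mod_cast hcard
  have h2 : ((N / p / (K + 1) : ℕ) : ℝ) ≤ ((N / p : ℕ) : ℝ) / ((K + 1 : ℕ) : ℝ) := Nat.cast_div_le
  have h3 : ((N / p : ℕ) : ℝ) ≤ (N : ℝ) / p := Nat.cast_div_le
  have h4 : ((K + 1 : ℕ) : ℝ) = (K : ℝ) + 1 := by push_cast; rfl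
  rw [h4] at h2
  have hK0 : (0 : ℝ) < K + 1 := by positivity
  have h5 : ((N / p : ℕ) : ℝ) / ((K : ℝ) + 1) ≤ (N : ℝ) / p / ((K : ℝ) + 1) :=
    div_le_div_of_nonneg_right h3 hK0.le
  have h6 : (N : ℝ) / p / ((K : ℝ) + 1) = (N : ℝ) / (K + 1) * (1 / p) := by ring
  linarith

theorem kk_count (N K j : ℕ) :
    ({n | Rg N j n ∧ K < kk n}.ncard : ℝ) ≤ N / (K + 1) * (12 / (j + 1)) + 2 ^ j := by
  have h1 := fib N j (fun p m => K < sInf {k : ℕ | 0 < k ∧ P (m + k) ≤ p})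
    (fun p => (N : ℝ) / (K + 1) * (1 / p) + 1) (fun p _ => kkC_fib N K p)
  have h2 : ({n | Rg N j n ∧ K < kk n}.ncard : ℝ) ≤
      ∑ p ∈ Pr j (j + 1), ((N : ℝ) / (K + 1) * (1 / p) + 1) := h1
  refine h2.trans ?_
  rw [Finset.sum_add_distrib, ← Finset.mul_sum, Finset.sum_const, nsmul_eq_mul, mul_one]
  have h3 := inv_block j
  have h4 := card_block j
  have h5 : (0 : ℝ) ≤ (N : ℝ) / (K + 1) := by positivity
  exact add_le_add (mul_le_mul_of_nonneg_left h3 h5) h4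

end Pool.Agent.TNX
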