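import Pool.Agent.TNX.Fib

/-!
# TNX/SqC: squares of large primes (difficulty 2)

`fib` with `Q p m := ∃ k, 1 ≤ k ∧ k ≤ K ∧ ∃ q, p < q ∧ q ^ 2 ∣ m + k` and `B p = K * (N / p + K) / p`.  For given `k`, `q` at most
`(N / p + k) / q ^ 2` values of `m ≤ N / p` (`mult_count`; none if `q ^ 2 > N / p + K`, so finitely many `q`:
`q ∈ Ioc p (N / p + K)`), and `∑_{q > p} 1 / q ^ 2 ≤ 1 / p` (`sum_Ioc_inv_sq_le_sub`, see `TN.card_sq_dvd_le` in `TN/Tail.lean`).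
`B p ≤ K (N / 2 ^ j + K) / 2 ^ j`, at most `2 ^ j` primes (`card_block`).
-/

namespace Pool.Agent.TNX

open Pool.Agent.TN Finset

private lemma sqc_union {ι : Type*} (I : Finset ι) (S : ι → Set ℕ) (T : Set ℕ)
    (hT : T ⊆ ⋃ i ∈ I, S i) (hfin : ∀ i ∈ I, (S i).Finite) (f : ι → ℝ)
    (hf : ∀ i ∈ I, ((S i).ncard : ℝ) ≤ f i) : (T.ncard : ℝ) ≤ ∑ i ∈ I, f i := by
  have hF : (⋃ i ∈ I, S i).Finite := Set.Finite.biUnion (Finset.finite_toSet I) hfin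
  have h1 : T.ncard ≤ ∑ i ∈ I, (S i).ncard :=
    (Set.ncard_le_ncard hT hF).trans (Finset.set_ncard_biUnion_le I S)
  calc (T.ncard : ℝ) ≤ ((∑ i ∈ I, (S i).ncard : ℕ) : ℝ) := by exact_mod_cast h1
    _ = ∑ i ∈ I, ((S i).ncard : ℝ) := by push_cast; rfl
    _ ≤ _ := Finset.sum_le_sum hf

private lemma sqc_one (N K j p : ℕ) (hp : p ∈ Pr j (j + 1)) :
    ({m | 1 ≤ m ∧ m ≤ N / p ∧ P m ≤ p ∧
      ∃ k, 1 ≤ k ∧ k ≤ K ∧ ∃ q, p < q ∧ q ^ 2 ∣ m + k}.ncard : ℝ) ≤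
      K * ((N / 2 ^ j + K) / 2 ^ j) := by
  obtain ⟨⟨hp1, hp2⟩, hpp⟩ := mem_Pr.mp hp
  have hp0 : (0 : ℝ) < p := by exact_mod_cast hpp.pos
  have hjp : ((2 : ℝ) ^ j) ≤ p := by exact_mod_cast hp1.le
  have h2j : (0 : ℝ) < 2 ^ j := by positivity
  have h1 := sqc_union (Icc 1 K ×ˢ Ioc p (N / p + K))
    (fun x : ℕ × ℕ => {m | 1 ≤ m ∧ m ≤ N / p ∧ x.2 ^ 2 ∣ m + x.1})
    {m | 1 ≤ m ∧ m ≤ N / p ∧ P m ≤ p ∧ ∃ k, 1 ≤ k ∧ k ≤ K ∧ ∃ q, p < q ∧ q ^ 2 ∣ m + k}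
    (by
      rintro m ⟨hm1, hm2, _, k, hk1, hk2, q, hq1, hq2⟩
      have h3 := Nat.le_of_dvd (by omega) hq2
      have h4 : q ≤ q ^ 2 := by nlinarith
      refine Set.mem_biUnion (show (k, q) ∈ Icc 1 K ×ˢ Ioc p (N / p + K) from ?_) ⟨hm1, hm2, hq2⟩
      rw [Finset.mem_product, Finset.mem_Icc, Finset.mem_Ioc]
      refine ⟨⟨hk1, hk2⟩, hq1, ?_⟩
      show q ≤ N / p + K
      omega)
    (by
      intro x _
      exact (Set.finite_Iic (N / p)).subset (fun m hm => hm.2.1))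
    (fun x => ((N : ℝ) / 2 ^ j + K) * ((x.2 : ℝ) ^ 2)⁻¹)
    (by
      rintro ⟨k, q⟩ hx
      rw [Finset.mem_product, Finset.mem_Icc, Finset.mem_Ioc] at hx
      obtain ⟨⟨hk1, hk2⟩, hq1, hq2⟩ := hx
      simp only at hk1 hk2 hq1 hq2 ⊢
      have hq0 : 0 < q := by omega
      refine (mult_count (N / p) k (q ^ 2) (Nat.one_le_pow _ _ hq0)).trans ?_
      rw [div_eq_mul_inv]
      push_cast
      apply mul_le_mul_of_nonneg_right _ (by positivity)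
      have h5 : ((N / p : ℕ) : ℝ) ≤ (N : ℝ) / p := Nat.cast_div_le
      have h6 : (N : ℝ) / p ≤ N / 2 ^ j := div_le_div_of_nonneg_left (by positivity) h2j hjp
      have h7 : (k : ℝ) ≤ K := by exact_mod_cast hk2
      linarith)
  refine h1.trans ?_
  rw [Finset.sum_product]
  simp only
  rw [Finset.sum_const, nsmul_eq_mul, Nat.card_Icc, Nat.add_sub_cancel, ← Finset.mul_sum]
  apply mul_le_mul_of_nonneg_left _ (Nat.cast_nonneg K)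
  rw [div_eq_mul_inv ((N : ℝ) / 2 ^ j + K)]
  apply mul_le_mul_of_nonneg_left _ (by positivity)
  have h8 : ((p : ℝ))⁻¹ ≤ (2 ^ j)⁻¹ := by
    rw [inv_le_inv₀ hp0 h2j]
    exact hjp
  refine le_trans ?_ h8
  rcases le_or_gt p (N / p + K) with h | h
  · have h9 := sum_Ioc_inv_sq_le_sub (α := ℝ) (k := p) (n := N / p + K) hpp.ne_zero h
    have h10 : (0 : ℝ) ≤ ((N / p + K : ℕ) : ℝ)⁻¹ := by positivity
    linarith
  · rw [Finset.Ioc_eq_empty (by omega), Finset.sum_empty]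
    positivity

theorem sq_count (N K j : ℕ) :
    ({n | Rg N j n ∧ ∃ k, 1 ≤ k ∧ k ≤ K ∧ ∃ q, P n < q ∧ q ^ 2 ∣ n / P n + k}.ncard : ℝ) ≤
      K * (N / 2 ^ j + K) := by
  have h := fib N j (fun p m => ∃ k, 1 ≤ k ∧ k ≤ K ∧ ∃ q, p < q ∧ q ^ 2 ∣ m + k)
    (fun _ => (K : ℝ) * ((N / 2 ^ j + K) / 2 ^ j)) (fun p hp => sqc_one N K j p hp)
  refine h.trans ?_
  rw [Finset.sum_const, nsmul_eq_mul]
  have h2j : (0 : ℝ) < 2 ^ j := by positivity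
  calc ((Pr j (j + 1)).card : ℝ) * (K * ((N / 2 ^ j + K) / 2 ^ j))
      ≤ 2 ^ j * (K * ((N / 2 ^ j + K) / 2 ^ j)) :=
        mul_le_mul_of_nonneg_right (card_block j) (by positivity)
    _ = K * (N / 2 ^ j + K) := by
        field_simp

end Pool.Agent.TNX
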