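import Pool.Agent.TNX.Un
import Pool.Agent.TNX.KkC
import Pool.Agent.TNX.SqC

/-!
# TNX/R2: `k(n) > K` and squares, summed over the ranges (difficulty 3)

In all sums `j ≥ η J`, so `12 / (j + 1) ≤ 12 / (η J)`, at most `J / 2` values of `j`, `2 ^ j ≤ 2 ^ (J / 2)`, `N ≥ 2 ^ J`.
* `reg_kk`: `union_le`, `kk_count`: `≤ (J / 2) (N / (K + 1) * 12 / (η J)) + J 2 ^ (J / 2) ≤ 6 N / (η (K + 1)) + J 2 ^ (J / 2)`;
  `K ≥ 12 / (η ε)`, `J 2 ^ (J / 2) ≤ (ε / 2) 2 ^ J` for large `J` (`decay` with `κ = 1 / 2`).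
* `reg_sq`: `sq_count`: `≤ J K (N / 2 ^ (η J) + K)` (`decay`).
-/

namespace Pool.Agent.TNX

open Pool.Agent.TN Finset

private theorem r2_half (j J : ℕ) (hj : j < J / 2) :
    (2 : ℝ) ^ j ≤ (2 : ℝ) ^ (-((1 / 2 : ℝ) * J)) * (2 : ℝ) ^ J := by
  rw [← Real.rpow_natCast 2 j, ← Real.rpow_natCast 2 J, ← Real.rpow_add (by norm_num)]
  apply Real.rpow_le_rpow_of_exponent_le (by norm_num)
  have : 2 * j ≤ J := by omega
  have h : (2 : ℝ) * j ≤ J := by exact_mod_cast this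
  linarith

theorem reg_kk {η ε : ℝ} (hη : 0 < η) (hε : 0 < ε) : ∃ K : ℕ, 1 ≤ K ∧ ∃ J0 : ℕ, ∀ J : ℕ, J0 ≤ J →
    ∀ N : ℕ, 2 ^ J ≤ N → N < 2 ^ (J + 1) →
      ({n | ∃ j ∈ Ico ⌈η * J⌉₊ (J / 2), Rg N j n ∧ K < kk n}.ncard : ℝ) ≤ ε * N := by
  obtain ⟨J1, hJ1⟩ := decay (κ := 1 / 2) (by norm_num) 1 (half_pos hε)
  refine ⟨⌈12 / (η * ε)⌉₊ + 1, by omega, J1 + 1, ?_⟩
  intro J hJ N hN1 hN2
  set K : ℕ := ⌈12 / (η * ε)⌉₊ + 1 with hK
  have hK1 : 12 / (η * ε) ≤ K := by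
    rw [hK]; push_cast
    have := Nat.le_ceil (12 / (η * ε))
    linarith
  have hJpos : (0 : ℝ) < J := by
    have : 0 < J := by omega
    exact_mod_cast this
  have hdec := hJ1 J (by omega)
  rw [pow_one] at hdec
  have hNr : (2 : ℝ) ^ J ≤ N := by exact_mod_cast hN1
  have hN0 : (0 : ℝ) ≤ N := Nat.cast_nonneg _
  have hU := union_le N ⌈η * J⌉₊ (J / 2) (fun _ n => K < kk n)
    (fun j => N / (K + 1) * (12 / (j + 1)) + 2 ^ j) (fun j _ => kk_count N K j)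
  refine hU.trans ?_
  have hbd : ∀ j ∈ Ico ⌈η * J⌉₊ (J / 2), (N : ℝ) / (K + 1) * (12 / ((j : ℝ) + 1)) + 2 ^ j ≤
      N / (K + 1) * (12 / (η * J)) + (2 : ℝ) ^ (-((1 / 2 : ℝ) * J)) * (2 : ℝ) ^ J := by
    intro j hj
    rw [Finset.mem_Ico] at hj
    apply add_le_add _ (r2_half j J hj.2)
    apply mul_le_mul_of_nonneg_left _ (by positivity)
    apply div_le_div_of_nonneg_left (by norm_num) (by positivity)
    have h1 : η * J ≤ j := (Nat.le_ceil _).trans (by exact_mod_cast hj.1)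
    linarith
  refine (Finset.sum_le_sum hbd).trans ?_
  rw [Finset.sum_const, Nat.card_Ico, nsmul_eq_mul]
  have hcard : ((J / 2 - ⌈η * J⌉₊ : ℕ) : ℝ) ≤ J / 2 := by
    have h1 : (J / 2 - ⌈η * J⌉₊ : ℕ) ≤ J / 2 := Nat.sub_le _ _
    have h2 : ((J / 2 - ⌈η * J⌉₊ : ℕ) : ℝ) ≤ ((J / 2 : ℕ) : ℝ) := by exact_mod_cast h1
    exact h2.trans Nat.cast_div_le
  have hnn : 0 ≤ (N : ℝ) / (K + 1) * (12 / (η * J)) + (2 : ℝ) ^ (-((1 / 2 : ℝ) * J)) * (2 : ℝ) ^ J := by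
    positivity
  refine (mul_le_mul_of_nonneg_right hcard hnn).trans ?_
  have e1 : (J : ℝ) / 2 * ((N : ℝ) / (K + 1) * (12 / (η * J))) ≤ ε / 2 * N := by
    have : (J : ℝ) / 2 * ((N : ℝ) / (K + 1) * (12 / (η * J))) = 6 / (η * (K + 1)) * N := by
      field_simp
      ring
    rw [this]
    apply mul_le_mul_of_nonneg_right _ hN0
    rw [div_le_iff₀ (by positivity)]
    rw [div_le_iff₀ (by positivity)] at hK1
    nlinarith [mul_pos hη hε]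
  have e2 : (J : ℝ) / 2 * ((2 : ℝ) ^ (-((1 / 2 : ℝ) * J)) * (2 : ℝ) ^ J) ≤ ε / 2 * N := by
    have h0 : (0 : ℝ) ≤ (2 : ℝ) ^ (-((1 / 2 : ℝ) * J)) := by positivity
    calc (J : ℝ) / 2 * ((2 : ℝ) ^ (-((1 / 2 : ℝ) * J)) * (2 : ℝ) ^ J)
        = (1 / 2) * ((J * (2 : ℝ) ^ (-((1 / 2 : ℝ) * J))) * (2 : ℝ) ^ J) := by ring
      _ ≤ 1 * ((J * (2 : ℝ) ^ (-((1 / 2 : ℝ) * J))) * (2 : ℝ) ^ J) := by
          apply mul_le_mul_of_nonneg_right (by norm_num)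
          positivity
      _ ≤ ε / 2 * N := by
          rw [one_mul]
          apply mul_le_mul hdec hNr (by positivity) (by positivity)
  calc (J : ℝ) / 2 * ((N : ℝ) / (K + 1) * (12 / (η * J)) + (2 : ℝ) ^ (-((1 / 2 : ℝ) * J)) * (2 : ℝ) ^ J)
      = (J : ℝ) / 2 * ((N : ℝ) / (K + 1) * (12 / (η * J))) +
        (J : ℝ) / 2 * ((2 : ℝ) ^ (-((1 / 2 : ℝ) * J)) * (2 : ℝ) ^ J) := by ring
    _ ≤ ε / 2 * N + ε / 2 * N := add_le_add e1 e2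
    _ = ε * N := by ring

theorem reg_sq {η ε : ℝ} (hη : 0 < η) (hε : 0 < ε) (K : ℕ) : ∃ J0 : ℕ, ∀ J : ℕ, J0 ≤ J →
    ∀ N : ℕ, 2 ^ J ≤ N → N < 2 ^ (J + 1) →
      ({n | ∃ j ∈ Ico ⌈η * J⌉₊ (J / 2), Rg N j n ∧ ∃ k, 1 ≤ k ∧ k ≤ K ∧ ∃ q, P n < q ∧
        q ^ 2 ∣ n / P n + k}.ncard : ℝ) ≤ ε * N := by
  have hε1 : 0 < ε / (2 * (K + 1)) := by positivity
  have hε2 : 0 < ε / (2 * (K + 1) ^ 2) := by positivity
  obtain ⟨J1, hJ1⟩ := decay hη 1 hε1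
  obtain ⟨J2, hJ2⟩ := decay (κ := 1) (by norm_num) 1 hε2
  refine ⟨J1 + J2 + 1, ?_⟩
  intro J hJ N hN1 hN2
  have hJpos : (0 : ℝ) < J := by
    have : 0 < J := by omega
    exact_mod_cast this
  have hdec1 := hJ1 J (by omega)
  have hdec2 := hJ2 J (by omega)
  rw [pow_one] at hdec1 hdec2
  have hNr : (2 : ℝ) ^ J ≤ N := by exact_mod_cast hN1
  have hN0 : (0 : ℝ) ≤ N := Nat.cast_nonneg _
  have hK0 : (0 : ℝ) ≤ K := Nat.cast_nonneg _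
  have hU := union_le N ⌈η * J⌉₊ (J / 2) (fun _ n => ∃ k, 1 ≤ k ∧ k ≤ K ∧ ∃ q, P n < q ∧
        q ^ 2 ∣ n / P n + k)
    (fun j => K * (N / 2 ^ j + K)) (fun j _ => sq_count N K j)
  refine hU.trans ?_
  have hbd : ∀ j ∈ Ico ⌈η * J⌉₊ (J / 2), (K : ℝ) * (N / 2 ^ j + K) ≤
      K * ((2 : ℝ) ^ (-(η * J)) * N + K) := by
    intro j hj
    rw [Finset.mem_Ico] at hj
    apply mul_le_mul_of_nonneg_left _ hK0
    apply add_le_add _ le_rfl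
    rw [div_eq_mul_inv, mul_comm]
    apply mul_le_mul_of_nonneg_right _ hN0
    rw [Real.rpow_neg (by norm_num)]
    apply inv_anti₀ (by positivity)
    rw [← Real.rpow_natCast 2 j]
    apply Real.rpow_le_rpow_of_exponent_le (by norm_num)
    exact (Nat.le_ceil _).trans (by exact_mod_cast hj.1)
  refine (Finset.sum_le_sum hbd).trans ?_
  rw [Finset.sum_const, Nat.card_Ico, nsmul_eq_mul]
  have hcard : ((J / 2 - ⌈η * J⌉₊ : ℕ) : ℝ) ≤ J := by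
    have h1 : (J / 2 - ⌈η * J⌉₊ : ℕ) ≤ J := by omega
    exact_mod_cast h1
  have hnn : 0 ≤ (K : ℝ) * ((2 : ℝ) ^ (-(η * J)) * N + K) := by positivity
  refine (mul_le_mul_of_nonneg_right hcard hnn).trans ?_
  have e1 : (J : ℝ) * (K * ((2 : ℝ) ^ (-(η * J)) * N)) ≤ ε / 2 * N := by
    calc (J : ℝ) * (K * ((2 : ℝ) ^ (-(η * J)) * N))
        = (K * (J * (2 : ℝ) ^ (-(η * J)))) * N := by ring
      _ ≤ (K * (ε / (2 * (K + 1)))) * N := by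
          apply mul_le_mul_of_nonneg_right _ hN0
          exact mul_le_mul_of_nonneg_left hdec1 hK0
      _ ≤ ε / 2 * N := by
          apply mul_le_mul_of_nonneg_right _ hN0
          rw [mul_div_assoc', div_le_div_iff₀ (by positivity) (by norm_num)]
          nlinarith
  have e2 : (J : ℝ) * (K * K) ≤ ε / 2 * N := by
    have hpow : (2 : ℝ) ^ (-((1 : ℝ) * J)) * (2 : ℝ) ^ J = 1 := by
      rw [← Real.rpow_natCast 2 J, ← Real.rpow_add (by norm_num)]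
      simp
    have hJ2' : (J : ℝ) ≤ ε / (2 * (K + 1) ^ 2) * N := by
      calc (J : ℝ) = (J * (2 : ℝ) ^ (-((1 : ℝ) * J))) * (2 : ℝ) ^ J := by
            rw [mul_assoc, hpow, mul_one]
        _ ≤ ε / (2 * (K + 1) ^ 2) * N := mul_le_mul hdec2 hNr (by positivity) (by positivity)
    calc (J : ℝ) * (K * K) ≤ (ε / (2 * (K + 1) ^ 2) * N) * (K * K) :=
          mul_le_mul_of_nonneg_right hJ2' (by positivity)
      _ = (ε / (2 * (K + 1) ^ 2) * (K * K)) * N := by ring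
      _ ≤ ε / 2 * N := by
          apply mul_le_mul_of_nonneg_right _ hN0
          rw [div_mul_eq_mul_div, div_le_div_iff₀ (by positivity) (by norm_num)]
          have : (K : ℝ) * K ≤ (K + 1) ^ 2 := by nlinarith
          nlinarith
  calc (J : ℝ) * (K * ((2 : ℝ) ^ (-(η * J)) * N + K))
      = (J : ℝ) * (K * ((2 : ℝ) ^ (-(η * J)) * N)) + (J : ℝ) * (K * K) := by ring
    _ ≤ ε / 2 * N + ε / 2 * N := add_le_add e1 e2
    _ = ε * N := by ring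

end Pool.Agent.TNX
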