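import Pool.Agent.TNX.Fib

/-!
# TNX/PrC: prime factors of `n / P n + k` close to `P n` are rare (difficulty 3)

* `far_count`: `fib` with `Q p m := ∃ k, 1 ≤ k ∧ k ≤ K ∧ ∃ q, q.Prime ∧ p < q ∧ q ≤ 2 ^ h * p ∧ q ∣ m + k`,
  `B p = K * (N / p + K) * (12 * 2 ^ h / (j + 1))`.  For given `k`, `q` at most `(N / p + k) / q` values of `m` (`mult_count`);
  `q ≤ 2 ^ (h + j + 1)`: at most `6 * 2 ^ (h + j + 1) / (h + j + 1)` primes `q` (`TN.card_primesLE_two_pow`), each `1 / q ≤ 1 / 2 ^ j`.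
  Sum with `inv_block`, `card_block`.
* `near_count`: `Q p m := ∃ k, k ≤ K ∧ ∃ r, r.Prime ∧ 2 ^ (j - d) < r ∧ r ≤ 2 ^ (j + 1) ∧ r ∣ m + k`,
  `B p = (K + 1) * (N / p + K) * (24 * (d + 1) / (j + 1))`:
  `∑ r ∈ Pr (j - d) (j + 1), 1 / r ≤ ∑ i ∈ Ico (j - d) (j + 1), 12 / (i + 1) ≤ 12 (d + 1) / (j - d + 1) ≤ 24 (d + 1) / (j + 1)` (`inv_range`).
-/

namespace Pool.Agent.TNX

open Pool.Agent.TN Finset

private lemma prc_union {ι : Type*} (I : Finset ι) (S : ι → Set ℕ) (T : Set ℕ)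
    (hT : T ⊆ ⋃ i ∈ I, S i) (hfin : ∀ i ∈ I, (S i).Finite) (f : ι → ℝ)
    (hf : ∀ i ∈ I, ((S i).ncard : ℝ) ≤ f i) : (T.ncard : ℝ) ≤ ∑ i ∈ I, f i := by
  have hF : (⋃ i ∈ I, S i).Finite := Set.Finite.biUnion (Finset.finite_toSet I) hfin
  have h1 : T.ncard ≤ ∑ i ∈ I, (S i).ncard :=
    (Set.ncard_le_ncard hT hF).trans (Finset.set_ncard_biUnion_le I S)
  calc (T.ncard : ℝ) ≤ ((∑ i ∈ I, (S i).ncard : ℕ) : ℝ) := by exact_mod_cast h1
    _ = ∑ i ∈ I, ((S i).ncard : ℝ) := by push_cast; rfl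
    _ ≤ _ := Finset.sum_le_sum hf

/-- The common count: `k` in a finite set `A` of integers `≤ K`, `r` in a finite set `R`. -/
private lemma prc_one (N K p : ℕ) (hp : 0 < p) (A R : Finset ℕ) (hA : ∀ k ∈ A, k ≤ K)
    (hR : ∀ r ∈ R, 0 < r) (T : Set ℕ)
    (hT : ∀ m ∈ T, 1 ≤ m ∧ m ≤ N / p ∧ ∃ k ∈ A, ∃ r ∈ R, r ∣ m + k) (s : ℝ)
    (hs : ∑ r ∈ R, (1 : ℝ) / r ≤ s) :
    (T.ncard : ℝ) ≤ A.card * s * (N * (1 / p) + K) := by
  have hp0 : (0 : ℝ) < p := by exact_mod_cast hp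
  have h1 := prc_union (A ×ˢ R)
    (fun x : ℕ × ℕ => {m | 1 ≤ m ∧ m ≤ N / p ∧ x.2 ∣ m + x.1}) T
    (by
      intro m hm
      obtain ⟨hm1, hm2, k, hk, r, hr, hrd⟩ := hT m hm
      exact Set.mem_biUnion (show (k, r) ∈ A ×ˢ R from Finset.mem_product.mpr ⟨hk, hr⟩)
        ⟨hm1, hm2, hrd⟩)
    (by
      intro x _
      exact (Set.finite_Iic (N / p)).subset (fun m hm => hm.2.1))
    (fun x => ((N : ℝ) * (1 / p) + K) * (1 / (x.2 : ℝ)))
    (by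
      rintro ⟨k, r⟩ hx
      rw [Finset.mem_product] at hx
      obtain ⟨hk, hr⟩ := hx
      simp only at hk hr ⊢
      refine (mult_count (N / p) k r (hR r hr)).trans ?_
      rw [div_eq_mul_one_div]
      apply mul_le_mul_of_nonneg_right _ (by positivity)
      have h5 : ((N / p : ℕ) : ℝ) ≤ (N : ℝ) / p := Nat.cast_div_le
      have h7 : (k : ℝ) ≤ K := by exact_mod_cast hA k hk
      rw [mul_one_div]
      linarith)
  refine h1.trans ?_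
  rw [Finset.sum_product]
  simp only
  rw [Finset.sum_const, nsmul_eq_mul, ← Finset.mul_sum, mul_assoc]
  apply mul_le_mul_of_nonneg_left _ (Nat.cast_nonneg _)
  rw [mul_comm]
  exact mul_le_mul_of_nonneg_right hs (by positivity)

/-- Summation over the primes of the block. -/
private lemma prc_sum (N K j : ℕ) (c : ℝ) (hc : 0 ≤ c) :
    ∑ p ∈ Pr j (j + 1), c * (N * (1 / (p : ℝ)) + K) ≤ c * (N * (12 / (j + 1)) + K * 2 ^ j) := by
  rw [← Finset.mul_sum, Finset.sum_add_distrib, ← Finset.mul_sum, Finset.sum_const, nsmul_eq_mul]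
  apply mul_le_mul_of_nonneg_left _ hc
  apply add_le_add
  · exact mul_le_mul_of_nonneg_left (inv_block j) (Nat.cast_nonneg N)
  · rw [mul_comm]
    exact mul_le_mul_of_nonneg_left (card_block j) (Nat.cast_nonneg K)

private lemma prc_inv (h j : ℕ) : ∑ q ∈ Pr j (h + j + 1), (1 : ℝ) / q ≤ 12 * 2 ^ h / (j + 1) := by
  have hsub : Pr j (h + j + 1) ⊆ Nat.primesLE (2 ^ (h + j + 1)) := by
    intro q hq
    have h1 := mem_Pr.mp hq
    exact Nat.mem_primesLE.mpr ⟨h1.1.2, h1.2⟩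
  have hc : ((Pr j (h + j + 1)).card : ℝ) ≤ 6 * 2 ^ (h + j + 1) / ((h + j + 1 : ℕ) : ℝ) :=
    le_trans (by exact_mod_cast Finset.card_le_card hsub)
      (card_primesLE_two_pow (h + j + 1) (by omega))
  have h2j : (0 : ℝ) < 2 ^ j := by positivity
  calc ∑ q ∈ Pr j (h + j + 1), (1 : ℝ) / q ≤ ∑ q ∈ Pr j (h + j + 1), (1 : ℝ) / 2 ^ j := by
        apply Finset.sum_le_sum
        intro q hq
        have h1 := mem_Pr.mp hq
        have h2 : ((2 : ℝ) ^ j) ≤ q := by exact_mod_cast h1.1.1.le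
        exact div_le_div_of_nonneg_left (by norm_num) h2j h2
    _ = ((Pr j (h + j + 1)).card : ℝ) * (1 / 2 ^ j) := by rw [Finset.sum_const, nsmul_eq_mul]
    _ ≤ 6 * 2 ^ (h + j + 1) / ((h + j + 1 : ℕ) : ℝ) * (1 / 2 ^ j) :=
        mul_le_mul_of_nonneg_right hc (by positivity)
    _ = 12 * 2 ^ h / ((h + j + 1 : ℕ) : ℝ) := by
        rw [pow_add, pow_add]
        field_simp
        ring
    _ ≤ 12 * 2 ^ h / (j + 1) := by
        apply div_le_div_of_nonneg_left (by positivity) (by positivity)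
        push_cast
        have : (0 : ℝ) ≤ h := Nat.cast_nonneg h
        linarith

theorem far_count (N K h j : ℕ) :
    ({n | Rg N j n ∧ ∃ k, 1 ≤ k ∧ k ≤ K ∧ ∃ q, q.Prime ∧ P n < q ∧ q ≤ 2 ^ h * P n ∧
      q ∣ n / P n + k}.ncard : ℝ) ≤
      K * (12 * 2 ^ h / (j + 1)) * (N * (12 / (j + 1)) + K * 2 ^ j) := by
  have hc : (0 : ℝ) ≤ K * (12 * 2 ^ h / (j + 1)) := by positivity
  have h1 := fib N j
    (fun p m => ∃ k, 1 ≤ k ∧ k ≤ K ∧ ∃ q, q.Prime ∧ p < q ∧ q ≤ 2 ^ h * p ∧ q ∣ m + k)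
    (fun p => (K : ℝ) * (12 * 2 ^ h / (j + 1)) * (N * (1 / p) + K))
    (fun p hp => by
      obtain ⟨⟨hp1, hp2⟩, hpp⟩ := mem_Pr.mp hp
      have h2 := prc_one N K p hpp.pos (Icc 1 K) (Pr j (h + j + 1))
        (fun k hk => (Finset.mem_Icc.mp hk).2) (fun r hr => (mem_Pr.mp hr).2.pos)
        {m | 1 ≤ m ∧ m ≤ N / p ∧ P m ≤ p ∧ ∃ k, 1 ≤ k ∧ k ≤ K ∧ ∃ q, q.Prime ∧ p < q ∧
          q ≤ 2 ^ h * p ∧ q ∣ m + k}
        (by
          rintro m ⟨hm1, hm2, _, k, hk1, hk2, q, hq, hq1, hq2, hq3⟩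
          refine ⟨hm1, hm2, k, Finset.mem_Icc.mpr ⟨hk1, hk2⟩, q, ?_, hq3⟩
          rw [mem_Pr]
          refine ⟨⟨by omega, hq2.trans ?_⟩, hq⟩
          rw [show h + j + 1 = h + (j + 1) by ring, pow_add 2 h (j + 1)]
          exact Nat.mul_le_mul_left _ hp2)
        (12 * 2 ^ h / (j + 1)) (prc_inv h j)
      rw [Nat.card_Icc, Nat.add_sub_cancel] at h2
      exact h2)
  exact h1.trans (prc_sum N K j _ hc)

private lemma prc_inv2 (d j : ℕ) (hd : 2 * d ≤ j) :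
    ∑ q ∈ Pr (j - d) (j + 1), (1 : ℝ) / q ≤ 24 * (d + 1) / (j + 1) := by
  refine (inv_range (j - d) (j + 1) (by omega)).trans ?_
  have hj : (0 : ℝ) < (j : ℝ) + 1 := by positivity
  calc ∑ i ∈ Ico (j - d) (j + 1), (12 : ℝ) / (i + 1) ≤
      ∑ i ∈ Ico (j - d) (j + 1), (24 : ℝ) / (j + 1) := by
        apply Finset.sum_le_sum
        intro i hi
        have h1 := (Finset.mem_Ico.mp hi).1
        have h2 : (j : ℝ) + 1 ≤ 2 * (i + 1) := by
          have : j + 1 ≤ 2 * (i + 1) := by omega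
          exact_mod_cast this
        rw [div_le_div_iff₀ (by positivity) hj]
        linarith
    _ = (d + 1) * (24 / (j + 1)) := by
        rw [Finset.sum_const, nsmul_eq_mul, Nat.card_Ico,
          show j + 1 - (j - d) = d + 1 by omega]
        push_cast
        ring
    _ = _ := by ring

theorem near_count (N K d j : ℕ) (hd : 2 * d ≤ j) :
    ({n | Rg N j n ∧ ∃ k, k ≤ K ∧ ∃ r, r.Prime ∧ 2 ^ (j - d) < r ∧ r ≤ 2 ^ (j + 1) ∧
      r ∣ n / P n + k}.ncard : ℝ) ≤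
      (K + 1) * (24 * (d + 1) / (j + 1)) * (N * (12 / (j + 1)) + K * 2 ^ j) := by
  have hc : (0 : ℝ) ≤ (K + 1) * (24 * (d + 1) / (j + 1)) := by positivity
  have h1 := fib N j
    (fun p m => ∃ k, k ≤ K ∧ ∃ r, r.Prime ∧ 2 ^ (j - d) < r ∧ r ≤ 2 ^ (j + 1) ∧ r ∣ m + k)
    (fun p => ((K : ℝ) + 1) * (24 * (d + 1) / (j + 1)) * (N * (1 / p) + K))
    (fun p hp => by
      obtain ⟨⟨hp1, hp2⟩, hpp⟩ := mem_Pr.mp hp
      have h2 := prc_one N K p hpp.pos (range (K + 1)) (Pr (j - d) (j + 1))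
        (fun k hk => by have := Finset.mem_range.mp hk; omega)
        (fun r hr => (mem_Pr.mp hr).2.pos)
        {m | 1 ≤ m ∧ m ≤ N / p ∧ P m ≤ p ∧ ∃ k, k ≤ K ∧ ∃ r, r.Prime ∧ 2 ^ (j - d) < r ∧
          r ≤ 2 ^ (j + 1) ∧ r ∣ m + k}
        (by
          rintro m ⟨hm1, hm2, _, k, hk2, q, hq, hq1, hq2, hq3⟩
          exact ⟨hm1, hm2, k, Finset.mem_range.mpr (by omega), q, mem_Pr.mpr ⟨⟨hq1, hq2⟩, hq⟩, hq3⟩)
        (24 * (d + 1) / (j + 1)) (prc_inv2 d j hd)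
      rw [Finset.card_range] at h2
      push_cast at h2
      exact h2)
  exact h1.trans (prc_sum N K j _ hc)

end Pool.Agent.TNX
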