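import Pool.Agent.TNX.Un
import Pool.Agent.TNX.PrC

/-!
# TNX/R3: prime factors of `n / P n + k` close to `P n`, summed over the ranges (difficulty 3)

In all sums `j ≥ η J`, so `1 / (j + 1) ≤ 1 / (η J)`, at most `J / 2` values of `j`, `2 ^ j ≤ 2 ^ (J / 2)`, `N ≥ 2 ^ J`.
* `reg_near`: `δ = min (η / 2) (ε η ^ 2 / (576 (K + 1)))`; `2 d ≤ η J ≤ j`; `union_le`, `near_count`:
  `≤ (J / 2) (K + 1) (24 (d + 1) / (η J)) (12 N / (η J) + K 2 ^ (J / 2))`; `(d + 1) / J ≤ 2 δ` for `J ≥ 1 / δ`: the part with `N` is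
  `≤ 144 (K + 1) 2 δ N / η ^ 2 ≤ (ε / 2) N`, the rest `≤ C J 2 ^ (J / 2)` (`decay` with `κ = 1 / 2`).
* `reg_far`: `far_count`: `≤ (J / 2) K (12 * 2 ^ h / (η J)) (12 N / (η J) + K 2 ^ (J / 2))`.
-/

namespace Pool.Agent.TNX

open Pool.Agent.TN Finset

theorem r3_pow {J N : ℕ} (hN : 2 ^ J ≤ N) :
    (2 : ℝ) ^ (J / 2) ≤ N * (2 : ℝ) ^ (-(1 / 2 * (J : ℝ))) := by
  have h1 : (2 : ℝ) ^ (J / 2) ≤ (2 : ℝ) ^ ((J : ℝ) + -(1 / 2 * (J : ℝ))) := by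
    rw [← Real.rpow_natCast]
    apply Real.rpow_le_rpow_of_exponent_le (by norm_num)
    have h2 : ((J / 2 : ℕ) : ℝ) ≤ (J : ℝ) / 2 := Nat.cast_div_le
    linarith
  rw [Real.rpow_add (by norm_num), Real.rpow_natCast] at h1
  have h3 : (2 : ℝ) ^ J ≤ N := by exact_mod_cast hN
  have h4 : (0 : ℝ) < (2 : ℝ) ^ (-(1 / 2 * (J : ℝ))) := Real.rpow_pos_of_pos (by norm_num) _
  exact h1.trans (mul_le_mul_of_nonneg_right h3 h4.le)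

theorem r3_sum {η : ℝ} (hη : 0 < η) {J : ℕ} (hJ : 1 ≤ J) (N K : ℕ) {c : ℝ} (hc : 0 ≤ c) :
    ∑ j ∈ Ico ⌈η * J⌉₊ (J / 2), c / ((j : ℝ) + 1) * (N * (12 / ((j : ℝ) + 1)) + K * 2 ^ j) ≤
      c / (2 * η) * (12 * N / (η * J) + K * 2 ^ (J / 2)) := by
  have hJ0 : (0 : ℝ) < J := by exact_mod_cast hJ
  have hηJ : 0 < η * J := mul_pos hη hJ0
  have h1 : ∀ j ∈ Ico ⌈η * J⌉₊ (J / 2),
      c / ((j : ℝ) + 1) * (N * (12 / ((j : ℝ) + 1)) + K * 2 ^ j) ≤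
        c / (η * J) * (12 * N / (η * J) + K * 2 ^ (J / 2)) := by
    intro j hj
    rw [Finset.mem_Ico] at hj
    have h2 : η * J ≤ (j : ℝ) + 1 := by
      have h3 := Nat.le_ceil (η * J)
      have h4 : ((⌈η * J⌉₊ : ℕ) : ℝ) ≤ j := by exact_mod_cast hj.1
      linarith
    have h5 : (2 : ℝ) ^ j ≤ 2 ^ (J / 2) := pow_le_pow_right₀ (by norm_num) hj.2.le
    have h6 : c / ((j : ℝ) + 1) ≤ c / (η * J) := div_le_div_of_nonneg_left hc hηJ h2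
    have h7 : (N : ℝ) * (12 / ((j : ℝ) + 1)) ≤ 12 * N / (η * J) := by
      have h8 : (12 : ℝ) / ((j : ℝ) + 1) ≤ 12 / (η * J) := div_le_div_of_nonneg_left (by norm_num) hηJ h2
      calc (N : ℝ) * (12 / ((j : ℝ) + 1)) ≤ N * (12 / (η * J)) := by gcongr
        _ = 12 * N / (η * J) := by ring
    have h9 : (K : ℝ) * 2 ^ j ≤ K * 2 ^ (J / 2) := by gcongr
    apply mul_le_mul h6 (add_le_add h7 h9) (by positivity) (by positivity)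
  have h2 := Finset.sum_le_sum h1
  refine h2.trans ?_
  rw [Finset.sum_const, Nat.card_Ico, nsmul_eq_mul]
  have h3 : ((J / 2 - ⌈η * J⌉₊ : ℕ) : ℝ) ≤ (J : ℝ) / 2 := by
    have h4 : ((J / 2 - ⌈η * J⌉₊ : ℕ) : ℝ) ≤ ((J / 2 : ℕ) : ℝ) := by exact_mod_cast Nat.sub_le _ _
    exact h4.trans Nat.cast_div_le
  have h5 : 0 ≤ c / (η * J) * (12 * N / (η * J) + K * 2 ^ (J / 2)) := by positivity
  calc ((J / 2 - ⌈η * J⌉₊ : ℕ) : ℝ) * (c / (η * J) * (12 * N / (η * J) + K * 2 ^ (J / 2)))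
      ≤ (J : ℝ) / 2 * (c / (η * J) * (12 * N / (η * J) + K * 2 ^ (J / 2))) := by gcongr
    _ = c / (2 * η) * (12 * N / (η * J) + K * 2 ^ (J / 2)) := by
      field_simp

theorem reg_near {η ε : ℝ} (hη : 0 < η) (hε : 0 < ε) (K : ℕ) : ∃ δ : ℝ, 0 < δ ∧ ∃ J0 : ℕ,
    ∀ J : ℕ, J0 ≤ J → ∀ N : ℕ, 2 ^ J ≤ N → N < 2 ^ (J + 1) → ∀ d : ℕ, (d : ℝ) ≤ δ * J →
      ({n | ∃ j ∈ Ico ⌈η * J⌉₊ (J / 2), Rg N j n ∧ ∃ k, k ≤ K ∧ ∃ r, r.Prime ∧ 2 ^ (j - d) < r ∧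
        r ≤ 2 ^ (j + 1) ∧ r ∣ n / P n + k}.ncard : ℝ) ≤ ε * N := by
  obtain ⟨δ, hδ⟩ : ∃ δ : ℝ, δ = min (η / 2) (ε * η ^ 2 / (576 * (K + 1))) := ⟨_, rfl⟩
  have hδ0 : 0 < δ := by
    rw [hδ]
    apply lt_min (by positivity) (by positivity)
  have hδ1 : δ ≤ η / 2 := by rw [hδ]; exact min_le_left _ _
  have hδ2 : δ ≤ ε * η ^ 2 / (576 * (K + 1)) := by rw [hδ]; exact min_le_right _ _
  have hδ2' : 576 * (K + 1) * δ ≤ ε * η ^ 2 := by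
    rw [le_div_iff₀ (by positivity)] at hδ2
    linarith
  obtain ⟨C, hC⟩ : ∃ C : ℝ, C = (K + 1) * 24 * (2 * δ) / (2 * η) * K + 1 := ⟨_, rfl⟩
  have hC0 : 0 < C := by rw [hC]; positivity
  obtain ⟨J1, hJ1⟩ := decay (κ := 1 / 2) (by norm_num) 1 (ε := ε / 2 / C) (by positivity)
  refine ⟨δ, hδ0, max J1 (max 1 ⌈1 / δ⌉₊), ?_⟩
  intro J hJ N hN1 hN2 d hd
  have hJ' : J1 ≤ J := (le_max_left _ _).trans hJ
  have hJ1' : 1 ≤ J := (le_max_left 1 ⌈1 / δ⌉₊).trans ((le_max_right _ _).trans hJ)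
  have hJ2' : 1 / δ ≤ J := by
    have h1 : ⌈1 / δ⌉₊ ≤ J := (le_max_right 1 ⌈1 / δ⌉₊).trans ((le_max_right _ _).trans hJ)
    exact (Nat.le_ceil _).trans (by exact_mod_cast h1)
  have hJ0 : (0 : ℝ) < J := by exact_mod_cast hJ1'
  have hd1 : (d : ℝ) + 1 ≤ 2 * δ * J := by
    rw [div_le_iff₀ hδ0] at hJ2'
    linarith
  have hb := union_le N ⌈η * J⌉₊ (J / 2) (fun j n => ∃ k, k ≤ K ∧ ∃ r, r.Prime ∧ 2 ^ (j - d) < r ∧
        r ≤ 2 ^ (j + 1) ∧ r ∣ n / P n + k)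
      (fun j => (K + 1) * (24 * (d + 1) / (j + 1)) * (N * (12 / (j + 1)) + K * 2 ^ j)) (by
    intro j hj
    rw [Finset.mem_Ico] at hj
    apply near_count
    have h3 := Nat.le_ceil (η * J)
    have h4 : ((⌈η * J⌉₊ : ℕ) : ℝ) ≤ j := by exact_mod_cast hj.1
    have h5 : (2 : ℝ) * d ≤ j := by nlinarith
    exact_mod_cast h5)
  refine hb.trans ?_
  have hs := r3_sum hη hJ1' N K (c := (K + 1) * 24 * (d + 1)) (by positivity)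
  have he : ∑ j ∈ Ico ⌈η * J⌉₊ (J / 2),
      ((K : ℝ) + 1) * (24 * (d + 1) / (j + 1)) * (N * (12 / (j + 1)) + K * 2 ^ j) =
      ∑ j ∈ Ico ⌈η * J⌉₊ (J / 2),
        ((K : ℝ) + 1) * 24 * (d + 1) / (j + 1) * (N * (12 / (j + 1)) + K * 2 ^ j) := by
    apply Finset.sum_congr rfl
    intro j _
    ring
  rw [he]
  refine hs.trans ?_
  have h6 : ((K : ℝ) + 1) * 24 * (d + 1) / (2 * η) ≤ (K + 1) * 24 * (2 * δ * J) / (2 * η) := by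
    gcongr
  have h7 : 0 ≤ 12 * (N : ℝ) / (η * J) + K * 2 ^ (J / 2) := by positivity
  refine (mul_le_mul_of_nonneg_right h6 h7).trans ?_
  have h8 : ((K : ℝ) + 1) * 24 * (2 * δ * J) / (2 * η) * (12 * N / (η * J) + K * 2 ^ (J / 2)) =
      576 * (K + 1) * δ / (2 * η ^ 2) * N +
        ((K + 1) * 24 * (2 * δ) / (2 * η) * K) * (J * 2 ^ (J / 2)) := by
    field_simp
    ring
  rw [h8]
  have h9 : 576 * ((K : ℝ) + 1) * δ / (2 * η ^ 2) ≤ ε / 2 := by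
    rw [div_le_iff₀ (by positivity)]
    nlinarith
  have h10 : ((K : ℝ) + 1) * 24 * (2 * δ) / (2 * η) * K ≤ C := by rw [hC]; linarith
  have h11 : (J : ℝ) * 2 ^ (J / 2) ≤ ε / 2 / C * N := by
    have h12 := hJ1 J hJ'
    rw [pow_one] at h12
    have h13 := r3_pow hN1
    calc (J : ℝ) * 2 ^ (J / 2) ≤ J * (N * (2 : ℝ) ^ (-(1 / 2 * (J : ℝ)))) := by gcongr
      _ = J * (2 : ℝ) ^ (-(1 / 2 * (J : ℝ))) * N := by ring
      _ ≤ ε / 2 / C * N := by gcongr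
  calc 576 * ((K : ℝ) + 1) * δ / (2 * η ^ 2) * N +
        ((K + 1) * 24 * (2 * δ) / (2 * η) * K) * (J * 2 ^ (J / 2))
      ≤ ε / 2 * N + C * (ε / 2 / C * N) := by gcongr
    _ = ε * N := by field_simp; ring

theorem reg_far {η ε : ℝ} (hη : 0 < η) (hε : 0 < ε) (K h : ℕ) : ∃ J0 : ℕ,
    ∀ J : ℕ, J0 ≤ J → ∀ N : ℕ, 2 ^ J ≤ N → N < 2 ^ (J + 1) →
      ({n | ∃ j ∈ Ico ⌈η * J⌉₊ (J / 2), Rg N j n ∧ ∃ k, 1 ≤ k ∧ k ≤ K ∧ ∃ q, q.Prime ∧ P n < q ∧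
        q ≤ 2 ^ h * P n ∧ q ∣ n / P n + k}.ncard : ℝ) ≤ ε * N := by
  obtain ⟨c, hc⟩ : ∃ c : ℝ, c = K * (12 * 2 ^ h) / (2 * η) := ⟨_, rfl⟩
  have hc0 : 0 ≤ c := by rw [hc]; positivity
  obtain ⟨J1, hJ1⟩ := decay (κ := 1 / 2) (by norm_num) 0 (ε := ε / 2 / (c * K + 1)) (by positivity)
  refine ⟨max J1 (max 1 ⌈24 * c / (η * ε)⌉₊), ?_⟩
  intro J hJ N hN1 hN2
  have hJ' : J1 ≤ J := (le_max_left _ _).trans hJ
  have hJ1' : 1 ≤ J := (le_max_left 1 _).trans ((le_max_right _ _).trans hJ)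
  have hJ2' : 24 * c / (η * ε) ≤ J := by
    have h1 : ⌈24 * c / (η * ε)⌉₊ ≤ J := (le_max_right 1 _).trans ((le_max_right _ _).trans hJ)
    exact (Nat.le_ceil _).trans (by exact_mod_cast h1)
  have hJ0 : (0 : ℝ) < J := by exact_mod_cast hJ1'
  have hb := union_le N ⌈η * J⌉₊ (J / 2) (fun j n => ∃ k, 1 ≤ k ∧ k ≤ K ∧ ∃ q, q.Prime ∧ P n < q ∧
        q ≤ 2 ^ h * P n ∧ q ∣ n / P n + k)
      (fun j => K * (12 * 2 ^ h / (j + 1)) * (N * (12 / (j + 1)) + K * 2 ^ j)) (by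
    intro j hj
    apply far_count)
  refine hb.trans ?_
  have hs := r3_sum hη hJ1' N K (c := K * (12 * 2 ^ h)) (by positivity)
  have he : ∑ j ∈ Ico ⌈η * J⌉₊ (J / 2),
      (K : ℝ) * (12 * 2 ^ h / (j + 1)) * (N * (12 / (j + 1)) + K * 2 ^ j) =
      ∑ j ∈ Ico ⌈η * J⌉₊ (J / 2),
        (K : ℝ) * (12 * 2 ^ h) / (j + 1) * (N * (12 / (j + 1)) + K * 2 ^ j) := by
    apply Finset.sum_congr rfl
    intro j _
    ring
  rw [he]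
  refine hs.trans ?_
  rw [← hc]
  have h1 : c * (12 * N / (η * J)) ≤ ε / 2 * N := by
    rw [div_le_iff₀ (by positivity)] at hJ2'
    have h2 : c * (12 * N / (η * J)) = 12 * c / (η * J) * N := by ring
    rw [h2]
    have h3 : 12 * c / (η * J) ≤ ε / 2 := by
      rw [div_le_iff₀ (by positivity)]
      nlinarith
    gcongr
  have h4 : (2 : ℝ) ^ (J / 2) ≤ ε / 2 / (c * K + 1) * N := by
    have h12 := hJ1 J hJ'
    rw [pow_zero, one_mul] at h12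
    have h13 := r3_pow hN1
    calc (2 : ℝ) ^ (J / 2) ≤ N * (2 : ℝ) ^ (-(1 / 2 * (J : ℝ))) := h13
      _ ≤ N * (ε / 2 / (c * K + 1)) := by gcongr
      _ = ε / 2 / (c * K + 1) * N := by ring
  have h5 : c * (K * 2 ^ (J / 2)) ≤ ε / 2 * N := by
    calc c * (K * 2 ^ (J / 2)) = (c * K) * 2 ^ (J / 2) := by ring
      _ ≤ (c * K + 1) * (ε / 2 / (c * K + 1) * N) := by
        apply mul_le_mul (by linarith) h4 (by positivity) (by positivity)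
      _ = ε / 2 * N := by field_simp
  rw [mul_add]
  linarith

end Pool.Agent.TNX
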