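import Pool.Agent.TNX.SM
import Pool.Agent.TNX.GC

/-!
# TNX/SF: smooth numbers in short intervals, uniform version (difficulty 4)

`gap_block`: we may assume `δ ≤ 1`.  Let `j = ⌈8 / δ⌉₊ + 2`, `q = j + 1`, `δ1`, `C1`, `D0` from `gap_count j`.  For `l = 0, 1` let
`D = exp ((i log 2 + 1 / 4 + l / 2) / q)`; every `x ∈ [2 ^ i, 2 ^ (i + 1))` satisfies `|log x - q log D| ≤ 1 / 4` for `l = 0` or `l = 1` (`log 2 ≤ 1`).
For `J` large: `D ≥ exp (J log 2 / (4 q)) ≥ max D0 8` (`4 i ≥ J`), and `D ^ 2 ≤ exp (2 (i + 2) log 2 / q) ≤ 2 ^ (2 (J + 4) / q) ≤ 2 ^ (δ J) ≤ 2 ^ d`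
(`q ≥ 8 / δ`, `J ≥ 4`), `8 D ≤ D ^ 2 ≤ 2 ^ d`.  So if `x ∈ GR d`, then no `a ∈ (x, x + D ^ 2]` has `P a ≤ 8 D`
(`a ≤ x + D ^ 2 ≤ x + 2 ^ d`, `2 ^ d < P a`).  The count is at most `∑_l C1 D ^ (q - δ1) ≤ 2 C1 exp ((i log 2 + 3 / 4) (1 - δ1 / q))`
`≤ 2 C1 e * 2 ^ i * 2 ^ (-(i δ1 / q))` (if `δ1 ≤ q`; otherwise replace `δ1` by `min δ1 1`, as `D ≥ 1`) `≤ C * 2 ^ i * 2 ^ (-(κ J))` with
`κ = δ1 / (4 q)`.
`smooth_gap`: let `κ1`, `C` from `gap_block`, `κ = min (κ1 / 2) (1 / 8)`.  The `x ≤ X`, `x ∈ GR d`, are `< 2 ^ (J / 4 + 1)`, or in `[2 ^ i, 2 ^ (i + 1))` with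
`J / 4 + 1 ≤ i ≤ Nat.log 2 X ≤ J + 2`.  Sum: `2 ^ (J / 4 + 1) + ∑_i C 2 ^ i 2 ^ (-(κ1 J)) ≤ 2 ^ (J / 4 + 1) + 2 C X 2 ^ (-(κ1 J))`, and
`2 ^ (J / 4 + 1) ≤ X 2 ^ (-(J / 8)) / 2`, `2 C ≤ 2 ^ (κ1 J / 2) / 2` for `J` large.
-/

namespace Pool.Agent.TNX

open Pool.Agent.TN Pool.Agent.MR Pool.Agent.BernOne Finset

/-- the set of `gap_count` -/
private def SF_A (q D : ℝ) : Set ℕ := {x : ℕ | 1 ≤ x ∧ |Real.log x - q * Real.log D| ≤ 1 / 4 ∧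
      ∀ a : ℕ, x < a → (a : ℝ) ≤ x + D ^ 2 → 8 * D < P a}

private theorem SF_A_finite (q D : ℝ) : (SF_A q D).Finite := by
  refine (Set.finite_Iic ⌊Real.exp (q * Real.log D + 1 / 4)⌋₊).subset fun x hx => ?_
  obtain ⟨h1, h2, -⟩ := hx
  rw [abs_le] at h2
  have hx0 : (0 : ℝ) < x := by exact_mod_cast h1
  refine Nat.le_floor ?_
  rw [← Real.exp_log hx0]
  exact Real.exp_le_exp.2 (by linarith [h2.2])

/-- the exponential form of powers of two -/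
private theorem SF_two (y : ℝ) : (2 : ℝ) ^ y = Real.exp (y * Real.log 2) := by
  rw [Real.rpow_def_of_pos (by norm_num), mul_comm]

theorem gap_block {δ : ℝ} (hδ : 0 < δ) : ∃ κ C : ℝ, 0 < κ ∧ 0 < C ∧ ∃ J0 : ℕ, ∀ J : ℕ, J0 ≤ J →
    ∀ d : ℕ, δ * J ≤ d → ∀ i : ℕ, J ≤ 4 * i → i ≤ J + 2 →
      ({x | 2 ^ i ≤ x ∧ x < 2 ^ (i + 1) ∧ x ∈ GR d}.ncard : ℝ) ≤
        C * 2 ^ i * (2 : ℝ) ^ (-(κ * J)) := by
  obtain ⟨j, hjd⟩ : ∃ j : ℕ, j = ⌈8 / δ⌉₊ + 2 := ⟨_, rfl⟩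
  obtain ⟨δ1, C1, D0, hδ1, hC1, hD0, hmain⟩ := gap_count j (by omega)
  obtain ⟨q, hqd⟩ : ∃ q : ℝ, q = (j : ℝ) + 1 := ⟨_, rfl⟩
  have hq8 : 8 / δ ≤ q := by
    have h1 : 8 / δ ≤ (⌈8 / δ⌉₊ : ℝ) := Nat.le_ceil _
    have h2 : (j : ℝ) = (⌈8 / δ⌉₊ : ℝ) + 2 := by rw [hjd]; push_cast; ring
    rw [hqd, h2]
    linarith
  have hq1 : 1 ≤ q := by
    have : (0 : ℝ) ≤ j := Nat.cast_nonneg j
    rw [hqd]
    linarith
  have hq0 : 0 < q := by linarith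
  have hl2 : 0 < Real.log 2 := Real.log_pos (by norm_num)
  have hl2' : Real.log 2 ≤ 1 := by linarith [Real.log_two_lt_d9]
  have hl2'' : 1 / 2 ≤ Real.log 2 := by linarith [Real.log_two_gt_d9]
  obtain ⟨δ2, hδ2d⟩ : ∃ δ2 : ℝ, δ2 = min δ1 1 := ⟨_, rfl⟩
  have hδ2 : 0 < δ2 := by rw [hδ2d]; exact lt_min hδ1 one_pos
  have hδ2a : δ2 ≤ δ1 := by rw [hδ2d]; exact min_le_left _ _
  have hδ2b : δ2 ≤ 1 := by rw [hδ2d]; exact min_le_right _ _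
  -- the lower bound for `J`
  obtain ⟨J0, hJ0⟩ : ∃ J0 : ℕ, 4 * q / Real.log 2 * Real.log (max D0 8) ≤ J0 := exists_nat_ge _
  refine ⟨δ2 / (4 * q), 2 * (C1 * Real.exp 1), by positivity, by positivity, max J0 4, ?_⟩
  intro J hJ d hd i hi1 hi2
  have hJJ0 : (J0 : ℝ) ≤ J := by exact_mod_cast (le_max_left _ _).trans hJ
  have hJ4 : (4 : ℝ) ≤ J := by exact_mod_cast (le_max_right _ _).trans hJ
  have hi1' : (J : ℝ) ≤ 4 * i := by exact_mod_cast hi1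
  have hi2' : (i : ℝ) ≤ J + 2 := by exact_mod_cast hi2
  have hi0 : (0 : ℝ) ≤ i := Nat.cast_nonneg i
  have hm : 0 < max D0 8 := lt_of_lt_of_le (by norm_num) (le_max_right D0 8)
  -- the scale
  have key : ∀ s : ℝ, 1 / 4 ≤ s → s ≤ 3 / 4 →
      ({x | 2 ^ i ≤ x ∧ x < 2 ^ (i + 1) ∧ x ∈ GR d ∧ |Real.log x - (i * Real.log 2 + s)| ≤ 1 / 4}.ncard : ℝ) ≤
        C1 * Real.exp 1 * 2 ^ i * (2 : ℝ) ^ (-(δ2 / (4 * q) * J)) := by
    intro s hs1 hs2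
    obtain ⟨D, hDd⟩ : ∃ D : ℝ, D = Real.exp ((i * Real.log 2 + s) / q) := ⟨_, rfl⟩
    have hDpos : 0 < D := by rw [hDd]; exact Real.exp_pos _
    have hlogD : Real.log D = (i * Real.log 2 + s) / q := by rw [hDd, Real.log_exp]
    have hqD : q * Real.log D = i * Real.log 2 + s := by
      rw [hlogD]
      field_simp
    have hil : 0 ≤ i * Real.log 2 := mul_nonneg hi0 hl2.le
    have hDbig : max D0 8 ≤ D := by
      rw [hDd, ← Real.exp_log hm]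
      refine Real.exp_le_exp.2 ?_
      rw [le_div_iff₀ hq0]
      have h1 : 4 * q / Real.log 2 * Real.log (max D0 8) ≤ 4 * i := by linarith
      have h2 : 4 * q / Real.log 2 * Real.log (max D0 8) * Real.log 2 ≤ 4 * i * Real.log 2 :=
        mul_le_mul_of_nonneg_right h1 hl2.le
      have h3 : 4 * q / Real.log 2 * Real.log (max D0 8) * Real.log 2 = 4 * (Real.log (max D0 8) * q) := by
        field_simp
      rw [h3] at h2
      linarith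
    have hDD0 : D0 ≤ D := (le_max_left _ _).trans hDbig
    have hD8 : 8 ≤ D := (le_max_right _ _).trans hDbig
    have hDsq : D ^ 2 ≤ (2 : ℝ) ^ d := by
      have e1 : D ^ 2 = Real.exp (2 * ((i * Real.log 2 + s) / q)) := by
        rw [hDd, ← Real.exp_nat_mul]
        norm_num
      have e2 : (2 : ℝ) ^ d = Real.exp (d * Real.log 2) := by
        rw [Real.exp_nat_mul, Real.exp_log (by norm_num)]
      rw [e1, e2]
      refine Real.exp_le_exp.2 ?_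
      have h1 : i * Real.log 2 + s ≤ (J + 4) * Real.log 2 := by
        have : (i : ℝ) * Real.log 2 ≤ (J + 2) * Real.log 2 := mul_le_mul_of_nonneg_right hi2' hl2.le
        linarith
      have h2 : (i * Real.log 2 + s) / q ≤ (J + 4) * Real.log 2 / q :=
        div_le_div_of_nonneg_right h1 hq0.le
      have h3 : 2 * ((J + 4) * Real.log 2 / q) ≤ δ * J * Real.log 2 := by
        rw [← mul_div_assoc, div_le_iff₀ hq0]
        have h4 : 8 ≤ q * δ := by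
          rw [div_le_iff₀ hδ] at hq8
          exact hq8
        have h5 : 2 * ((J : ℝ) + 4) ≤ J * (q * δ) := by nlinarith
        have h6 : 2 * ((J : ℝ) + 4) * Real.log 2 ≤ J * (q * δ) * Real.log 2 := mul_le_mul_of_nonneg_right h5 hl2.le
        calc 2 * ((J + 4) * Real.log 2) = 2 * ((J : ℝ) + 4) * Real.log 2 := by ring
          _ ≤ J * (q * δ) * Real.log 2 := h6
          _ = δ * J * Real.log 2 * q := by ring
      have h7 : δ * J * Real.log 2 ≤ d * Real.log 2 := mul_le_mul_of_nonneg_right hd hl2.le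
      linarith
    have hD1 : 8 * D ≤ D ^ 2 := by nlinarith
    have hsub : {x | 2 ^ i ≤ x ∧ x < 2 ^ (i + 1) ∧ x ∈ GR d ∧ |Real.log x - (i * Real.log 2 + s)| ≤ 1 / 4} ⊆ SF_A q D := by
      rintro x ⟨h1, -, h3, h4⟩
      refine ⟨le_trans Nat.one_le_two_pow h1, by rw [hqD]; exact h4, fun a ha ha' => ?_⟩
      have h5 : (a : ℝ) ≤ ((x + 2 ^ d : ℕ) : ℝ) := by
        push_cast
        linarith
      have h6 : 2 ^ d < P a := h3 a ha (by exact_mod_cast h5)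
      have h7 : ((2 : ℝ) ^ d) < P a := by exact_mod_cast h6
      linarith
    have h1 : ({x | 2 ^ i ≤ x ∧ x < 2 ^ (i + 1) ∧ x ∈ GR d ∧ |Real.log x - (i * Real.log 2 + s)| ≤ 1 / 4}.ncard : ℝ)
        ≤ (SF_A q D).ncard := by
      exact_mod_cast Set.ncard_le_ncard hsub (SF_A_finite q D)
    have h2 : ((SF_A q D).ncard : ℝ) ≤ C1 * D ^ (q - δ1) := by
      have := hmain D hDD0
      rw [hqd]
      exact this
    have h3 : D ^ (q - δ1) ≤ Real.exp 1 * 2 ^ i * (2 : ℝ) ^ (-(δ2 / (4 * q) * J)) := by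
      have h4 : D ^ (q - δ1) ≤ D ^ (q - δ2) := Real.rpow_le_rpow_of_exponent_le (by linarith) (by linarith)
      refine h4.trans ?_
      have e1 : D ^ (q - δ2) = Real.exp ((i * Real.log 2 + s) / q * (q - δ2)) := by
        rw [Real.rpow_def_of_pos hDpos, hlogD]
      have e2 : (2 : ℝ) ^ i = Real.exp (i * Real.log 2) := by
        rw [Real.exp_nat_mul, Real.exp_log (by norm_num)]
      rw [e1, e2, SF_two, ← Real.exp_add, ← Real.exp_add]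
      refine Real.exp_le_exp.2 ?_
      have e3 : (i * Real.log 2 + s) / q * (q - δ2) = (i * Real.log 2 + s) - (i * Real.log 2 + s) * δ2 / q := by
        field_simp
      have e4 : δ2 / (4 * q) * J * Real.log 2 = (J / 4 * Real.log 2) * δ2 / q := by
        field_simp
      rw [e3, neg_mul, e4]
      have h5 : (J / 4 * Real.log 2) * δ2 / q ≤ (i * Real.log 2 + s) * δ2 / q := by
        refine div_le_div_of_nonneg_right (mul_le_mul_of_nonneg_right ?_ hδ2.le) hq0.le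
        have : (J / 4 : ℝ) * Real.log 2 ≤ i * Real.log 2 := mul_le_mul_of_nonneg_right (by linarith) hl2.le
        linarith
      linarith
    calc _ ≤ ((SF_A q D).ncard : ℝ) := h1
      _ ≤ C1 * D ^ (q - δ1) := h2
      _ ≤ C1 * (Real.exp 1 * 2 ^ i * (2 : ℝ) ^ (-(δ2 / (4 * q) * J))) := mul_le_mul_of_nonneg_left h3 hC1.le
      _ = _ := by ring
  have hcover : {x | 2 ^ i ≤ x ∧ x < 2 ^ (i + 1) ∧ x ∈ GR d} ⊆
      {x | 2 ^ i ≤ x ∧ x < 2 ^ (i + 1) ∧ x ∈ GR d ∧ |Real.log x - (i * Real.log 2 + 1 / 4)| ≤ 1 / 4} ∪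
      {x | 2 ^ i ≤ x ∧ x < 2 ^ (i + 1) ∧ x ∈ GR d ∧ |Real.log x - (i * Real.log 2 + 3 / 4)| ≤ 1 / 4} := by
    rintro x ⟨h1, h2, h3⟩
    have hx0 : (0 : ℝ) < x := by exact_mod_cast lt_of_lt_of_le Nat.one_le_two_pow h1
    have g1 : i * Real.log 2 ≤ Real.log x := by
      rw [← Real.log_pow]
      exact Real.log_le_log (by positivity) (by exact_mod_cast h1)
    have g2 : Real.log x ≤ (i + 1) * Real.log 2 := by
      have : ((i : ℝ) + 1) * Real.log 2 = Real.log ((2 : ℝ) ^ (i + 1)) := by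
        rw [Real.log_pow]
        push_cast
        ring
      rw [this]
      exact Real.log_le_log hx0 (by exact_mod_cast h2.le)
    rcases le_total (Real.log x) (i * Real.log 2 + 1 / 2) with h | h
    · left
      refine ⟨h1, h2, h3, ?_⟩
      rw [abs_le]
      constructor <;> linarith
    · right
      refine ⟨h1, h2, h3, ?_⟩
      rw [abs_le]
      constructor <;> linarith
  have hfin : ∀ s : ℝ, {x | 2 ^ i ≤ x ∧ x < 2 ^ (i + 1) ∧ x ∈ GR d ∧ |Real.log x - (i * Real.log 2 + s)| ≤ 1 / 4}.Finite := by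
    intro s
    refine (Set.finite_Iio (2 ^ (i + 1))).subset ?_
    rintro x ⟨-, h2, -⟩
    exact h2
  have hn : {x | 2 ^ i ≤ x ∧ x < 2 ^ (i + 1) ∧ x ∈ GR d}.ncard ≤
      {x | 2 ^ i ≤ x ∧ x < 2 ^ (i + 1) ∧ x ∈ GR d ∧ |Real.log x - (i * Real.log 2 + 1 / 4)| ≤ 1 / 4}.ncard +
      {x | 2 ^ i ≤ x ∧ x < 2 ^ (i + 1) ∧ x ∈ GR d ∧ |Real.log x - (i * Real.log 2 + 3 / 4)| ≤ 1 / 4}.ncard :=
    (Set.ncard_le_ncard hcover ((hfin _).union (hfin _))).trans (Set.ncard_union_le _ _)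
  have hn' : ({x | 2 ^ i ≤ x ∧ x < 2 ^ (i + 1) ∧ x ∈ GR d}.ncard : ℝ) ≤
      ({x | 2 ^ i ≤ x ∧ x < 2 ^ (i + 1) ∧ x ∈ GR d ∧ |Real.log x - (i * Real.log 2 + 1 / 4)| ≤ 1 / 4}.ncard : ℝ) +
      ({x | 2 ^ i ≤ x ∧ x < 2 ^ (i + 1) ∧ x ∈ GR d ∧ |Real.log x - (i * Real.log 2 + 3 / 4)| ≤ 1 / 4}.ncard : ℝ) := by
    exact_mod_cast hn
  have k1 := key (1 / 4) (le_refl _) (by norm_num)
  have k2 := key (3 / 4) (by norm_num) (le_refl _)
  calc _ ≤ _ := hn'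
    _ ≤ _ := add_le_add k1 k2
    _ = _ := by ring

theorem smooth_gap {δ : ℝ} (hδ : 0 < δ) : ∃ κ : ℝ, 0 < κ ∧ ∃ J0 : ℕ, ∀ J : ℕ, J0 ≤ J →
    ∀ d : ℕ, δ * J ≤ d → ∀ X : ℕ, 2 ^ (J / 2) ≤ X → X ≤ 2 ^ (J + 2) →
      ({x | 1 ≤ x ∧ x ≤ X ∧ x ∈ GR d}.ncard : ℝ) ≤ X * (2 : ℝ) ^ (-(κ * J)) := by
  obtain ⟨κ1, C, hκ1, hC, J1, hblock⟩ := gap_block hδ
  obtain ⟨J2, hJ2⟩ : ∃ J2 : ℕ, 2 / κ1 * (4 * C) ≤ J2 := exists_nat_ge _
  refine ⟨min (κ1 / 2) (1 / 8), lt_min (by linarith) (by norm_num), max (max J1 J2) 20, ?_⟩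
  intro J hJ d hd X hX1 hX2
  have hJ1 : J1 ≤ J := ((le_max_left _ _).trans (le_max_left _ _)).trans hJ
  have hJ2' : (J2 : ℝ) ≤ J := by exact_mod_cast ((le_max_right J1 J2).trans (le_max_left _ _)).trans hJ
  have hJ20 : (20 : ℝ) ≤ J := by exact_mod_cast (le_max_right _ _).trans hJ
  have hX0 : 0 < X := lt_of_lt_of_le (by positivity) hX1
  have hXr : (0 : ℝ) < X := by exact_mod_cast hX0
  have hL : Nat.log 2 X ≤ J + 2 := by
    have := Nat.log_mono_right (b := 2) hX2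
    rwa [Nat.log_pow (by norm_num)] at this
  have hsub : {x | 1 ≤ x ∧ x ≤ X ∧ x ∈ GR d} ⊆ ((Finset.range (2 ^ (J / 4 + 1)) : Finset ℕ) : Set ℕ) ∪
      ⋃ i ∈ Finset.Icc (J / 4 + 1) (Nat.log 2 X), {x | 2 ^ i ≤ x ∧ x < 2 ^ (i + 1) ∧ x ∈ GR d} := by
    rintro x ⟨h1, h2, h3⟩
    rcases lt_or_ge x (2 ^ (J / 4 + 1)) with h | h
    · left
      simpa using h
    · right
      refine Set.mem_iUnion₂.2 ⟨Nat.log 2 x, ?_, ?_, ?_, h3⟩
      · rw [Finset.mem_Icc]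
        exact ⟨Nat.le_log_of_pow_le (by norm_num) h, Nat.log_mono_right h2⟩
      · exact Nat.pow_log_le_self 2 (by omega)
      · exact Nat.lt_pow_succ_log_self (by norm_num) x
  have hfin : ∀ i : ℕ, {x | 2 ^ i ≤ x ∧ x < 2 ^ (i + 1) ∧ x ∈ GR d}.Finite := by
    intro i
    refine (Set.finite_Iio (2 ^ (i + 1))).subset ?_
    rintro x ⟨-, h2, -⟩
    exact h2
  have hcount : {x | 1 ≤ x ∧ x ≤ X ∧ x ∈ GR d}.ncard ≤ 2 ^ (J / 4 + 1) +
      ∑ i ∈ Finset.Icc (J / 4 + 1) (Nat.log 2 X), {x | 2 ^ i ≤ x ∧ x < 2 ^ (i + 1) ∧ x ∈ GR d}.ncard := by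
    refine (Set.ncard_le_ncard hsub ((Finset.finite_toSet _).union
      (Set.Finite.biUnion (Finset.finite_toSet _) fun i _ => hfin i))).trans ?_
    refine (Set.ncard_union_le _ _).trans ?_
    refine add_le_add ?_ ?_
    · rw [Set.ncard_coe_finset, Finset.card_range]
    · exact Finset.set_ncard_biUnion_le _ _
  have hcountr : ({x | 1 ≤ x ∧ x ≤ X ∧ x ∈ GR d}.ncard : ℝ) ≤ 2 ^ (J / 4 + 1) +
      ∑ i ∈ Finset.Icc (J / 4 + 1) (Nat.log 2 X), ({x | 2 ^ i ≤ x ∧ x < 2 ^ (i + 1) ∧ x ∈ GR d}.ncard : ℝ) := by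
    exact_mod_cast hcount
  have hpw : 0 < (2 : ℝ) ^ (-(κ1 * J)) := Real.rpow_pos_of_pos (by norm_num) _
  have hsum : ∑ i ∈ Finset.Icc (J / 4 + 1) (Nat.log 2 X), ({x | 2 ^ i ≤ x ∧ x < 2 ^ (i + 1) ∧ x ∈ GR d}.ncard : ℝ) ≤
      2 * C * X * (2 : ℝ) ^ (-(κ1 * J)) := by
    have h1 : ∀ i ∈ Finset.Icc (J / 4 + 1) (Nat.log 2 X),
        ({x | 2 ^ i ≤ x ∧ x < 2 ^ (i + 1) ∧ x ∈ GR d}.ncard : ℝ) ≤ C * 2 ^ i * (2 : ℝ) ^ (-(κ1 * J)) := by
      intro i hi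
      rw [Finset.mem_Icc] at hi
      exact hblock J hJ1 d hd i (by omega) (by omega)
    refine (Finset.sum_le_sum h1).trans ?_
    rw [← Finset.sum_mul, ← Finset.mul_sum]
    refine mul_le_mul_of_nonneg_right ?_ hpw.le
    have h2 : ∑ i ∈ Finset.Icc (J / 4 + 1) (Nat.log 2 X), (2 : ℝ) ^ i ≤ 2 * X := by
      have h3 : ∑ i ∈ Finset.Icc (J / 4 + 1) (Nat.log 2 X), (2 : ℝ) ^ i ≤
          ∑ i ∈ Finset.range (Nat.log 2 X + 1), (2 : ℝ) ^ i := by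
        refine Finset.sum_le_sum_of_subset_of_nonneg ?_ fun i _ _ => by positivity
        intro i hi
        rw [Finset.mem_Icc] at hi
        rw [Finset.mem_range]
        omega
      have h4 : ∑ i ∈ Finset.range (Nat.log 2 X + 1), (2 : ℝ) ^ i ≤ 2 ^ (Nat.log 2 X + 1) := by
        have := geom_sum_eq (show (2 : ℝ) ≠ 1 by norm_num) (Nat.log 2 X + 1)
        rw [this]
        norm_num
      have h5 : (2 : ℝ) ^ (Nat.log 2 X) ≤ X := by exact_mod_cast Nat.pow_log_le_self 2 hX0.ne'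
      rw [pow_succ] at h4
      linarith
    nlinarith
  -- the two parts
  have hsplit : ∀ y : ℝ, (2 : ℝ) ^ y = Real.exp (y * Real.log 2) := SF_two
  have hκle : ∀ t : ℝ, min (κ1 / 2) (1 / 8) ≤ t → (2 : ℝ) ^ (-(t * J)) ≤ (2 : ℝ) ^ (-(min (κ1 / 2) (1 / 8) * J)) := by
    intro t ht
    refine Real.rpow_le_rpow_of_exponent_le (by norm_num) ?_
    have := mul_le_mul_of_nonneg_right ht (Nat.cast_nonneg (α := ℝ) J)
    linarith
  have hfirst : (2 : ℝ) ^ (J / 4 + 1) ≤ X * (2 : ℝ) ^ (-(1 / 8 * (J : ℝ))) / 2 := by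
    have h1 : ((2 : ℝ) ^ (J / 4 + 1)) ≤ (2 : ℝ) ^ ((J : ℝ) / 4 + 1) := by
      rw [← Real.rpow_natCast]
      refine Real.rpow_le_rpow_of_exponent_le (by norm_num) ?_
      have : ((J / 4 : ℕ) : ℝ) ≤ (J : ℝ) / 4 := Nat.cast_div_le
      push_cast
      linarith
    have h2 : (2 : ℝ) ^ (((J : ℝ) - 1) / 2) ≤ X := by
      have h3 : (2 : ℝ) ^ (J / 2) ≤ X := by exact_mod_cast hX1
      refine le_trans ?_ h3
      rw [← Real.rpow_natCast]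
      refine Real.rpow_le_rpow_of_exponent_le (by norm_num) ?_
      have h4 : J ≤ 2 * (J / 2) + 1 := by omega
      have h5 : (J : ℝ) ≤ 2 * ((J / 2 : ℕ) : ℝ) + 1 := by exact_mod_cast h4
      linarith
    refine h1.trans ?_
    have h6 : (2 : ℝ) ^ (((J : ℝ) - 1) / 2) * (2 : ℝ) ^ (-(1 / 8 * (J : ℝ))) ≤ X * (2 : ℝ) ^ (-(1 / 8 * (J : ℝ))) :=
      mul_le_mul_of_nonneg_right h2 (Real.rpow_pos_of_pos (by norm_num) _).le
    rw [← Real.rpow_add (by norm_num)] at h6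
    have h7 : (2 : ℝ) ^ ((J : ℝ) / 4 + 1) * 2 ≤ (2 : ℝ) ^ (((J : ℝ) - 1) / 2 + -(1 / 8 * (J : ℝ))) := by
      have h8 : (2 : ℝ) ^ ((J : ℝ) / 4 + 1) * 2 = (2 : ℝ) ^ ((J : ℝ) / 4 + 1 + 1) := by
        rw [Real.rpow_add (by norm_num) ((J : ℝ) / 4 + 1) 1, Real.rpow_one]
      rw [h8]
      refine Real.rpow_le_rpow_of_exponent_le (by norm_num) ?_
      linarith
    linarith
  have hsecond : 2 * C * X * (2 : ℝ) ^ (-(κ1 * J)) ≤ X * (2 : ℝ) ^ (-(κ1 / 2 * (J : ℝ))) / 2 := by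
    have h1 : (2 : ℝ) ^ (-(κ1 * J)) = (2 : ℝ) ^ (-(κ1 / 2 * (J : ℝ))) * (2 : ℝ) ^ (-(κ1 / 2 * (J : ℝ))) := by
      rw [← Real.rpow_add (by norm_num)]
      congr 1
      ring
    have h2 : 4 * C * (2 : ℝ) ^ (-(κ1 / 2 * (J : ℝ))) ≤ 1 := by
      rw [Real.rpow_neg (by norm_num), ← div_eq_mul_inv, div_le_one (Real.rpow_pos_of_pos (by norm_num) _)]
      have h3 : 4 * C ≤ κ1 / 2 * J := by
        have h4 : 2 / κ1 * (4 * C) ≤ J := hJ2.trans hJ2'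
        have h5 : κ1 / 2 * (2 / κ1 * (4 * C)) ≤ κ1 / 2 * J := mul_le_mul_of_nonneg_left h4 (by positivity)
        have h6 : κ1 / 2 * (2 / κ1 * (4 * C)) = 4 * C := by
          field_simp
        linarith
      refine h3.trans ?_
      have h7 : κ1 / 2 * (J : ℝ) < (2 : ℝ) ^ (κ1 / 2 * (J : ℝ)) := by
        have h8 := Real.add_one_le_exp (κ1 / 2 * (J : ℝ) * Real.log 2)
        rw [hsplit]
        have h9 : (0 : ℝ) ≤ κ1 / 2 * J := by positivity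
        have h10 : 1 / 2 ≤ Real.log 2 := by linarith [Real.log_two_gt_d9]
        have h11 := Real.quadratic_le_exp_of_nonneg (show 0 ≤ κ1 / 2 * (J : ℝ) * Real.log 2 by positivity)
        set y := κ1 / 2 * (J : ℝ) with hy
        have h12 : y * Real.log 2 ≥ y / 2 := by nlinarith
        nlinarith [sq_nonneg (y * Real.log 2 - 2), Real.log_two_gt_d9, Real.log_two_lt_d9]
      exact h7.le
    rw [h1]
    have h13 : 0 < (2 : ℝ) ^ (-(κ1 / 2 * (J : ℝ))) := Real.rpow_pos_of_pos (by norm_num) _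
    set z := (2 : ℝ) ^ (-(κ1 / 2 * (J : ℝ))) with hz
    have h14 : 4 * C * z * (X * z) ≤ 1 * (X * z) := mul_le_mul_of_nonneg_right h2 (by positivity)
    nlinarith
  have e1 := hκle (1 / 8) (min_le_right _ _)
  have e2 := hκle (κ1 / 2) (min_le_left _ _)
  have e3 : (X : ℝ) * (2 : ℝ) ^ (-(1 / 8 * (J : ℝ))) ≤ X * (2 : ℝ) ^ (-(min (κ1 / 2) (1 / 8) * J)) :=
    mul_le_mul_of_nonneg_left e1 hXr.le
  have e4 : (X : ℝ) * (2 : ℝ) ^ (-(κ1 / 2 * (J : ℝ))) ≤ X * (2 : ℝ) ^ (-(min (κ1 / 2) (1 / 8) * J)) :=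
    mul_le_mul_of_nonneg_left e2 hXr.le
  linarith

end Pool.Agent.TNX
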