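import Pool.Agent.TNX.Defs

/-!
# TNX/Iso: few `n` are not isolated (difficulty 3)

`p = P n`, `p' = P n'` are primes in `(y, 2 y]` (`P_prime`, `n ≥ 2` since `P 1 = 0`), `p ∣ n`, `p' ∣ n'` (`P_dvd`).
`n / s = n' / s` gives `|n - n'| < s` (as integers), `(n + k p) / s = (n' + k p') / s` gives `|(n + k p) - (n' + k p')| < s`, so
`|p - p'| ≤ k |p - p'| < 2 s`.  `p ≠ p'`: otherwise `p ∣ n - n'`, `0 < |n - n'| < s ≤ y < p`.
So `n` is in the union over `p ∈ Ioc y (2 y)`, `h ∈ Ioo (-2s) (2s)` (`h ≠ 0`), `g ∈ Ioo (-s) s` (integers) of the sets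
`{n ∈ Icc 1 N : p ∣ n, p + h ∣ n + g}` with `p`, `p + h > y` distinct primes.  Each of these sets has at most
`N / y ^ 2 + 1` elements: two elements differ by a multiple of `p (p + h) > y ^ 2` (coprime), so the map `n ↦ n / y ^ 2` is
injective on it, with values `≤ N / y ^ 2`.  There are at most `y * (4 s) * (2 s)` triples.
-/

namespace Pool.Agent.TNX

open Pool.Agent.TN Finset

theorem iso_one (N y p : ℕ) (h g : ℤ) (hy : 0 < y) (hyp : y < p) (S : Finset ℕ)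
    (hS : ∀ n ∈ S, n ≤ N ∧ ∃ p' : ℕ, p'.Prime ∧ p.Prime ∧ p' ≠ p ∧ y < p' ∧ (p' : ℤ) = p + h ∧ p ∣ n ∧
      (p' : ℤ) ∣ (n : ℤ) + g) : S.card ≤ N / y ^ 2 + 1 := by
  have hmain : S.card ≤ (Finset.range (N / y ^ 2 + 1)).card := by
    apply Finset.card_le_card_of_injOn (fun n => n / y ^ 2)
    · intro n hn
      have h1 := (hS n hn).1
      simp only [Finset.coe_range, Set.mem_Iio]
      exact Nat.lt_succ_of_le (Nat.div_le_div_right h1)
    · intro a ha b hb hab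
      obtain ⟨_, p', hp', hp, hne, hyp', hpe, hda, hda'⟩ := hS a ha
      obtain ⟨_, p'', _, _, _, _, hpe', hdb, hdb'⟩ := hS b hb
      have hpp : p'' = p' := by
        have : (p'' : ℤ) = p' := by rw [hpe, hpe']
        exact_mod_cast this
      rw [hpp] at hdb'
      have h1 : (p : ℤ) ∣ (a : ℤ) - b := by
        apply dvd_sub
        · exact_mod_cast hda
        · exact_mod_cast hdb
      have h2 : (p' : ℤ) ∣ (a : ℤ) - b := by
        have := dvd_sub hda' hdb'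
        have e : (a : ℤ) + g - ((b : ℤ) + g) = (a : ℤ) - b := by ring
        rwa [e] at this
      have hcop : IsCoprime (p : ℤ) (p' : ℤ) := by
        rw [Nat.isCoprime_iff_coprime]
        exact (Nat.coprime_primes hp hp').mpr (Ne.symm hne)
      have h3 : (p : ℤ) * p' ∣ (a : ℤ) - b := hcop.mul_dvd h1 h2
      have hab' : a / y ^ 2 = b / y ^ 2 := hab
      have hy2 : 0 < y ^ 2 := by positivity
      have ea := Nat.div_add_mod a (y ^ 2)
      have eb := Nat.div_add_mod b (y ^ 2)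
      have la := Nat.mod_lt a hy2
      have lb := Nat.mod_lt b hy2
      rw [hab'] at ea
      have hlt : |(a : ℤ) - b| < (y : ℤ) ^ 2 := by
        have ea' : ((y : ℤ) ^ 2) * ((b / y ^ 2 : ℕ) : ℤ) + ((a % y ^ 2 : ℕ) : ℤ) = a := by exact_mod_cast ea
        have eb' : ((y : ℤ) ^ 2) * ((b / y ^ 2 : ℕ) : ℤ) + ((b % y ^ 2 : ℕ) : ℤ) = b := by exact_mod_cast eb
        have la' : ((a % y ^ 2 : ℕ) : ℤ) < (y : ℤ) ^ 2 := by exact_mod_cast la
        have lb' : ((b % y ^ 2 : ℕ) : ℤ) < (y : ℤ) ^ 2 := by exact_mod_cast lb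
        have za : (0 : ℤ) ≤ ((a % y ^ 2 : ℕ) : ℤ) := Int.natCast_nonneg _
        have zb : (0 : ℤ) ≤ ((b % y ^ 2 : ℕ) : ℤ) := Int.natCast_nonneg _
        rw [abs_lt]
        constructor <;> linarith
      have hgt : (y : ℤ) ^ 2 < (p : ℤ) * p' := by
        have e1 : (y : ℤ) < p := by exact_mod_cast hyp
        have e2 : (y : ℤ) < p' := by exact_mod_cast hyp'
        have e0 : (0 : ℤ) < y := by exact_mod_cast hy
        nlinarith
      have hz : (a : ℤ) - b = 0 := Int.eq_zero_of_abs_lt_dvd h3 (hlt.trans hgt)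
      have : (a : ℤ) = b := by linarith
      exact_mod_cast this
  simpa using hmain

theorem iso_near {a b s : ℕ} (hs : 0 < s) (h : a / s = b / s) : |(a : ℤ) - b| < (s : ℤ) := by
  have ea := Nat.div_add_mod a s
  have eb := Nat.div_add_mod b s
  have la := Nat.mod_lt a hs
  have lb := Nat.mod_lt b hs
  rw [h] at ea
  have ea' : (s : ℤ) * ((b / s : ℕ) : ℤ) + ((a % s : ℕ) : ℤ) = a := by exact_mod_cast ea
  have eb' : (s : ℤ) * ((b / s : ℕ) : ℤ) + ((b % s : ℕ) : ℤ) = b := by exact_mod_cast eb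
  have la' : ((a % s : ℕ) : ℤ) < (s : ℤ) := by exact_mod_cast la
  have lb' : ((b % s : ℕ) : ℤ) < (s : ℤ) := by exact_mod_cast lb
  have za : (0 : ℤ) ≤ ((a % s : ℕ) : ℤ) := Int.natCast_nonneg _
  have zb : (0 : ℤ) ≤ ((b % s : ℕ) : ℤ) := Int.natCast_nonneg _
  rw [abs_lt]
  constructor <;> linarith

theorem iso_card (N y k s : ℕ) (hk : 1 ≤ k) (hs : 0 < s) (hsy : s ≤ y) :
    {n | (1 ≤ n ∧ n ≤ N ∧ y < P n ∧ P n ≤ 2 * y) ∧ ∃ n', (1 ≤ n' ∧ y < P n' ∧ P n' ≤ 2 * y) ∧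
      n' ≠ n ∧ n / s = n' / s ∧ (n + k * P n) / s = (n' + k * P n') / s}.ncard ≤
      8 * s ^ 2 * y * (N / y ^ 2 + 1) := by
  classical
  have hy : 0 < y := lt_of_lt_of_le hs hsy
  obtain ⟨I, hI⟩ : ∃ I : Finset (ℕ × ℤ × ℤ), I = (Finset.Ioc y (2 * y)) ×ˢ
      ((Finset.Ioo (-(2 * s : ℤ)) (2 * s)) ×ˢ (Finset.Ioo (-(s : ℤ)) s)) := ⟨_, rfl⟩
  obtain ⟨f, hf⟩ : ∃ f : ℕ × ℤ × ℤ → Finset ℕ, f = fun t : ℕ × ℤ × ℤ => (Finset.Icc 1 N).filter (fun n =>
      ∃ p' : ℕ, p'.Prime ∧ t.1.Prime ∧ p' ≠ t.1 ∧ y < p' ∧ (p' : ℤ) = t.1 + t.2.1 ∧ t.1 ∣ n ∧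
      (p' : ℤ) ∣ (n : ℤ) + t.2.2) := ⟨_, rfl⟩
  have hsub : {n | (1 ≤ n ∧ n ≤ N ∧ y < P n ∧ P n ≤ 2 * y) ∧ ∃ n', (1 ≤ n' ∧ y < P n' ∧ P n' ≤ 2 * y) ∧
      n' ≠ n ∧ n / s = n' / s ∧ (n + k * P n) / s = (n' + k * P n') / s} ⊆ ↑(I.biUnion f) := by
    rintro n ⟨⟨h1, h2, h3, h4⟩, n', ⟨h1', h3', h4'⟩, hne, e1, e2⟩
    have hn2 : 2 ≤ n := by
      by_contra hlt
      have : n = 1 := by omega
      subst this
      have : P 1 = 0 := by simp [P]
      omega
    have hn2' : 2 ≤ n' := by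
      by_contra hlt
      have : n' = 1 := by omega
      subst this
      have : P 1 = 0 := by simp [P]
      omega
    have hp := P_prime hn2
    have hp' := P_prime hn2'
    have hd := P_dvd hn2
    have hd' := P_dvd hn2'
    have a1 := iso_near hs e1
    have a2 := iso_near hs e2
    have hkz : (1 : ℤ) ≤ k := by exact_mod_cast hk
    have hkp : (k : ℤ) * |(P n' : ℤ) - P n| < 2 * s := by
      have e : (k : ℤ) * ((P n' : ℤ) - P n) =
          ((n : ℤ) - n') - (((n + k * P n : ℕ) : ℤ) - ((n' + k * P n' : ℕ) : ℤ)) := by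
        push_cast
        ring
      have e' : (k : ℤ) * |(P n' : ℤ) - P n| = |(k : ℤ) * ((P n' : ℤ) - P n)| := by
        rw [abs_mul, abs_of_nonneg (by linarith : (0 : ℤ) ≤ k)]
      rw [e', e]
      have := abs_sub ((n : ℤ) - n') (((n + k * P n : ℕ) : ℤ) - ((n' + k * P n' : ℕ) : ℤ))
      linarith
    have hpp : |(P n' : ℤ) - P n| < 2 * s := by
      have h0 := abs_nonneg ((P n' : ℤ) - P n)
      nlinarith
    have hPne : P n' ≠ P n := by
      intro he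
      have hdv : (P n : ℤ) ∣ (n : ℤ) - n' := by
        apply dvd_sub
        · exact_mod_cast hd
        · rw [← he]
          exact_mod_cast hd'
      have hlt : |(n : ℤ) - n'| < (P n : ℤ) := by
        have : (s : ℤ) ≤ y := by exact_mod_cast hsy
        have h3z : (y : ℤ) < P n := by exact_mod_cast h3
        linarith
      have hz := Int.eq_zero_of_abs_lt_dvd hdv hlt
      apply hne
      have : (n : ℤ) = n' := by linarith
      exact_mod_cast this.symm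
    rw [Finset.coe_biUnion, Set.mem_iUnion₂]
    refine ⟨(P n, (P n' : ℤ) - P n, (n' : ℤ) - n), ?_, ?_⟩
    · rw [hI, Finset.mem_coe, Finset.mem_product, Finset.mem_product, Finset.mem_Ioc, Finset.mem_Ioo,
        Finset.mem_Ioo]
      rw [abs_lt] at hpp a1
      refine ⟨⟨h3, h4⟩, ⟨hpp.1, hpp.2⟩, ?_, ?_⟩
      · show -(s : ℤ) < (n' : ℤ) - n
        linarith [a1.2]
      · show (n' : ℤ) - n < (s : ℤ)
        linarith [a1.1]
    · rw [hf, Finset.mem_coe, Finset.mem_filter, Finset.mem_Icc]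
      refine ⟨⟨h1, h2⟩, P n', hp', hp, hPne, h3', ?_, hd, ?_⟩
      · show (P n' : ℤ) = (P n : ℤ) + ((P n' : ℤ) - P n)
        ring
      · show (P n' : ℤ) ∣ (n : ℤ) + ((n' : ℤ) - n)
        have e : (n : ℤ) + ((n' : ℤ) - n) = n' := by ring
        rw [e]
        exact_mod_cast hd'
  have hcard1 : (I.biUnion f).card ≤ I.card * (N / y ^ 2 + 1) := by
    apply Finset.card_biUnion_le_card_mul
    rintro ⟨p, h, g⟩ ht
    rw [hI, Finset.mem_product, Finset.mem_Ioc] at ht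
    apply iso_one N y p h g hy ht.1.1
    intro n hn
    rw [hf, Finset.mem_filter, Finset.mem_Icc] at hn
    exact ⟨hn.1.2, hn.2⟩
  have hIc : I.card ≤ 8 * s ^ 2 * y := by
    rw [hI, Finset.card_product, Finset.card_product, Nat.card_Ioc, Int.card_Ioo, Int.card_Ioo]
    have e1 : 2 * y - y = y := by omega
    have e2 : ((2 * (s : ℤ)) - (-(2 * s : ℤ)) - 1).toNat ≤ 4 * s := by omega
    have e3 : ((s : ℤ) - (-(s : ℤ)) - 1).toNat ≤ 2 * s := by omega
    rw [e1]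
    calc y * (((2 * (s : ℤ)) - (-(2 * s : ℤ)) - 1).toNat * ((s : ℤ) - (-(s : ℤ)) - 1).toNat)
        ≤ y * ((4 * s) * (2 * s)) := Nat.mul_le_mul_left _ (Nat.mul_le_mul e2 e3)
      _ = 8 * s ^ 2 * y := by ring
  calc _ ≤ ((I.biUnion f : Finset ℕ) : Set ℕ).ncard := Set.ncard_le_ncard hsub (Finset.finite_toSet _)
    _ = (I.biUnion f).card := Set.ncard_coe_finset _
    _ ≤ I.card * (N / y ^ 2 + 1) := hcard1
    _ ≤ 8 * s ^ 2 * y * (N / y ^ 2 + 1) := Nat.mul_le_mul_right _ hIc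

end Pool.Agent.TNX
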