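import Pool.Agent.TNX.Exc
import Pool.Agent.TNX.Iso

/-!
# TNX/Cnt: the number of exceptional `n` in a dyadic range (difficulty 2)

Let `A` be the set, `y = 2 ^ j`.  `A1` = the `n ∈ A` for which there is `n' ≠ n`, `1 ≤ n'`, `y < P n' ≤ 2 y`, with the same `n' / s` and
`(n' + k * P n') / s` as `n`: `iso_card`.  `E = A \ A1` (a finset: `n ≤ N`): `exc_card` with `f n = n + k * P n`, `M = N + k * 2 ^ (j + 1)`
(`n < f n` as `k ≥ 1`, `P n > 0`; `f n ≤ M`; the isolation holds as the elements of `E` are not in `A1`).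
-/

namespace Pool.Agent.TNX

open Pool.Agent.TN Finset

theorem exc_count (N j k s z : ℕ) (hk : 1 ≤ k) (hs : 0 < s) (hsy : s ≤ 2 ^ j) :
    {n | Rg N j n ∧ Exc z n (n + k * P n)}.ncard ≤
      8 * s ^ 2 * 2 ^ j * (N / (2 ^ j) ^ 2 + 1) + (z + 2) * (N / s + (N + k * 2 ^ (j + 1)) / s + 1) := by
  set A : Set ℕ := {n | Rg N j n ∧ Exc z n (n + k * P n)} with hA
  set A1 : Set ℕ := {n | (1 ≤ n ∧ n ≤ N ∧ 2 ^ j < P n ∧ P n ≤ 2 * 2 ^ j) ∧
    ∃ n', (1 ≤ n' ∧ 2 ^ j < P n' ∧ P n' ≤ 2 * 2 ^ j) ∧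
      n' ≠ n ∧ n / s = n' / s ∧ (n + k * P n) / s = (n' + k * P n') / s} with hA1
  have hAfin : A.Finite := by
    refine (Finset.finite_toSet (Finset.Icc 1 N)).subset ?_
    rintro n ⟨hR, _⟩
    exact Finset.mem_coe.2 (Finset.mem_Icc.2 hR.1)
  have hA1fin : A1.Finite := by
    refine (Finset.finite_toSet (Finset.Icc 1 N)).subset ?_
    rintro n ⟨⟨h1, h2, _⟩, _⟩
    exact Finset.mem_coe.2 (Finset.mem_Icc.2 ⟨h1, h2⟩)
  have h1 : (A ∩ A1).ncard ≤ 8 * s ^ 2 * 2 ^ j * (N / (2 ^ j) ^ 2 + 1) :=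
    (Set.ncard_le_ncard Set.inter_subset_right hA1fin).trans (iso_card N (2 ^ j) k s hk hs hsy)
  have hEfin : (A \ A1).Finite := hAfin.sdiff
  have h2 : (A \ A1).ncard ≤ (z + 2) * (N / s + (N + k * 2 ^ (j + 1)) / s + 1) := by
    rw [Set.ncard_eq_toFinset_card _ hEfin]
    refine exc_card N (N + k * 2 ^ (j + 1)) z s hEfin.toFinset (fun n => n + k * P n) ?_ ?_
    · intro n hn
      rw [Set.Finite.mem_toFinset] at hn
      obtain ⟨⟨hR, hE⟩, _⟩ := hn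
      have hp := hR.prime.pos
      have hkp : 0 < k * P n := Nat.mul_pos hk hp
      have hkp2 : k * P n ≤ k * 2 ^ (j + 1) := Nat.mul_le_mul_left k hR.2.2
      have hnN := hR.1.2
      exact ⟨hnN, by show n < n + k * P n; omega, by show n + k * P n ≤ N + k * 2 ^ (j + 1); omega, hE⟩
    · intro n hn n' hn' e1 e2
      rw [Set.Finite.mem_toFinset] at hn hn'
      by_contra hne
      apply hn.2
      have hpow : 2 ^ (j + 1) = 2 * 2 ^ j := by rw [pow_succ']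
      have hR := hn.1.1
      have hR' := hn'.1.1
      refine ⟨⟨hR.1.1, hR.1.2, hR.2.1, ?_⟩, n', ⟨hR'.1.1, hR'.2.1, ?_⟩, fun e => hne e.symm, e1, e2⟩
      · rw [← hpow]; exact hR.2.2
      · rw [← hpow]; exact hR'.2.2
  have h3 := Set.ncard_inter_add_ncard_sdiff_eq_ncard A A1 hAfin
  omega

end Pool.Agent.TNX
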