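import Pool.Agent.TNX.Un
import Pool.Agent.TNX.KkC
import Pool.Agent.TNX.SqC

/-!
# TNX/Q2: as R2, one range (difficulty 2)

As `reg_kk`, `reg_sq` (file `R2.lean`), but for a single `j` with `η J ≤ j ≤ J / 2 + 5` and with the bound `ε N / J`:
* `sc_kk`: `kk_count`: `≤ N / (K + 1) * (12 / (η J)) + 2 ^ (J / 2 + 5)`; `K ≥ 24 / (η ε)`, `2 ^ (J / 2 + 5) ≤ (ε / 2) 2 ^ J / J` for large `J` (`decay`).
* `sc_sq`: `sq_count`: `≤ K (N / 2 ^ (η J) + K)` (`decay`).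
-/

namespace Pool.Agent.TNX

open Pool.Agent.TN Finset

private theorem q2_half (j J : ℕ) (hj : j ≤ J / 2 + 5) :
    (2 : ℝ) ^ j ≤ 32 * ((2 : ℝ) ^ (-((1 / 2 : ℝ) * J)) * (2 : ℝ) ^ J) := by
  rw [← Real.rpow_natCast 2 j, ← Real.rpow_natCast 2 J, ← Real.rpow_add (by norm_num),
    show (32 : ℝ) = (2 : ℝ) ^ (5 : ℝ) by norm_num, ← Real.rpow_add (by norm_num)]
  apply Real.rpow_le_rpow_of_exponent_le (by norm_num)
  have : 2 * j ≤ J + 10 := by omega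
  have h : (2 : ℝ) * j ≤ J + 10 := by exact_mod_cast this
  linarith

theorem sc_kk {η ε : ℝ} (hη : 0 < η) (hε : 0 < ε) : ∃ K : ℕ, 1 ≤ K ∧ ∃ J0 : ℕ, ∀ J : ℕ, J0 ≤ J →
    ∀ N : ℕ, 2 ^ J ≤ N → N < 2 ^ (J + 1) → ∀ j : ℕ, η * J ≤ j → j ≤ J / 2 + 5 →
      ({n | Rg N j n ∧ K < kk n}.ncard : ℝ) ≤ ε * (N / J) := by
  obtain ⟨J1, hJ1⟩ := decay (κ := 1 / 2) (by norm_num) 1 (show 0 < ε / 64 by positivity)
  refine ⟨⌈24 / (η * ε)⌉₊ + 1, by omega, J1 + 1, ?_⟩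
  intro J hJ N hN1 hN2 j hj1 hj2
  obtain ⟨K, hK⟩ : ∃ K : ℕ, K = ⌈24 / (η * ε)⌉₊ + 1 := ⟨_, rfl⟩
  rw [← hK]
  have hK1 : 24 / (η * ε) ≤ K := by
    rw [hK]; push_cast
    have := Nat.le_ceil (24 / (η * ε))
    linarith
  have hJpos : (0 : ℝ) < J := by
    have : 0 < J := by omega
    exact_mod_cast this
  have hdec := hJ1 J (by omega)
  rw [pow_one] at hdec
  have hNr : (2 : ℝ) ^ J ≤ N := by exact_mod_cast hN1
  have hN0 : (0 : ℝ) ≤ N := Nat.cast_nonneg _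
  refine (kk_count N K j).trans ?_
  have e1 : (N : ℝ) / (K + 1) * (12 / ((j : ℝ) + 1)) ≤ ε / 2 * (N / J) := by
    calc (N : ℝ) / (K + 1) * (12 / ((j : ℝ) + 1)) ≤ N / (K + 1) * (12 / (η * J)) := by
          apply mul_le_mul_of_nonneg_left _ (by positivity)
          apply div_le_div_of_nonneg_left (by norm_num) (by positivity)
          linarith
      _ = 12 / (η * (K + 1)) * (N / J) := by
          field_simp
      _ ≤ ε / 2 * (N / J) := by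
          apply mul_le_mul_of_nonneg_right _ (by positivity)
          rw [div_le_iff₀ (by positivity)]
          rw [div_le_iff₀ (by positivity)] at hK1
          nlinarith [mul_pos hη hε]
  have e2 : (2 : ℝ) ^ j ≤ ε / 2 * (N / J) := by
    rw [mul_div_assoc', le_div_iff₀ hJpos]
    calc (2 : ℝ) ^ j * J ≤ 32 * ((2 : ℝ) ^ (-((1 / 2 : ℝ) * J)) * (2 : ℝ) ^ J) * J :=
          mul_le_mul_of_nonneg_right (q2_half j J hj2) hJpos.le
      _ = 32 * ((J * (2 : ℝ) ^ (-((1 / 2 : ℝ) * J))) * (2 : ℝ) ^ J) := by ring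
      _ ≤ 32 * (ε / 64 * N) := by
          apply mul_le_mul_of_nonneg_left _ (by norm_num)
          exact mul_le_mul hdec hNr (by positivity) (by positivity)
      _ = ε / 2 * N := by ring
  linarith

theorem sc_sq {η ε : ℝ} (hη : 0 < η) (hε : 0 < ε) (K : ℕ) : ∃ J0 : ℕ, ∀ J : ℕ, J0 ≤ J →
    ∀ N : ℕ, 2 ^ J ≤ N → N < 2 ^ (J + 1) → ∀ j : ℕ, η * J ≤ j → j ≤ J / 2 + 5 →
      ({n | Rg N j n ∧ ∃ k, 1 ≤ k ∧ k ≤ K ∧ ∃ q, P n < q ∧ q ^ 2 ∣ n / P n + k}.ncard : ℝ) ≤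
        ε * (N / J) := by
  have hε1 : 0 < ε / (2 * (K + 1)) := by positivity
  have hε2 : 0 < ε / (2 * (K + 1) ^ 2) := by positivity
  obtain ⟨J1, hJ1⟩ := decay hη 1 hε1
  obtain ⟨J2, hJ2⟩ := decay (κ := 1) (by norm_num) 1 hε2
  refine ⟨J1 + J2 + 1, ?_⟩
  intro J hJ N hN1 hN2 j hj1 _
  have hJpos : (0 : ℝ) < J := by
    have : 0 < J := by omega
    exact_mod_cast this
  have hdec1 := hJ1 J (by omega)
  have hdec2 := hJ2 J (by omega)
  rw [pow_one] at hdec1 hdec2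
  have hNr : (2 : ℝ) ^ J ≤ N := by exact_mod_cast hN1
  have hN0 : (0 : ℝ) ≤ N := Nat.cast_nonneg _
  have hK0 : (0 : ℝ) ≤ K := Nat.cast_nonneg _
  refine (sq_count N K j).trans ?_
  have hbd : (K : ℝ) * (N / 2 ^ j + K) ≤ K * ((2 : ℝ) ^ (-(η * J)) * N + K) := by
    apply mul_le_mul_of_nonneg_left _ hK0
    apply add_le_add _ le_rfl
    rw [div_eq_mul_inv, mul_comm]
    apply mul_le_mul_of_nonneg_right _ hN0
    rw [Real.rpow_neg (by norm_num)]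
    apply inv_anti₀ (by positivity)
    rw [← Real.rpow_natCast 2 j]
    exact Real.rpow_le_rpow_of_exponent_le (by norm_num) hj1
  refine hbd.trans ?_
  have e1 : (J : ℝ) * (K * ((2 : ℝ) ^ (-(η * J)) * N)) ≤ ε / 2 * N := by
    calc (J : ℝ) * (K * ((2 : ℝ) ^ (-(η * J)) * N))
        = (K * (J * (2 : ℝ) ^ (-(η * J)))) * N := by ring
      _ ≤ (K * (ε / (2 * (K + 1)))) * N := by
          apply mul_le_mul_of_nonneg_right _ hN0
          exact mul_le_mul_of_nonneg_left hdec1 hK0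
      _ ≤ ε / 2 * N := by
          apply mul_le_mul_of_nonneg_right _ hN0
          rw [mul_div_assoc', div_le_div_iff₀ (by positivity) (by norm_num)]
          nlinarith
  have e2 : (J : ℝ) * (K * K) ≤ ε / 2 * N := by
    have hpow : (2 : ℝ) ^ (-((1 : ℝ) * J)) * (2 : ℝ) ^ J = 1 := by
      rw [← Real.rpow_natCast 2 J, ← Real.rpow_add (by norm_num)]
      simp
    have hJ2' : (J : ℝ) ≤ ε / (2 * (K + 1) ^ 2) * N := by
      calc (J : ℝ) = (J * (2 : ℝ) ^ (-((1 : ℝ) * J))) * (2 : ℝ) ^ J := by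
            rw [mul_assoc, hpow, mul_one]
        _ ≤ ε / (2 * (K + 1) ^ 2) * N := mul_le_mul hdec2 hNr (by positivity) (by positivity)
    calc (J : ℝ) * (K * K) ≤ (ε / (2 * (K + 1) ^ 2) * N) * (K * K) :=
          mul_le_mul_of_nonneg_right hJ2' (by positivity)
      _ = (ε / (2 * (K + 1) ^ 2) * (K * K)) * N := by ring
      _ ≤ ε / 2 * N := by
          apply mul_le_mul_of_nonneg_right _ hN0
          rw [div_mul_eq_mul_div, div_le_div_iff₀ (by positivity) (by norm_num)]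
          have : (K : ℝ) * K ≤ (K + 1) ^ 2 := by nlinarith
          nlinarith
  rw [mul_div_assoc', le_div_iff₀ hJpos]
  calc (K : ℝ) * ((2 : ℝ) ^ (-(η * J)) * N + K) * J
      = (J : ℝ) * (K * ((2 : ℝ) ^ (-(η * J)) * N)) + (J : ℝ) * (K * K) := by ring
    _ ≤ ε / 2 * N + ε / 2 * N := add_le_add e1 e2
    _ = ε * N := by ring

end Pool.Agent.TNX
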