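import Pool.Agent.TNX.Un
import Pool.Agent.TNX.SF

/-!
# TNX/Q4: as R4, one range (difficulty 3)

As `reg_right`, `reg_left` (file `R4.lean`), with the bound `ε N / J`, and in `sc_left` for a single `j ≤ J / 2 + 5`
(`M = N + K 2 ^ (j + 1) ≤ N + K 2 ^ (J / 2 + 6) ≤ 2 ^ (J + 2)` for large `J`).
-/

namespace Pool.Agent.TNX

open Pool.Agent.TN Finset

private lemma q4_harm (m : ℕ) : ∑ r ∈ (Icc 1 (2 ^ m) : Finset ℕ), (1 : ℝ) / r ≤ m + 1 := by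
  induction m with
  | zero => simp
  | succ m ih =>
    have hsplit : Icc 1 (2 ^ (m + 1)) = Icc 1 (2 ^ m) ∪ Ioc (2 ^ m) (2 ^ (m + 1)) := by
      ext x
      simp only [Finset.mem_union, Finset.mem_Icc, Finset.mem_Ioc]
      have h1 : 2 ^ (m + 1) = 2 ^ m + 2 ^ m := by ring
      have h2 : 0 < 2 ^ m := by positivity
      omega
    have hdisj : Disjoint (Icc 1 (2 ^ m)) (Ioc (2 ^ m) (2 ^ (m + 1))) := by
      rw [Finset.disjoint_left]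
      intro x hx hx2
      have h1 := Finset.mem_Icc.mp hx
      have h2 := Finset.mem_Ioc.mp hx2
      omega
    rw [hsplit, Finset.sum_union hdisj]
    have h3 : ∑ r ∈ (Ioc (2 ^ m) (2 ^ (m + 1)) : Finset ℕ), (1 : ℝ) / r ≤ 1 := by
      calc ∑ r ∈ (Ioc (2 ^ m) (2 ^ (m + 1)) : Finset ℕ), (1 : ℝ) / r ≤
          ∑ r ∈ (Ioc (2 ^ m) (2 ^ (m + 1)) : Finset ℕ), (1 : ℝ) / 2 ^ m := by
            apply Finset.sum_le_sum
            intro r hr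
            have h1 := (Finset.mem_Ioc.mp hr).1
            have h2 : (2 : ℝ) ^ m ≤ r := by exact_mod_cast h1.le
            exact div_le_div_of_nonneg_left (by norm_num) (by positivity) h2
        _ = 1 := by
            rw [Finset.sum_const, nsmul_eq_mul, Nat.card_Ioc,
              show 2 ^ (m + 1) - 2 ^ m = 2 ^ m by rw [pow_succ]; omega]
            push_cast
            field_simp
    push_cast
    linarith

/-- The sum over `r` of the counts in `GR d`. -/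
private lemma q4_sum {κ : ℝ} {J d M : ℕ} (hM : 2 ^ J ≤ M) (hM2 : M ≤ 2 ^ (J + 2))
    (hg : ∀ X : ℕ, 2 ^ (J / 2) ≤ X → X ≤ 2 ^ (J + 2) →
      ({x | 1 ≤ x ∧ x ≤ X ∧ x ∈ GR d}.ncard : ℝ) ≤ X * (2 : ℝ) ^ (-(κ * J))) :
    ∑ r ∈ Icc 1 (2 ^ (J / 2)), ({x | 1 ≤ x ∧ x ≤ M / r ∧ x ∈ GR d}.ncard : ℝ) ≤
      M * ((J + 1) * (2 : ℝ) ^ (-(κ * J))) := by
  have hp : (0 : ℝ) < (2 : ℝ) ^ (-(κ * J)) := by positivity
  calc ∑ r ∈ Icc 1 (2 ^ (J / 2)), ({x | 1 ≤ x ∧ x ≤ M / r ∧ x ∈ GR d}.ncard : ℝ) ≤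
      ∑ r ∈ (Icc 1 (2 ^ (J / 2)) : Finset ℕ), (M * (2 : ℝ) ^ (-(κ * J))) * (1 / r) := by
        apply Finset.sum_le_sum
        intro r hr
        obtain ⟨h1, h2⟩ := Finset.mem_Icc.mp hr
        have h3 : 2 ^ (J / 2) ≤ M / r := by
          rw [Nat.le_div_iff_mul_le (by omega)]
          calc 2 ^ (J / 2) * r ≤ 2 ^ (J / 2) * 2 ^ (J / 2) := Nat.mul_le_mul_left _ h2
            _ = 2 ^ (J / 2 + J / 2) := by rw [pow_add]
            _ ≤ 2 ^ J := Nat.pow_le_pow_right (by norm_num) (by omega)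
            _ ≤ M := hM
        refine (hg (M / r) h3 ((Nat.div_le_self M r).trans hM2)).trans ?_
        have h4 : ((M / r : ℕ) : ℝ) ≤ (M : ℝ) / r := Nat.cast_div_le
        calc ((M / r : ℕ) : ℝ) * (2 : ℝ) ^ (-(κ * J)) ≤ (M : ℝ) / r * (2 : ℝ) ^ (-(κ * J)) :=
              mul_le_mul_of_nonneg_right h4 hp.le
          _ = _ := by ring
    _ = (M * (2 : ℝ) ^ (-(κ * J))) * ∑ r ∈ (Icc 1 (2 ^ (J / 2)) : Finset ℕ), (1 : ℝ) / r := by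
        rw [Finset.mul_sum]
    _ ≤ (M * (2 : ℝ) ^ (-(κ * J))) * (J + 1) := by
        apply mul_le_mul_of_nonneg_left _ (by positivity)
        refine (q4_harm (J / 2)).trans ?_
        have : ((J / 2 : ℕ) : ℝ) ≤ J := by exact_mod_cast Nat.div_le_self J 2
        linarith
    _ = _ := by ring

theorem sc_right {δ ε : ℝ} (hδ : 0 < δ) (hε : 0 < ε) : ∃ J0 : ℕ, ∀ J : ℕ, J0 ≤ J →
    ∀ N : ℕ, 2 ^ J ≤ N → N < 2 ^ (J + 1) → ∀ d : ℕ, δ * J ≤ d →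
      ({n | (1 ≤ n ∧ n ≤ N) ∧ ∃ r, 1 ≤ r ∧ r ≤ 2 ^ (J / 2) ∧ r ∣ n ∧ n / r ∈ GR d}.ncard : ℝ) ≤
        ε * (N / J) := by
  obtain ⟨κ, hκ, J1, hg⟩ := smooth_gap hδ
  obtain ⟨J2, hdec⟩ := decay hκ 2 (show 0 < ε / 2 by positivity)
  refine ⟨max (max J1 J2) 1, fun J hJ N hN hN2 d hd => ?_⟩
  have hJ1 : J1 ≤ J := le_trans (le_trans (le_max_left _ _) (le_max_left _ _)) hJ
  have hJ2 : J2 ≤ J := le_trans (le_trans (le_max_right _ _) (le_max_left _ _)) hJ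
  have hJ3 : 1 ≤ J := le_trans (le_max_right _ _) hJ
  have hN3 : N ≤ 2 ^ (J + 2) := hN2.le.trans (Nat.pow_le_pow_right (by norm_num) (by omega))
  have h1 := right_count N (2 ^ (J / 2)) (GR d)
  have h2 := q4_sum hN hN3 (hg J hJ1 d hd)
  have h3 := hdec J hJ2
  have hp : (0 : ℝ) < (2 : ℝ) ^ (-(κ * J)) := by positivity
  have hJr : (1 : ℝ) ≤ J := by exact_mod_cast hJ3
  have hJ0 : (0 : ℝ) < J := by linarith
  calc ({n | (1 ≤ n ∧ n ≤ N) ∧ ∃ r, 1 ≤ r ∧ r ≤ 2 ^ (J / 2) ∧ r ∣ n ∧ n / r ∈ GR d}.ncard : ℝ) ≤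
      ((∑ r ∈ Icc 1 (2 ^ (J / 2)), {x | 1 ≤ x ∧ x ≤ N / r ∧ x ∈ GR d}.ncard : ℕ) : ℝ) := by
        exact_mod_cast h1
    _ = ∑ r ∈ Icc 1 (2 ^ (J / 2)), ({x | 1 ≤ x ∧ x ≤ N / r ∧ x ∈ GR d}.ncard : ℝ) := by
        push_cast
        rfl
    _ ≤ N * ((J + 1) * (2 : ℝ) ^ (-(κ * J))) := h2
    _ ≤ N * (ε / J) := by
        apply mul_le_mul_of_nonneg_left _ (Nat.cast_nonneg N)
        rw [le_div_iff₀ hJ0]
        calc ((J : ℝ) + 1) * (2 : ℝ) ^ (-(κ * J)) * J = ((J + 1) * J) * (2 : ℝ) ^ (-(κ * J)) := by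
              ring
          _ ≤ (2 * (J : ℝ) ^ 2) * (2 : ℝ) ^ (-(κ * J)) := by
              apply mul_le_mul_of_nonneg_right _ hp.le
              nlinarith
          _ = 2 * ((J : ℝ) ^ 2 * (2 : ℝ) ^ (-(κ * J))) := by ring
          _ ≤ ε := by linarith
    _ = _ := by ring

private lemma q4_pow {J m : ℕ} (h : 4 * m ≤ 3 * J) :
    (2 : ℝ) ^ m ≤ 2 ^ J * (2 : ℝ) ^ (-((1 / 4 : ℝ) * J)) := by
  rw [← Real.rpow_natCast 2 m, ← Real.rpow_natCast 2 J, ← Real.rpow_add (by norm_num)]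
  apply Real.rpow_le_rpow_of_exponent_le (by norm_num)
  have : (4 : ℝ) * m ≤ 3 * J := by exact_mod_cast h
  linarith

private lemma q4_one {κ : ℝ} {J d M : ℕ} (hM : 2 ^ J ≤ M) (hM2 : M ≤ 2 ^ (J + 2)) (hd4 : 4 * d ≤ J)
    (hg : ∀ X : ℕ, 2 ^ (J / 2) ≤ X → X ≤ 2 ^ (J + 2) →
      ({x | 1 ≤ x ∧ x ≤ X ∧ x ∈ GR d}.ncard : ℝ) ≤ X * (2 : ℝ) ^ (-(κ * J))) :
    ∑ r ∈ Icc 1 (2 ^ (J / 2)), ({x | 1 ≤ x ∧ x ≤ M / r ∧ x ∈ GLf d}.ncard : ℝ) ≤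
      M * ((J + 1) * (2 : ℝ) ^ (-(κ * J))) + 2 * (2 ^ J * (2 : ℝ) ^ (-((1 / 4 : ℝ) * J))) := by
  have h1 := q4_sum hM hM2 hg
  have h2 : (2 : ℝ) ^ (J / 2) * (2 ^ d + 1) ≤ 2 * (2 ^ J * (2 : ℝ) ^ (-((1 / 4 : ℝ) * J))) := by
    have h3 : (2 : ℝ) ^ (J / 2 + d) ≤ 2 ^ J * (2 : ℝ) ^ (-((1 / 4 : ℝ) * J)) := q4_pow (by omega)
    have h4 : (1 : ℝ) ≤ 2 ^ d := one_le_pow₀ (by norm_num)
    have h5 : (0 : ℝ) < 2 ^ (J / 2) := by positivity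
    rw [pow_add] at h3
    nlinarith
  calc ∑ r ∈ Icc 1 (2 ^ (J / 2)), ({x | 1 ≤ x ∧ x ≤ M / r ∧ x ∈ GLf d}.ncard : ℝ) ≤
      ∑ r ∈ Icc 1 (2 ^ (J / 2)),
        (({x | 1 ≤ x ∧ x ≤ M / r ∧ x ∈ GR d}.ncard : ℝ) + (2 ^ d + 1)) := by
        apply Finset.sum_le_sum
        intro r _
        exact_mod_cast left_of_right (M / r) d
    _ = ∑ r ∈ Icc 1 (2 ^ (J / 2)), ({x | 1 ≤ x ∧ x ≤ M / r ∧ x ∈ GR d}.ncard : ℝ) +
          (2 : ℝ) ^ (J / 2) * (2 ^ d + 1) := by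
        rw [Finset.sum_add_distrib, Finset.sum_const, nsmul_eq_mul, Nat.card_Icc,
          Nat.add_sub_cancel]
        push_cast
        rfl
    _ ≤ _ := add_le_add h1 h2

theorem sc_left {δ ε : ℝ} (hδ : 0 < δ) (hε : 0 < ε) (K : ℕ) : ∃ J0 : ℕ, ∀ J : ℕ, J0 ≤ J →
    ∀ N : ℕ, 2 ^ J ≤ N → N < 2 ^ (J + 1) → ∀ d : ℕ, δ * J ≤ d → 4 * d ≤ J → ∀ j : ℕ, j ≤ J / 2 + 5 →
      ({n | Rg N j n ∧ ∃ k, 1 ≤ k ∧ k ≤ K ∧ ∃ r, 1 ≤ r ∧ r ≤ 2 ^ (J / 2) ∧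
        r ∣ n + k * P n ∧ (n + k * P n) / r ∈ GLf d}.ncard : ℝ) ≤ ε * (N / J) := by
  obtain ⟨κ, hκ, J1, hg⟩ := smooth_gap hδ
  obtain ⟨J2, hdec⟩ := decay hκ 3 (show 0 < ε / (16 * (K + 1)) by positivity)
  obtain ⟨J3, hdec2⟩ := decay (show (0 : ℝ) < 1 / 4 by norm_num) 2
    (show 0 < ε / (8 * (K + 1)) by positivity)
  refine ⟨max (max J1 J2) (max J3 (2 * K + 12)), fun J hJ N hN hN2 d hd hd4 j hj2 => ?_⟩
  have hJ1 : J1 ≤ J := le_trans (le_trans (le_max_left _ _) (le_max_left _ _)) hJ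
  have hJ2 : J2 ≤ J := le_trans (le_trans (le_max_right _ _) (le_max_left _ _)) hJ
  have hJ3 : J3 ≤ J := le_trans (le_trans (le_max_left _ _) (le_max_right _ _)) hJ
  have hJ4 : 2 * K + 12 ≤ J := le_trans (le_trans (le_max_right _ _) (le_max_right _ _)) hJ
  have hJr : (2 : ℝ) ≤ J := by
    have : 2 ≤ J := by omega
    exact_mod_cast this
  have h3 := hdec J hJ2
  have h4 := hdec2 J hJ3
  set p : ℝ := (2 : ℝ) ^ (-(κ * J)) with hpdef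
  set q : ℝ := (2 : ℝ) ^ (-((1 / 4 : ℝ) * J)) with hqdef
  have hp : 0 < p := by positivity
  have hq : 0 < q := by positivity
  have hNr : (2 : ℝ) ^ J ≤ N := by exact_mod_cast hN
  have hone : ({n | Rg N j n ∧ ∃ k, 1 ≤ k ∧ k ≤ K ∧
      ∃ r, 1 ≤ r ∧ r ≤ 2 ^ (J / 2) ∧ r ∣ n + k * P n ∧ (n + k * P n) / r ∈ GLf d}.ncard : ℝ) ≤
      K * (2 * J) * (2 * N * (2 * J * p) + 2 * (N * q)) := by
    have hM0 : K * 2 ^ (j + 1) ≤ 2 ^ J := by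
      have h5 : K ≤ 2 ^ K := Nat.lt_two_pow_self.le
      calc K * 2 ^ (j + 1) ≤ 2 ^ K * 2 ^ (J / 2 + 6) :=
            Nat.mul_le_mul h5 (Nat.pow_le_pow_right (by norm_num) (by omega))
        _ = 2 ^ (K + (J / 2 + 6)) := by rw [pow_add 2 K]
        _ ≤ 2 ^ J := Nat.pow_le_pow_right (by norm_num) (by omega)
    have hM1 : N + K * 2 ^ (j + 1) ≤ 2 * N := by omega
    have hM2 : N + K * 2 ^ (j + 1) < 2 ^ (J + 2) := by
      have : 2 ^ (J + 2) = 2 * 2 ^ (J + 1) := by ring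
      omega
    have h6 := left_count N j K (2 ^ (J / 2)) (GLf d)
    have h7 := q4_one (M := N + K * 2 ^ (j + 1)) (by omega) hM2.le hd4 (hg J hJ1 d hd)
    set M := N + K * 2 ^ (j + 1) with hMdef
    have hlog : Nat.log 2 M + 1 ≤ J + 2 := by
      have : Nat.log 2 M < J + 2 := Nat.log_lt_of_lt_pow (by omega) hM2
      omega
    have hMr : (M : ℝ) ≤ 2 * N := by exact_mod_cast hM1
    have h8 : (M : ℝ) * ((J + 1) * p) + 2 * (2 ^ J * q) ≤ 2 * N * (2 * J * p) + 2 * (N * q) := by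
      apply add_le_add
      · apply mul_le_mul hMr _ (by positivity) (by positivity)
        apply mul_le_mul_of_nonneg_right _ hp.le
        linarith
      · apply mul_le_mul_of_nonneg_left _ (by norm_num)
        exact mul_le_mul_of_nonneg_right hNr hq.le
    calc _ ≤ ((K * (Nat.log 2 M + 1) *
          ∑ r ∈ Icc 1 (2 ^ (J / 2)), {x | 1 ≤ x ∧ x ≤ M / r ∧ x ∈ GLf d}.ncard : ℕ) : ℝ) := by
          exact_mod_cast h6
      _ = (K : ℝ) * ((Nat.log 2 M + 1 : ℕ) : ℝ) *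
          ∑ r ∈ Icc 1 (2 ^ (J / 2)), ({x | 1 ≤ x ∧ x ≤ M / r ∧ x ∈ GLf d}.ncard : ℝ) := by
          push_cast
          rfl
      _ ≤ K * (2 * J) * (2 * N * (2 * J * p) + 2 * (N * q)) := by
          apply mul_le_mul _ (h7.trans h8) (Finset.sum_nonneg fun _ _ => Nat.cast_nonneg _)
            (by positivity)
          apply mul_le_mul_of_nonneg_left _ (Nat.cast_nonneg K)
          calc ((Nat.log 2 M + 1 : ℕ) : ℝ) ≤ ((J + 2 : ℕ) : ℝ) := by exact_mod_cast hlog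
            _ ≤ 2 * J := by
                push_cast
                linarith
  refine hone.trans ?_
  have hKr : (0 : ℝ) ≤ K := Nat.cast_nonneg K
  have hJ0 : (0 : ℝ) < J := by linarith
  rw [← mul_div_assoc, le_div_iff₀ hJ0]
  calc K * (2 * J) * (2 * N * (2 * J * p) + 2 * (N * q)) * J
      = N * (K * (8 * ((J : ℝ) ^ 3 * p) + 4 * ((J : ℝ) ^ 2 * q))) := by ring
    _ ≤ N * ε := by
        apply mul_le_mul_of_nonneg_left _ (Nat.cast_nonneg N)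
        calc (K : ℝ) * (8 * ((J : ℝ) ^ 3 * p) + 4 * ((J : ℝ) ^ 2 * q)) ≤
            K * (8 * (ε / (16 * (K + 1))) + 4 * (ε / (8 * (K + 1)))) := by
              apply mul_le_mul_of_nonneg_left _ hKr
              linarith
          _ = ε * (K / (K + 1)) := by
              field_simp
              ring
          _ ≤ ε * 1 := by
              apply mul_le_mul_of_nonneg_left _ hε.le
              rw [div_le_one (by positivity)]
              linarith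
          _ = ε := mul_one ε
    _ = _ := by ring

end Pool.Agent.TNX
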