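import Pool.Agent.TNX.Un
import Pool.Agent.TNX.Cnt

/-!
# TNX/Q5: as R5, one range (difficulty 3)

As `reg_exc` (file `R5.lean`), but for a single `j` with `η J ≤ j ≤ J / 2 + 5` and with the bound `ε N / J`
(`2 ^ (4 d) 2 ^ j ≤ 2 ^ (3 j / 2) ≤ 2 ^ (3 J / 4 + 8)`).
-/

namespace Pool.Agent.TNX

open Pool.Agent.TN Finset

private lemma q5_union (I : Finset ℕ) (S : ℕ → Set ℕ) (T : Set ℕ)
    (hT : T ⊆ ⋃ i ∈ I, S i) (hfin : ∀ i ∈ I, (S i).Finite) (c : ℝ)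
    (hf : ∀ i ∈ I, ((S i).ncard : ℝ) ≤ c) : (T.ncard : ℝ) ≤ I.card * c := by
  have hF : (⋃ i ∈ I, S i).Finite := Set.Finite.biUnion (Finset.finite_toSet I) hfin
  have h1 : T.ncard ≤ ∑ i ∈ I, (S i).ncard :=
    (Set.ncard_le_ncard hT hF).trans (Finset.set_ncard_biUnion_le I S)
  calc (T.ncard : ℝ) ≤ ((∑ i ∈ I, (S i).ncard : ℕ) : ℝ) := by exact_mod_cast h1
    _ = ∑ i ∈ I, ((S i).ncard : ℝ) := by push_cast; rfl
    _ ≤ ∑ i ∈ I, c := Finset.sum_le_sum hf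
    _ = _ := by rw [Finset.sum_const, nsmul_eq_mul]

private lemma q5_pow {J m : ℕ} (h : 4 * m ≤ 3 * J + 32) :
    (2 : ℝ) ^ m ≤ 256 * (2 ^ J * (2 : ℝ) ^ (-((1 / 4 : ℝ) * J))) := by
  have h256 : (256 : ℝ) = (2 : ℝ) ^ (8 : ℝ) := by
    rw [show (8 : ℝ) = ((8 : ℕ) : ℝ) by norm_num, Real.rpow_natCast]
    norm_num
  rw [h256, ← Real.rpow_natCast 2 m, ← Real.rpow_natCast 2 J, ← Real.rpow_add (by norm_num),
    ← Real.rpow_add (by norm_num)]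
  apply Real.rpow_le_rpow_of_exponent_le (by norm_num)
  have : (4 : ℝ) * m ≤ 3 * J + 32 := by exact_mod_cast h
  linarith

/-- The bound for one `j` and one `k`. -/
private lemma q5_one {δ : ℝ} {N J j k K d : ℕ} (hk : 1 ≤ k) (hkK : k ≤ K) (hN : 2 ^ J ≤ N)
    (hd : δ * J ≤ d) (hj : 8 * d ≤ j) (hjJ : j ≤ J / 2 + 5) :
    ({n | Rg N j n ∧ Exc (2 ^ d) n (n + k * P n)}.ncard : ℝ) ≤
      N * (14 * (2 : ℝ) ^ (-(δ * J)) + (3 * K + 11) * (256 * (2 : ℝ) ^ (-((1 / 4 : ℝ) * J)))) := by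
  have h0 := exc_count N j k (2 ^ (2 * d)) (2 ^ d) hk (by positivity)
    (Nat.pow_le_pow_right (by norm_num) (by omega))
  have hNr : (2 : ℝ) ^ J ≤ N := by exact_mod_cast hN
  have hN0 : (0 : ℝ) ≤ N := Nat.cast_nonneg N
  set p : ℝ := (2 : ℝ) ^ (-(δ * J)) with hpdef
  set q : ℝ := 256 * (2 : ℝ) ^ (-((1 / 4 : ℝ) * J)) with hqdef
  have hp : 0 < p := by positivity
  have hq : 0 < q := by positivity
  have hdp : ((2 : ℝ) ^ d)⁻¹ ≤ p := by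
    rw [← Real.rpow_natCast 2 d, ← Real.rpow_neg (by norm_num), hpdef]
    apply Real.rpow_le_rpow_of_exponent_le (by norm_num)
    linarith
  have hpow : ∀ m : ℕ, 4 * m ≤ 3 * J + 32 → (2 : ℝ) ^ m ≤ N * q := by
    intro m hm
    have h1 := mul_le_mul_of_nonneg_right hNr hq.le
    refine (q5_pow hm).trans (le_trans (le_of_eq ?_) h1)
    rw [hqdef]
    ring
  have hone : (1 : ℝ) ≤ 2 ^ d := one_le_pow₀ (by norm_num)
  have hd0 : (0 : ℝ) < 2 ^ d := by positivity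
  -- the first term
  have hA : ((8 * (2 ^ (2 * d)) ^ 2 * 2 ^ j * (N / (2 ^ j) ^ 2 + 1) : ℕ) : ℝ) ≤
      N * (8 * p + 8 * q) := by
    have h1 : ((N / (2 ^ j) ^ 2 : ℕ) : ℝ) ≤ (N : ℝ) / ((2 : ℝ) ^ j) ^ 2 := by
      refine Nat.cast_div_le.trans ?_
      push_cast
      rfl
    have h2 : ((2 : ℝ) ^ (2 * d)) ^ 2 * 2 ^ j * ((N : ℝ) / ((2 : ℝ) ^ j) ^ 2) ≤ N * p := by
      have h3 : ((2 : ℝ) ^ (2 * d)) ^ 2 * 2 ^ d ≤ 2 ^ j := by
        rw [← pow_mul, ← pow_add]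
        exact pow_le_pow_right₀ (by norm_num) (by omega)
      have hj0 : (0 : ℝ) < 2 ^ j := by positivity
      have h4 : ((2 : ℝ) ^ (2 * d)) ^ 2 / 2 ^ j ≤ ((2 : ℝ) ^ d)⁻¹ := by
        rw [div_le_iff₀ hj0, inv_mul_eq_div, le_div_iff₀ hd0]
        exact h3
      calc ((2 : ℝ) ^ (2 * d)) ^ 2 * 2 ^ j * ((N : ℝ) / ((2 : ℝ) ^ j) ^ 2) =
          N * (((2 : ℝ) ^ (2 * d)) ^ 2 / 2 ^ j) := by
            field_simp
        _ ≤ N * p := mul_le_mul_of_nonneg_left (h4.trans hdp) hN0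
    have h5 : ((2 : ℝ) ^ (2 * d)) ^ 2 * 2 ^ j ≤ N * q := by
      rw [← pow_mul, ← pow_add]
      exact hpow _ (by omega)
    push_cast
    calc (8 : ℝ) * (2 ^ (2 * d)) ^ 2 * 2 ^ j * (((N / (2 ^ j) ^ 2 : ℕ) : ℝ) + 1) ≤
        8 * (2 ^ (2 * d)) ^ 2 * 2 ^ j * ((N : ℝ) / ((2 : ℝ) ^ j) ^ 2 + 1) := by
          apply mul_le_mul_of_nonneg_left _ (by positivity)
          linarith
      _ = 8 * (((2 : ℝ) ^ (2 * d)) ^ 2 * 2 ^ j * ((N : ℝ) / ((2 : ℝ) ^ j) ^ 2)) +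
          8 * (((2 : ℝ) ^ (2 * d)) ^ 2 * 2 ^ j) := by ring
      _ ≤ 8 * (N * p) + 8 * (N * q) := by linarith
      _ = _ := by ring
  -- the second term
  have hB : (((2 ^ d + 2) * (N / 2 ^ (2 * d) + (N + k * 2 ^ (j + 1)) / 2 ^ (2 * d) + 1) : ℕ) : ℝ) ≤
      N * (6 * p + (3 * K + 3) * q) := by
    have hs0 : (0 : ℝ) < 2 ^ (2 * d) := by positivity
    have h1 : ((N / 2 ^ (2 * d) : ℕ) : ℝ) ≤ (N : ℝ) / 2 ^ (2 * d) := by
      refine Nat.cast_div_le.trans ?_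
      push_cast
      rfl
    have h2 : (((N + k * 2 ^ (j + 1)) / 2 ^ (2 * d) : ℕ) : ℝ) ≤
        (N : ℝ) / 2 ^ (2 * d) + K * 2 ^ (j + 1) := by
      refine Nat.cast_div_le.trans ?_
      push_cast
      rw [add_div]
      have h3 : ((k : ℝ) * 2 ^ (j + 1)) / 2 ^ (2 * d) ≤ K * 2 ^ (j + 1) := by
        have h4 : ((k : ℝ) * 2 ^ (j + 1)) / 2 ^ (2 * d) ≤ (k : ℝ) * 2 ^ (j + 1) :=
          div_le_self (by positivity) (one_le_pow₀ (by norm_num))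
        have h5 : (k : ℝ) * 2 ^ (j + 1) ≤ K * 2 ^ (j + 1) :=
          mul_le_mul_of_nonneg_right (by exact_mod_cast hkK) (by positivity)
        linarith
      linarith
    have h6 : (2 : ℝ) ^ d * (2 ^ (j + 1)) ≤ N * q := by
      rw [← pow_add]
      exact hpow _ (by omega)
    have h7 : (2 : ℝ) ^ d ≤ N * q := hpow _ (by omega)
    have h8 : (2 : ℝ) ^ d * ((N : ℝ) / 2 ^ (2 * d)) ≤ N * p := by
      calc (2 : ℝ) ^ d * ((N : ℝ) / 2 ^ (2 * d)) = N * ((2 : ℝ) ^ d)⁻¹ := by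
            rw [two_mul, pow_add]
            field_simp
        _ ≤ N * p := mul_le_mul_of_nonneg_left hdp hN0
    have hK0 : (0 : ℝ) ≤ K := Nat.cast_nonneg K
    push_cast
    calc ((2 : ℝ) ^ d + 2) * (((N / 2 ^ (2 * d) : ℕ) : ℝ) +
          (((N + k * 2 ^ (j + 1)) / 2 ^ (2 * d) : ℕ) : ℝ) + 1) ≤
        (3 * 2 ^ d) * ((N : ℝ) / 2 ^ (2 * d) + ((N : ℝ) / 2 ^ (2 * d) + K * 2 ^ (j + 1)) + 1) := by
          apply mul_le_mul _ _ (by positivity) (by positivity)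
          · linarith
          · linarith
      _ = 6 * ((2 : ℝ) ^ d * ((N : ℝ) / 2 ^ (2 * d))) + 3 * (K * (2 ^ d * 2 ^ (j + 1))) +
          3 * 2 ^ d := by ring
      _ ≤ 6 * (N * p) + 3 * (K * (N * q)) + 3 * (N * q) := by
          have h9 := mul_le_mul_of_nonneg_left h6 hK0
          linarith
      _ = _ := by ring
  calc ({n | Rg N j n ∧ Exc (2 ^ d) n (n + k * P n)}.ncard : ℝ) ≤
      ((8 * (2 ^ (2 * d)) ^ 2 * 2 ^ j * (N / (2 ^ j) ^ 2 + 1) +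
        (2 ^ d + 2) * (N / 2 ^ (2 * d) + (N + k * 2 ^ (j + 1)) / 2 ^ (2 * d) + 1) : ℕ) : ℝ) := by
        exact_mod_cast h0
    _ = ((8 * (2 ^ (2 * d)) ^ 2 * 2 ^ j * (N / (2 ^ j) ^ 2 + 1) : ℕ) : ℝ) +
        (((2 ^ d + 2) * (N / 2 ^ (2 * d) + (N + k * 2 ^ (j + 1)) / 2 ^ (2 * d) + 1) : ℕ) : ℝ) := by
        rw [Nat.cast_add]
    _ ≤ N * (8 * p + 8 * q) + N * (6 * p + (3 * K + 3) * q) := add_le_add hA hB
    _ = _ := by ring

theorem sc_exc {η δ ε : ℝ} (hη : 0 < η) (hδ : 0 < δ) (hε : 0 < ε) (K : ℕ) : ∃ J0 : ℕ,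
    ∀ J : ℕ, J0 ≤ J → ∀ N : ℕ, 2 ^ J ≤ N → N < 2 ^ (J + 1) → ∀ d : ℕ, δ * J ≤ d →
      8 * (d : ℝ) ≤ η * J → ∀ j : ℕ, η * J ≤ j → j ≤ J / 2 + 5 →
      ({n | Rg N j n ∧ ∃ k, 1 ≤ k ∧ k ≤ K ∧
        Exc (2 ^ d) n (n + k * P n)}.ncard : ℝ) ≤ ε * (N / J) := by
  have hK0 : (0 : ℝ) ≤ K := Nat.cast_nonneg K
  obtain ⟨J1, hdec⟩ := decay hδ 1 (show 0 < ε / (28 * (K + 1)) by positivity)
  obtain ⟨J2, hdec2⟩ := decay (show (0 : ℝ) < 1 / 4 by norm_num) 1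
    (show 0 < ε / (2 * (K + 1) * (3 * K + 11) * 256) by positivity)
  refine ⟨max (max J1 J2) 1, fun J hJ N hN hN2 d hd hd8 j hj1 hj2 => ?_⟩
  have h1 := hdec J (((le_max_left _ _).trans (le_max_left _ _)).trans hJ)
  have h2 := hdec2 J (((le_max_right _ _).trans (le_max_left _ _)).trans hJ)
  have hJ0 : (0 : ℝ) < J := by
    have : 1 ≤ J := (le_max_right _ _).trans hJ
    exact_mod_cast this
  rw [pow_one] at h1 h2
  set c : ℝ := N * (14 * (2 : ℝ) ^ (-(δ * J)) +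
    (3 * K + 11) * (256 * (2 : ℝ) ^ (-((1 / 4 : ℝ) * J)))) with hc
  have hc0 : 0 ≤ c := by positivity
  have hdj : 8 * d ≤ j := by
    have h3 : (8 : ℝ) * d ≤ j := hd8.trans hj1
    exact_mod_cast h3
  have h4 := q5_union (Icc 1 K) (fun k => {n | Rg N j n ∧ Exc (2 ^ d) n (n + k * P n)})
    {n | Rg N j n ∧ ∃ k, 1 ≤ k ∧ k ≤ K ∧ Exc (2 ^ d) n (n + k * P n)}
    (by
      rintro n ⟨hn, k, hk1, hk2, hk3⟩
      exact Set.mem_biUnion (show k ∈ Icc 1 K from Finset.mem_Icc.mpr ⟨hk1, hk2⟩) ⟨hn, hk3⟩)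
    (by
      intro k _
      exact (Set.finite_Iic N).subset (fun n hn => hn.1.1.2)) c
    (by
      intro k hk
      obtain ⟨hk1, hk2⟩ := Finset.mem_Icc.mp hk
      exact q5_one hk1 hk2 hN hd hdj hj2)
  rw [Nat.card_Icc, Nat.add_sub_cancel] at h4
  refine h4.trans ?_
  rw [← mul_div_assoc, le_div_iff₀ hJ0]
  calc K * c * J = N * (K * (14 * (J * (2 : ℝ) ^ (-(δ * J))) +
          (3 * K + 11) * 256 * (J * (2 : ℝ) ^ (-((1 / 4 : ℝ) * J))))) := by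
        rw [hc]
        ring
    _ ≤ N * ε := by
        apply mul_le_mul_of_nonneg_left _ (Nat.cast_nonneg N)
        calc K * (14 * (J * (2 : ℝ) ^ (-(δ * J))) +
              (3 * K + 11) * 256 * (J * (2 : ℝ) ^ (-((1 / 4 : ℝ) * J)))) ≤
            K * (14 * (ε / (28 * (K + 1))) +
              (3 * K + 11) * 256 * (ε / (2 * (K + 1) * (3 * K + 11) * 256))) := by
              apply mul_le_mul_of_nonneg_left _ hK0
              apply add_le_add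
              · exact mul_le_mul_of_nonneg_left h1 (by norm_num)
              · exact mul_le_mul_of_nonneg_left h2 (by positivity)
          _ = ε * (K / (K + 1)) := by
              field_simp
              ring
          _ ≤ ε * 1 := by
              apply mul_le_mul_of_nonneg_left _ hε.le
              rw [div_le_one (by positivity)]
              linarith
          _ = ε := mul_one ε
    _ = _ := by ring

end Pool.Agent.TNX
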