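import Pool.Agent.TN.Tail

/-!
# TNX/Defs: `t_n = k(n) P(n)` for almost all `n`: definitions

`kk n` is the least `k ≥ 1` such that `n / P n + k` has no prime factor larger than `P n`.
`vv n` is the exponent vector of `n` modulo 2 (one coordinate for every natural number `q`,
zero unless `q` is prime), `Sp a b` is the span of the vectors of the integers in `(a, b]`,
`Kz z` the space of the vectors supported on `q ≤ z`.
`Exc z n b`: the vector of `n` is not in `Sp n b`, but it is there up to a vector supported on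
`q ≤ z`.  `Rg N j n`: `1 ≤ n ≤ N` and `2 ^ j < P n ≤ 2 ^ (j + 1)`.
-/

namespace Pool.Agent.TNX

open Pool.Agent.TN Finset

/-- The least `k ≥ 1` such that `n / P n + k` has no prime factor larger than `P n`. -/
noncomputable def kk (n : ℕ) : ℕ := sInf {k : ℕ | 0 < k ∧ P (n / P n + k) ≤ P n}

/-- The exponent vector modulo 2. -/
noncomputable def vv (n : ℕ) : ℕ → ZMod 2 := fun q => ((n.factorization q : ℕ) : ZMod 2)

/-- The vectors supported on `q ≤ z`. -/
def Kz (z : ℕ) : Submodule (ZMod 2) (ℕ → ZMod 2) where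
  carrier := {x | ∀ q, z < q → x q = 0}
  add_mem' := by
    intro x y hx hy q hq
    rw [Pi.add_apply, hx q hq, hy q hq, add_zero]
  zero_mem' := by
    intro q _
    rfl
  smul_mem' := by
    intro c x hx q hq
    rw [Pi.smul_apply, hx q hq, smul_zero]

theorem mem_Kz {z : ℕ} {x : ℕ → ZMod 2} : x ∈ Kz z ↔ ∀ q, z < q → x q = 0 := Iff.rfl

/-- The span of the vectors of the integers in `(a, b]`. -/
noncomputable def Sp (a b : ℕ) : Submodule (ZMod 2) (ℕ → ZMod 2) :=
  Submodule.span (ZMod 2) (vv '' Set.Ioc a b)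

/-- `n` (with right end `b`) is exceptional. -/
def Exc (z n b : ℕ) : Prop := vv n ∉ Sp n b ∧ ∃ x ∈ Sp n b, vv n + x ∈ Kz z

/-- Dyadic range of the largest prime factor. -/
def Rg (N j n : ℕ) : Prop := (1 ≤ n ∧ n ≤ N) ∧ 2 ^ j < P n ∧ P n ≤ 2 ^ (j + 1)

theorem kk_spec {n : ℕ} (hn : 2 ≤ n) : 0 < kk n ∧ P (n / P n + kk n) ≤ P n := by
  have h : (kk n) ∈ {k : ℕ | 0 < k ∧ P (n / P n + k) ≤ P n} := by
    apply Nat.sInf_mem
    obtain ⟨t, ht⟩ : ∃ t : ℕ, n / P n < 2 ^ t := ⟨n / P n, Nat.lt_two_pow_self⟩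
    refine ⟨2 ^ t - n / P n, by omega, ?_⟩
    rw [Nat.add_sub_cancel' ht.le]
    have h2 : P (2 ^ t) ≤ 2 := by
      unfold P
      apply Finset.sup_le
      intro p hp
      have hpp := Nat.prime_of_mem_primeFactors hp
      have hpd := Nat.dvd_of_mem_primeFactors hp
      have := (Nat.prime_dvd_prime_iff_eq hpp Nat.prime_two).mp (hpp.dvd_of_dvd_pow hpd)
      simp [this]
    exact h2.trans (P_prime hn).two_le
  exact h

theorem kk_le {n k : ℕ} (hk : 0 < k) (h : P (n / P n + k) ≤ P n) : kk n ≤ k :=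
  Nat.sInf_le (show k ∈ {k : ℕ | 0 < k ∧ P (n / P n + k) ≤ P n} from ⟨hk, h⟩)

theorem lt_of_lt_kk {n j : ℕ} (hj : 0 < j) (h : j < kk n) : P n < P (n / P n + j) := by
  by_contra hle
  exact absurd (kk_le hj (not_lt.mp hle)) (by omega)

theorem Rg.two_le {N j n : ℕ} (h : Rg N j n) : 2 ≤ n := by
  obtain ⟨⟨h1, _⟩, h2, _⟩ := h
  by_contra hlt
  have : n = 1 := by omega
  subst this
  have : P 1 = 0 := by simp [P]
  omega

theorem Rg.prime {N j n : ℕ} (h : Rg N j n) : (P n).Prime := P_prime h.two_le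

theorem Rg.dvd {N j n : ℕ} (h : Rg N j n) : P n ∣ n := P_dvd h.two_le

theorem Rg.mul_div {N j n : ℕ} (h : Rg N j n) : P n * (n / P n) = n := Nat.mul_div_cancel' h.dvd

end Pool.Agent.TNX
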