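import Pool.Agent.TNX.Lin

/-!
# TNX/Exc: the number of isolated exceptional `n` (difficulty 3)

For `a ≤ b` put `W a b = span (vv '' Set.Icc a b) ⊓ Kz z` (a finite-dimensional space: span of finitely many vectors) and
`D a b = finrank (W a b)`.
1. `D a b ≤ z + 1`: the restriction of functions to `{0, .., z}` (`LinearMap.funLeft` or `x ↦ fun i : Fin (z + 1) => x i`) is
   injective on `Kz z` (`LinearMap.finrank_le_finrank_of_injective`).
2. If `Exc z n b`, `n < n'` and `b' ≤ b` then `D n' b' < D n b`: `W n' b' ≤ W n b` (monotone), and the inclusion is strict: take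
   `x ∈ Sp n b` with `vv n + x ∈ Kz z`; then `vv n + x ∈ W n b` (`Sp n b` is the span of `Ioc n b ⊆ Icc n b`), but
   `vv n + x ∉ span (vv '' Icc n' b')`, otherwise `vv n = (vv n + x) - x ∈ Sp n b` (as `Icc n' b' ⊆ Ioc n b`).
   `Submodule.finrank_lt_finrank_of_lt` (finite-dimensionality of `W n b`).
3. The map `E → ℕ × ℕ`, `n ↦ (D n (f n), n / s + f n / s)` is injective on `E`: let `n < n'` have the same image.
   If `f n' ≤ f n`, then by 2. `D n' (f n') < D n (f n)`, contradiction.  So `f n < f n'`, hence `n / s ≤ n' / s` and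
   `f n / s ≤ f n' / s`, equal sums: both equal, `hiso` gives `n = n'`.
4. The image lies in `range (z + 2) ×ˢ range (N / s + M / s + 1)`: `Finset.card_le_card_of_injOn`.
-/

namespace Pool.Agent.TNX

open Pool.Agent.TN Finset

/-- the small vectors in the span of an interval -/
noncomputable def exc_W (z a b : ℕ) : Submodule (ZMod 2) (ℕ → ZMod 2) :=
  Submodule.span (ZMod 2) (vv '' Set.Icc a b) ⊓ Kz z

theorem exc_fin (z a b : ℕ) : FiniteDimensional (ZMod 2) (exc_W z a b) := by
  have : FiniteDimensional (ZMod 2) (Submodule.span (ZMod 2) (vv '' Set.Icc a b)) :=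
    FiniteDimensional.span_of_finite _ ((Set.finite_Icc a b).image _)
  exact Submodule.finiteDimensional_inf_left _ _

theorem exc_dim (z a b : ℕ) : Module.finrank (ZMod 2) (exc_W z a b) ≤ z + 1 := by
  let g : exc_W z a b →ₗ[ZMod 2] (Fin (z + 1) → ZMod 2) :=
    (LinearMap.funLeft (ZMod 2) (ZMod 2) (fun i : Fin (z + 1) => (i : ℕ))).comp (exc_W z a b).subtype
  have hg : Function.Injective g := by
    rw [← LinearMap.ker_eq_bot, LinearMap.ker_eq_bot']
    intro x hx
    apply Subtype.ext
    funext q
    by_cases hq : q ≤ z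
    · exact congrFun hx ⟨q, by omega⟩
    · exact x.2.2 q (by omega)
  have h := LinearMap.finrank_le_finrank_of_injective hg
  rwa [Module.finrank_fin_fun] at h

theorem exc_lt {z n b n' b' : ℕ} (h : Exc z n b) (hn : n < n') (hb : b' ≤ b) (hnb : n < b) :
    Module.finrank (ZMod 2) (exc_W z n' b') < Module.finrank (ZMod 2) (exc_W z n b) := by
  obtain ⟨h1, x, hx, hxz⟩ := h
  have := exc_fin z n b
  apply Submodule.finrank_lt_finrank_of_lt
  refine lt_of_le_of_ne ?_ ?_
  · exact inf_le_inf_right _ (Submodule.span_mono (Set.image_mono (Set.Icc_subset_Icc hn.le hb)))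
  · intro heq
    have hsub : Sp n b ≤ Submodule.span (ZMod 2) (vv '' Set.Icc n b) :=
      Submodule.span_mono (Set.image_mono Set.Ioc_subset_Icc_self)
    have hmem : vv n + x ∈ exc_W z n b := by
      refine ⟨Submodule.add_mem _ (Submodule.subset_span ⟨n, ⟨le_rfl, hnb.le⟩, rfl⟩) (hsub hx), hxz⟩
    rw [← heq] at hmem
    have hsub' : Set.Icc n' b' ⊆ Set.Ioc n b := fun m hm => ⟨hn.trans_le hm.1, hm.2.trans hb⟩
    have h2 : vv n + x ∈ Sp n b := Submodule.span_mono (Set.image_mono hsub') hmem.1
    apply h1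
    have h3 := Submodule.sub_mem _ h2 hx
    rwa [add_sub_cancel_right] at h3

theorem exc_card (N M z s : ℕ) (E : Finset ℕ) (f : ℕ → ℕ)
    (hE : ∀ n ∈ E, n ≤ N ∧ n < f n ∧ f n ≤ M ∧ Exc z n (f n))
    (hiso : ∀ n ∈ E, ∀ n' ∈ E, n / s = n' / s → f n / s = f n' / s → n = n') :
    E.card ≤ (z + 2) * (N / s + M / s + 1) := by
  classical
  have key : ∀ n ∈ E, ∀ n' ∈ E, n < n' →
      ¬ ((Module.finrank (ZMod 2) (exc_W z n (f n)), n / s + f n / s) =
        (Module.finrank (ZMod 2) (exc_W z n' (f n')), n' / s + f n' / s)) := by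
    intro n hn n' hn' hlt heq
    have h1 := congrArg Prod.fst heq
    have h2 := congrArg Prod.snd heq
    simp only at h1 h2
    rcases Nat.lt_or_ge (f n) (f n') with h | h
    · have e1 := Nat.div_le_div_right (c := s) hlt.le
      have e2 := Nat.div_le_div_right (c := s) h.le
      exact hlt.ne (hiso n hn n' hn' (by omega) (by omega))
    · have := exc_lt (hE n hn).2.2.2 hlt h (hE n hn).2.1
      omega
  have hc := Finset.card_le_card_of_injOn (s := E) (t := Finset.range (z + 2) ×ˢ Finset.range (N / s + M / s + 1))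
    (fun n => (Module.finrank (ZMod 2) (exc_W z n (f n)), n / s + f n / s)) (by
      intro n hn
      have hn' : n ∈ E := hn
      obtain ⟨a1, a2, a3, a4⟩ := hE n hn'
      have e1 := Nat.div_le_div_right (c := s) a1
      have e2 := Nat.div_le_div_right (c := s) a3
      have e3 := exc_dim z n (f n)
      simp only [Finset.coe_product, Set.mem_prod, Finset.mem_coe, Finset.mem_range]
      constructor <;> omega) (by
      intro n hn n' hn' heq
      have hn1 : n ∈ E := hn
      have hn2 : n' ∈ E := hn'
      rcases Nat.lt_trichotomy n n' with h | h | h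
      · exact absurd heq (key n hn1 n' hn2 h)
      · exact h
      · exact absurd heq.symm (key n' hn2 n hn1 h))
  rwa [Finset.card_product, Finset.card_range, Finset.card_range] at hc

end Pool.Agent.TNX
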