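import Pool.Agent.TNX.Defs

/-!
# TNX/Fib: counting by the largest prime factor (difficulty 2)

* `fib`: `{n | Rg N j n ∧ Q (P n) (n / P n)}` is contained in the union over the primes `p ∈ (2 ^ j, 2 ^ (j + 1)]` of the images of
  `{m | 1 ≤ m ∧ m ≤ N / p ∧ P m ≤ p ∧ Q p m}` under `m ↦ p * m` (`n = p m`, `P m ≤ P n`: `m.primeFactors ⊆ n.primeFactors`).
* `inv_block`: at most `π (2 ^ (j + 1)) ≤ 6 * 2 ^ (j + 1) / (j + 1)` primes (`TN.card_primesLE_two_pow`), each `1 / p ≤ 1 / 2 ^ j`.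
* `inv_range`: union of blocks (induction on `b`).
-/

namespace Pool.Agent.TNX

open Pool.Agent.TN Finset

/-- The primes in `(2 ^ a, 2 ^ b]`. -/
noncomputable def Pr (a b : ℕ) : Finset ℕ := (Ioc (2 ^ a) (2 ^ b)).filter Nat.Prime

theorem mem_Pr {a b p : ℕ} : p ∈ Pr a b ↔ (2 ^ a < p ∧ p ≤ 2 ^ b) ∧ p.Prime := by
  unfold Pr
  rw [Finset.mem_filter, Finset.mem_Ioc]

theorem fib (N j : ℕ) (Q : ℕ → ℕ → Prop) (B : ℕ → ℝ)
    (hB : ∀ p ∈ Pr j (j + 1), ({m | 1 ≤ m ∧ m ≤ N / p ∧ P m ≤ p ∧ Q p m}.ncard : ℝ) ≤ B p) :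
    ({n | Rg N j n ∧ Q (P n) (n / P n)}.ncard : ℝ) ≤ ∑ p ∈ Pr j (j + 1), B p := by
  have hfinS : ∀ p, {m | 1 ≤ m ∧ m ≤ N / p ∧ P m ≤ p ∧ Q p m}.Finite := by
    intro p
    refine (Finset.finite_toSet (Finset.Icc 1 (N / p))).subset ?_
    rintro m ⟨h1, h2, _⟩
    exact Finset.mem_coe.2 (Finset.mem_Icc.2 ⟨h1, h2⟩)
  have hsub : {n | Rg N j n ∧ Q (P n) (n / P n)} ⊆
      ⋃ p ∈ Pr j (j + 1), (fun m => p * m) '' {m | 1 ≤ m ∧ m ≤ N / p ∧ P m ≤ p ∧ Q p m} := by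
    rintro n ⟨hR, hQ⟩
    have hmem : P n ∈ Pr j (j + 1) := mem_Pr.2 ⟨hR.2, hR.prime⟩
    refine Set.mem_biUnion hmem ⟨n / P n, ⟨?_, ?_, ?_, hQ⟩, hR.mul_div⟩
    · rcases Nat.eq_zero_or_pos (n / P n) with h | h
      · have h1 := hR.mul_div
        rw [h, mul_zero] at h1
        have h2 := hR.two_le
        omega
      · exact h
    · exact Nat.div_le_div_right hR.1.2
    · have h1 : n / P n ∣ n := ⟨P n, by rw [mul_comm]; exact hR.mul_div.symm⟩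
      have h2 := hR.two_le
      show (n / P n).primeFactors.sup id ≤ P n
      refine Finset.sup_le ?_
      intro q hq
      exact le_P (Nat.primeFactors_mono h1 (by omega) hq)
  have hfin : (⋃ p ∈ Pr j (j + 1), (fun m => p * m) ''
      {m | 1 ≤ m ∧ m ≤ N / p ∧ P m ≤ p ∧ Q p m}).Finite :=
    Set.Finite.biUnion (Finset.finite_toSet _) (fun p _ => (hfinS p).image _)
  have h1 : {n | Rg N j n ∧ Q (P n) (n / P n)}.ncard ≤
      ∑ p ∈ Pr j (j + 1), {m | 1 ≤ m ∧ m ≤ N / p ∧ P m ≤ p ∧ Q p m}.ncard := by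
    calc _ ≤ _ := Set.ncard_le_ncard hsub hfin
      _ ≤ ∑ p ∈ Pr j (j + 1), ((fun m => p * m) ''
          {m | 1 ≤ m ∧ m ≤ N / p ∧ P m ≤ p ∧ Q p m}).ncard :=
        Finset.set_ncard_biUnion_le _ _
      _ ≤ _ := Finset.sum_le_sum (fun p _ => Set.ncard_image_le (hfinS p))
  calc ({n | Rg N j n ∧ Q (P n) (n / P n)}.ncard : ℝ)
      ≤ ((∑ p ∈ Pr j (j + 1), {m | 1 ≤ m ∧ m ≤ N / p ∧ P m ≤ p ∧ Q p m}.ncard : ℕ) : ℝ) := by
        exact_mod_cast h1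
    _ = ∑ p ∈ Pr j (j + 1), ({m | 1 ≤ m ∧ m ≤ N / p ∧ P m ≤ p ∧ Q p m}.ncard : ℝ) := by
        push_cast
        rfl
    _ ≤ _ := Finset.sum_le_sum hB

theorem card_block (j : ℕ) : ((Pr j (j + 1)).card : ℝ) ≤ 2 ^ j := by
  have h1 : (Pr j (j + 1)).card ≤ 2 ^ j := by
    calc (Pr j (j + 1)).card ≤ (Ioc (2 ^ j) (2 ^ (j + 1))).card := Finset.card_filter_le _ _
      _ = 2 ^ (j + 1) - 2 ^ j := Nat.card_Ioc _ _
      _ = 2 ^ j := by rw [pow_succ]; omega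
  exact_mod_cast h1

theorem inv_block (j : ℕ) : ∑ p ∈ Pr j (j + 1), (1 : ℝ) / p ≤ 12 / (j + 1) := by
  have hsub : Pr j (j + 1) ⊆ Nat.primesLE (2 ^ (j + 1)) := by
    intro p hp
    rw [mem_Pr] at hp
    rw [Nat.mem_primesLE]
    exact ⟨hp.1.2, hp.2⟩
  have h1 : ((Pr j (j + 1)).card : ℝ) ≤ 6 * 2 ^ (j + 1) / ((j + 1 : ℕ) : ℝ) :=
    le_trans (by exact_mod_cast Finset.card_le_card hsub) (card_primesLE_two_pow (j + 1) (by omega))
  have h2 : ∀ p ∈ Pr j (j + 1), (1 : ℝ) / p ≤ 1 / 2 ^ j := by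
    intro p hp
    rw [mem_Pr] at hp
    have h3 : (2 : ℝ) ^ j ≤ p := by exact_mod_cast hp.1.1.le
    exact one_div_le_one_div_of_le (by positivity) h3
  calc ∑ p ∈ Pr j (j + 1), (1 : ℝ) / p ≤ ∑ p ∈ Pr j (j + 1), (1 : ℝ) / 2 ^ j := Finset.sum_le_sum h2
    _ = (Pr j (j + 1)).card * (1 / 2 ^ j) := by rw [Finset.sum_const, nsmul_eq_mul]
    _ ≤ (6 * 2 ^ (j + 1) / ((j + 1 : ℕ) : ℝ)) * (1 / 2 ^ j) :=
        mul_le_mul_of_nonneg_right h1 (by positivity)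
    _ = 12 / (j + 1) := by
        push_cast
        field_simp
        ring

theorem inv_range (a b : ℕ) (h : a ≤ b) :
    ∑ p ∈ Pr a b, (1 : ℝ) / p ≤ ∑ i ∈ Ico a b, (12 : ℝ) / (i + 1) := by
  induction b, h using Nat.le_induction with
  | base =>
    have : Pr a a = ∅ := by
      unfold Pr
      rw [Finset.Ioc_self, Finset.filter_empty]
    rw [this]
    simp
  | succ b hab ih =>
    have hpow : 2 ^ a ≤ 2 ^ b := Nat.pow_le_pow_right (by norm_num) hab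
    have hpow2 : 2 ^ b ≤ 2 ^ (b + 1) := Nat.pow_le_pow_right (by norm_num) (by omega)
    have hun : Pr a (b + 1) = Pr a b ∪ Pr b (b + 1) := by
      ext p
      rw [Finset.mem_union, mem_Pr, mem_Pr, mem_Pr]
      constructor
      · rintro ⟨⟨h1, h2⟩, h3⟩
        rcases le_or_gt p (2 ^ b) with h | h
        · exact Or.inl ⟨⟨h1, h⟩, h3⟩
        · exact Or.inr ⟨⟨h, h2⟩, h3⟩
      · rintro (⟨⟨h1, h2⟩, h3⟩ | ⟨⟨h1, h2⟩, h3⟩)
        · exact ⟨⟨h1, h2.trans hpow2⟩, h3⟩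
        · exact ⟨⟨lt_of_le_of_lt hpow h1, h2⟩, h3⟩
    have hdis : Disjoint (Pr a b) (Pr b (b + 1)) := by
      rw [Finset.disjoint_left]
      intro p h1 h2
      rw [mem_Pr] at h1 h2
      exact absurd h1.1.2 (not_le.2 h2.1.1)
    rw [hun, Finset.sum_union hdis, Finset.sum_Ico_succ_top hab]
    have := inv_block b
    linarith

/-- Number of multiples of `r` among the `m + k`, `1 ≤ m ≤ M`. -/
theorem mult_count (M k r : ℕ) (hr : 1 ≤ r) :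
    ({m | 1 ≤ m ∧ m ≤ M ∧ r ∣ m + k}.ncard : ℝ) ≤ (M + k) / r := by
  have h1 : {m | 1 ≤ m ∧ m ≤ M ∧ r ∣ m + k}.ncard ≤ (M + k) / r := by
    rw [← Nat.Ioc_filter_dvd_card_eq_div (M + k) r, ← Set.ncard_coe_finset]
    refine Set.ncard_le_ncard_of_injOn (fun m => m + k) ?_ ?_ (Finset.finite_toSet _)
    · rintro m ⟨h1, h2, h3⟩
      rw [Finset.mem_coe, Finset.mem_filter, Finset.mem_Ioc]
      exact ⟨⟨by omega, by omega⟩, h3⟩
    · intro x _ y _ h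
      simpa using h
  calc ({m | 1 ≤ m ∧ m ≤ M ∧ r ∣ m + k}.ncard : ℝ) ≤ (((M + k) / r : ℕ) : ℝ) := by exact_mod_cast h1
    _ ≤ ((M + k : ℕ) : ℝ) / r := Nat.cast_div_le
    _ = _ := by push_cast; rfl

end Pool.Agent.TNX
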