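import Pool.Agent.TNX.Lin

/-!
# TNX/Hone: primes larger than `z` are removed by `z`-smooth multiples (difficulty 2)

Let `b = n + k p`, `R` = the finite set of primes `r > z`, `r ≠ p`, `r ∣ n` or `r ∣ b`, such that
`n.factorization r + b.factorization r` is odd.  For `r ∈ R` choose `c r` as in `hr`.
`x = vv b + ∑ r ∈ R, vv (r * c r)`.  It is in `Sp n b` (`n < b ≤ b`, `n < r * c r ≤ b`).
For `q > z`: `vv (r * c r) q = vv r q + vv (c r) q`, `vv (c r) q = 0` (`TN.factorization_zero_of_smooth`: `P (c r) ≤ z < q`),
`vv r q = 1` if `q = r`, else `0` (`Nat.Prime.factorization`), so `(vv n + x) q = vv n q + vv b q + (if q ∈ R then 1 else 0) = 0`: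
if `q = p`: `1 + 1 + 0`; if `q` is not a prime or divides neither `n` nor `b`: `0 + 0 + 0`; otherwise by the definition of `R`.
-/

namespace Pool.Agent.TNX

open Pool.Agent.TN Finset

theorem hone {n p k z : ℕ} (hp : p.Prime) (hn : n ≠ 0) (hk : 0 < k) (hpn : n.factorization p = 1)
    (hpb : (n + k * p).factorization p = 1)
    (hr : ∀ r, r.Prime → z < r → r ≠ p → (r ∣ n ∨ r ∣ n + k * p) →
      ∃ c, 0 < c ∧ P c ≤ z ∧ n < r * c ∧ r * c ≤ n + k * p) :
    ∃ x ∈ Sp n (n + k * p), vv n + x ∈ Kz z := by
  classical
  have hp1 : 0 < p := hp.pos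
  have hb0 : n + k * p ≠ 0 := by omega
  have hlt : n < n + k * p := by
    have : 0 < k * p := Nat.mul_pos hk hp1
    omega
  obtain ⟨R, hRdef⟩ : ∃ R : Finset ℕ, R = (n.primeFactors ∪ (n + k * p).primeFactors).filter
      (fun r => z < r ∧ r ≠ p ∧ vv n r + vv (n + k * p) r = 1) := ⟨_, rfl⟩
  have hR : ∀ r ∈ R, r.Prime ∧ z < r ∧ r ≠ p ∧ (r ∣ n ∨ r ∣ n + k * p) := by
    intro r hrR
    rw [hRdef, Finset.mem_filter, Finset.mem_union] at hrR
    obtain ⟨h1, h2, h3, _⟩ := hrR
    rcases h1 with h1 | h1
    · exact ⟨Nat.prime_of_mem_primeFactors h1, h2, h3, Or.inl (Nat.dvd_of_mem_primeFactors h1)⟩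
    · exact ⟨Nat.prime_of_mem_primeFactors h1, h2, h3, Or.inr (Nat.dvd_of_mem_primeFactors h1)⟩
  have hex : ∀ r, ∃ c, r ∈ R → (0 < c ∧ P c ≤ z ∧ n < r * c ∧ r * c ≤ n + k * p) := by
    intro r
    by_cases h : r ∈ R
    · obtain ⟨c, hc⟩ := hr r (hR r h).1 (hR r h).2.1 (hR r h).2.2.1 (hR r h).2.2.2
      exact ⟨c, fun _ => hc⟩
    · exact ⟨0, fun h' => absurd h' h⟩
  choose c hc using hex
  refine ⟨vv (n + k * p) + ∑ r ∈ R, vv (r * c r), ?_, ?_⟩
  · apply Submodule.add_mem
    · exact mem_Sp hlt le_rfl
    · apply Submodule.sum_mem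
      intro r hrR
      exact mem_Sp (hc r hrR).2.2.1 (hc r hrR).2.2.2
  · rw [mem_Kz]
    intro q hq
    have h1 : ∀ r ∈ R, vv (r * c r) q = if q = r then 1 else 0 := by
      intro r hrR
      have hrp := (hR r hrR).1
      have hc0 : c r ≠ 0 := (hc r hrR).1.ne'
      rw [vv_mul hrp.ne_zero hc0, Pi.add_apply]
      have h2 : vv (c r) q = 0 := by
        unfold vv
        rw [factorization_zero_of_smooth (hc r hrR).2.1 hq]
        simp
      have h3 : vv r q = if q = r then 1 else 0 := by
        unfold vv
        rw [hrp.factorization]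
        by_cases hqr : q = r
        · subst hqr
          simp
        · rw [if_neg hqr, Finsupp.single_apply, if_neg (fun h => hqr h.symm)]
          simp
      rw [h2, h3, add_zero]
    rw [Pi.add_apply, Pi.add_apply, Finset.sum_apply, Finset.sum_congr rfl h1, Finset.sum_ite_eq]
    by_cases hqp : q = p
    · have hnR : q ∉ R := by
        intro h
        exact (hR q h).2.2.1 hqp
      rw [if_neg hnR]
      have e1 : vv n q = 1 := by
        unfold vv
        rw [hqp, hpn]
        simp
      have e2 : vv (n + k * p) q = 1 := by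
        unfold vv
        rw [hqp, hpb]
        simp
      rw [e1, e2]
      decide
    · by_cases hs : vv n q + vv (n + k * p) q = 1
      · have hqR : q ∈ R := by
          rw [hRdef, Finset.mem_filter]
          refine ⟨?_, hq, hqp, hs⟩
          by_contra hnot
          rw [Finset.mem_union, not_or] at hnot
          have e1 : vv n q = 0 := by
            unfold vv
            have : n.factorization q = 0 := by
              rw [← Finsupp.notMem_support_iff, Nat.support_factorization]
              exact hnot.1
            rw [this]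
            simp
          have e2 : vv (n + k * p) q = 0 := by
            unfold vv
            have : (n + k * p).factorization q = 0 := by
              rw [← Finsupp.notMem_support_iff, Nat.support_factorization]
              exact hnot.2
            rw [this]
            simp
          rw [e1, e2] at hs
          exact absurd hs (by decide)
        rw [if_pos hqR, ← add_assoc, hs]
        decide
      · have hqR : q ∉ R := by
          intro h
          rw [hRdef, Finset.mem_filter] at h
          exact hs h.2.2.2
        rw [if_neg hqR, add_zero]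
        generalize vv n q = a at hs ⊢
        generalize vv (n + k * p) q = b at hs ⊢
        revert a b
        decide

end Pool.Agent.TNX
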