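import Pool.Agent.TNX.Defs

/-!
# TNX/Lin: exponent vectors and spans (difficulty 2)

* `vv_mul`: `Nat.factorization_mul`.
* `vv_sq`: `x + x = 0` in `ZMod 2` (`CharTwo.add_self_eq_zero`).
* `works_of_mem`: copy of `Pool.Agent.TN.works_of_span` (file `TN/Block.lean`): a finite linear combination with coefficients
  in `ZMod 2` is a sum over a finite set `S ⊆ (n, n + t]`; all exponents of `n * ∏ S` are even: `TN.isSquare_of_even`;
  `S` is nonempty as `n` is not a square.
-/

namespace Pool.Agent.TNX

open Pool.Agent.TN Finset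

theorem vv_mul {a b : ℕ} (ha : a ≠ 0) (hb : b ≠ 0) : vv (a * b) = vv a + vv b := by
  funext q
  show (((a * b).factorization q : ℕ) : ZMod 2) = ((a.factorization q : ℕ) : ZMod 2) + ((b.factorization q : ℕ) : ZMod 2)
  rw [Nat.factorization_mul ha hb, Finsupp.add_apply, Nat.cast_add]

theorem vv_sq {a : ℕ} (ha : a ≠ 0) : vv (a * a) = 0 := by
  rw [vv_mul ha ha]
  funext q
  show vv a q + vv a q = 0
  exact CharTwo.add_self_eq_zero _

theorem mem_Sp {a b m : ℕ} (h1 : a < m) (h2 : m ≤ b) : vv m ∈ Sp a b := by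
  exact Submodule.subset_span ⟨m, ⟨h1, h2⟩, rfl⟩

theorem Sp_mono {a b a' b' : ℕ} (h : a ≤ a') (h' : b' ≤ b) : Sp a' b' ≤ Sp a b := by
  apply Submodule.span_mono
  apply Set.image_mono
  intro m hm
  exact ⟨lt_of_le_of_lt h hm.1, hm.2.trans h'⟩

theorem works_of_mem {n t : ℕ} (hn : 1 ≤ n) (hsq : ¬ IsSquare n) (h : vv n ∈ Sp n (n + t)) :
    Works n t := by
  classical
  have hset : Set.Ioc n (n + t) = ((Finset.Ioc n (n + t) : Finset ℕ) : Set ℕ) := by
    ext m
    simp
  unfold Sp at h
  rw [hset, Submodule.mem_span_image_finset_iff_exists_fun'] at h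
  obtain ⟨c, hc⟩ := h
  set T := Finset.Ioc n (n + t) with hT
  set S := T.filter (fun m => c m ≠ 0) with hS
  have hSm : ∀ m ∈ S, n < m ∧ m ≤ n + t := by
    intro m hm
    have h1 := (Finset.mem_filter.mp hm).1
    exact Finset.mem_Ioc.1 h1
  have hvec : ∀ q : ℕ, vv n q = ∑ m ∈ S, vv m q := by
    intro q
    have h1 := congrFun hc q
    rw [Finset.sum_apply] at h1
    have h2 : ∑ m ∈ S, vv m q = ∑ m ∈ T, (if c m ≠ 0 then vv m q else 0) := by
      rw [hS]
      exact Finset.sum_filter _ _
    rw [← h1, h2]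
    apply Finset.sum_congr rfl
    intro m _
    by_cases hcm : c m = 0
    · simp [hcm]
    · have : c m = 1 := by
        generalize c m = z at hcm
        revert z
        decide
      simp [this]
  have hne : ∀ m ∈ S, m ≠ 0 := by
    intro m hm
    have := (hSm m hm).1
    omega
  have hsquare : IsSquare (n * ∏ m ∈ S, m) := by
    apply isSquare_of_even
    · apply mul_ne_zero
      · omega
      · exact Finset.prod_ne_zero_iff.mpr hne
    · intro q
      rw [Nat.factorization_mul (by omega) (Finset.prod_ne_zero_iff.mpr hne),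
        Finsupp.add_apply, Nat.factorization_prod_apply hne]
      have h1 := hvec q
      unfold vv at h1
      rw [← Nat.cast_sum] at h1
      rw [← ZMod.natCast_eq_zero_iff_even, Nat.cast_add, h1]
      exact CharTwo.add_self_eq_zero _
  have hSne : S.Nonempty := by
    by_contra hemp
    rw [Finset.not_nonempty_iff_eq_empty] at hemp
    rw [hemp] at hsquare
    simp at hsquare
    exact hsq hsquare
  refine ⟨S, hSne, ?_, hsquare⟩
  intro m hm
  have := hSm m hm
  exact Finset.mem_Icc.mpr ⟨by omega, by omega⟩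

end Pool.Agent.TNX
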