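import Pool.Agent.TNX.SDefs

/-!
# TNX/SA: the coefficients `cf` (difficulty 3)

* `tent_supp`: `|log (n / D)| < 2` gives `n < D e ^ 2 < 8 D` (`e < 2.7182818286`, `Real.exp_one_lt_d9`).
* `cf_supp`: induction on `j`.  `P (x y) ≤ max (P x) (P y)` (`Nat.primeFactors_mul`, `Finset.sup_union`), `P x ≤ x` (`TN.P_le`).
* `cf_sum_succ`: both sides are the sum over the pairs `(a, m)`, `a, m ≥ 1`, of `tent D a * cf D j m * F (a m)`
  (fiberwise over `n = a m`, `Finset.sum_fiberwise_of_maps_to`, or `Nat.sum_divisorsAntidiagonal`); the pairs of the left side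
  with `a > 8 D` or `m > (8 D) ^ j` have weight `0`, and for `a ≤ 8 D`, `m ≤ (8 D) ^ j` one has `a m ≤ (8 D) ^ (j + 1)`.
  (See `psi_dp` in `BernOne/GDiff.lean` for a similar argument.)
-/

namespace Pool.Agent.TNX

open Pool.Agent.TN Pool.Agent.MR Pool.Agent.BernOne Finset

theorem tent_nonneg (D : ℝ) (n : ℕ) : 0 ≤ tent D n := le_max_left _ _

theorem tent_le (D : ℝ) (n : ℕ) : tent D n ≤ 2 :=
  max_le (by norm_num) (sub_le_self _ (abs_nonneg _))

theorem tent_supp {D : ℝ} (hD : 1 ≤ D) {n : ℕ} (hn : 1 ≤ n) (h : tent D n ≠ 0) : (n : ℝ) ≤ 8 * D := by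
  have hD0 : 0 < D := by linarith
  have hn0 : (0 : ℝ) < n := by exact_mod_cast hn
  have h1 : 0 < 2 - |Real.log (n / D)| := by
    by_contra hcon
    exact h (max_eq_left (not_lt.1 hcon))
  have h2 : Real.log (n / D) < 2 := by
    have := le_abs_self (Real.log (n / D))
    linarith
  have h3 : (n : ℝ) / D < Real.exp 2 := by
    rw [← Real.log_lt_iff_lt_exp (by positivity)]
    exact h2
  have h4 : Real.exp 2 < 8 := by
    have h5 := Real.exp_one_lt_d9
    have h6 : Real.exp 2 = Real.exp 1 * Real.exp 1 := by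
      rw [← Real.exp_add]
      norm_num
    rw [h6]
    have h7 := Real.exp_pos 1
    nlinarith
  have h5 : (n : ℝ) / D < 8 := h3.trans h4
  rw [div_lt_iff₀ hD0] at h5
  exact h5.le

theorem cf_nonneg (D : ℝ) (j n : ℕ) : 0 ≤ cf D j n := by
  induction j generalizing n with
  | zero =>
    unfold cf
    split_ifs
    · exact zero_le_one
    · exact le_rfl
  | succ j ih =>
    unfold cf
    exact Finset.sum_nonneg (fun x _ => mul_nonneg (tent_nonneg D x.1) (ih x.2))

theorem cf_supp {D : ℝ} (hD : 1 ≤ D) {j n : ℕ} (h : cf D j n ≠ 0) :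
    1 ≤ n ∧ (n : ℝ) ≤ (8 * D) ^ j ∧ (P n : ℝ) ≤ 8 * D := by
  induction j generalizing n with
  | zero =>
    have hn : n = 1 := by
      by_contra hn
      apply h
      unfold cf
      rw [if_neg hn]
    subst hn
    refine ⟨le_rfl, by simp, ?_⟩
    have : P 1 = 0 := by simp [P]
    rw [this]
    push_cast
    linarith
  | succ j ih =>
    unfold cf at h
    obtain ⟨x, hx, hx0⟩ := Finset.exists_ne_zero_of_sum_ne_zero h
    have ht : tent D x.1 ≠ 0 := left_ne_zero_of_mul hx0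
    have hc : cf D j x.2 ≠ 0 := right_ne_zero_of_mul hx0
    obtain ⟨hxn, hn0⟩ := Nat.mem_divisorsAntidiagonal.1 hx
    obtain ⟨h2, h3, h4⟩ := ih hc
    have h1 : 1 ≤ x.1 := by
      rcases Nat.eq_zero_or_pos x.1 with e | e
      · rw [e, zero_mul] at hxn
        exact absurd hxn.symm hn0
      · exact e
    have h5 := tent_supp hD h1 ht
    refine ⟨Nat.one_le_iff_ne_zero.2 hn0, ?_, ?_⟩
    · rw [← hxn, pow_succ']
      push_cast
      exact mul_le_mul h5 h3 (Nat.cast_nonneg _) (by linarith)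
    · have h6 : P n ≤ max (P x.1) (P x.2) := by
        unfold P
        rw [← hxn, Nat.primeFactors_mul (by omega) (by omega), Finset.sup_union]
      have h7 : (P n : ℝ) ≤ max (P x.1 : ℝ) (P x.2 : ℝ) := by exact_mod_cast h6
      refine h7.trans (max_le ?_ h4)
      exact le_trans (by exact_mod_cast P_le h1) h5

theorem cf_sum_succ {D : ℝ} (hD : 1 ≤ D) (j : ℕ) (F : ℕ → ℂ) :
    ∑ n ∈ Icc 1 (Yj D (j + 1)), (cf D (j + 1) n : ℂ) * F n =
      ∑ a ∈ Icc 1 ⌊8 * D⌋₊, (tent D a : ℂ) * ∑ m ∈ Icc 1 (Yj D j), (cf D j m : ℂ) * F (a * m) := by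
  classical
  set T : Finset (ℕ × ℕ) := Icc 1 ⌊8 * D⌋₊ ×ˢ Icc 1 (Yj D j) with hT
  set f : ℕ × ℕ → ℂ := fun x => (tent D x.1 : ℂ) * ((cf D j x.2 : ℂ) * F (x.1 * x.2)) with hf
  have hR : ∑ a ∈ Icc 1 ⌊8 * D⌋₊, (tent D a : ℂ) * ∑ m ∈ Icc 1 (Yj D j), (cf D j m : ℂ) * F (a * m) =
      ∑ x ∈ T, f x := by
    rw [hT, Finset.sum_product]
    refine Finset.sum_congr rfl (fun a _ => ?_)
    rw [Finset.mul_sum]
  have hmaps : ∀ x ∈ T, x.1 * x.2 ∈ Icc 1 (Yj D (j + 1)) := by
    intro x hx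
    rw [hT, Finset.mem_product, Finset.mem_Icc, Finset.mem_Icc] at hx
    obtain ⟨⟨h1, h2⟩, h3, h4⟩ := hx
    rw [Finset.mem_Icc]
    refine ⟨Nat.mul_pos h1 h3, ?_⟩
    unfold Yj at h4 ⊢
    have h5 : (x.1 : ℝ) ≤ 8 * D := (Nat.le_floor_iff (by linarith)).1 h2
    have h6 : (x.2 : ℝ) ≤ (8 * D) ^ j := (Nat.le_floor_iff (by positivity)).1 h4
    refine Nat.le_floor ?_
    rw [pow_succ']
    push_cast
    exact mul_le_mul h5 h6 (Nat.cast_nonneg _) (by linarith)
  rw [hR, ← Finset.sum_fiberwise_of_maps_to hmaps f]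
  refine Finset.sum_congr rfl (fun n hn => ?_)
  have hn1 : 1 ≤ n := (Finset.mem_Icc.1 hn).1
  have hL : (cf D (j + 1) n : ℂ) * F n = ∑ x ∈ n.divisorsAntidiagonal, f x := by
    have e : cf D (j + 1) n = ∑ x ∈ n.divisorsAntidiagonal, tent D x.1 * cf D j x.2 := rfl
    rw [e]
    push_cast
    rw [Finset.sum_mul]
    refine Finset.sum_congr rfl (fun x hx => ?_)
    rw [hf]
    simp only []
    rw [(Nat.mem_divisorsAntidiagonal.1 hx).1]
    ring
  rw [hL]
  symm
  refine Finset.sum_subset ?_ ?_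
  · intro x hx
    rw [Finset.mem_filter] at hx
    exact Nat.mem_divisorsAntidiagonal.2 ⟨hx.2, by omega⟩
  · intro x hx hxn
    by_contra hne
    apply hxn
    obtain ⟨hxn', hn0⟩ := Nat.mem_divisorsAntidiagonal.1 hx
    have ht : tent D x.1 ≠ 0 := by
      intro e
      apply hne
      rw [hf]
      simp only []
      rw [e]
      simp
    have hc : cf D j x.2 ≠ 0 := by
      intro e
      apply hne
      rw [hf]
      simp only []
      rw [e]
      simp
    have h1 : 1 ≤ x.1 := by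
      rcases Nat.eq_zero_or_pos x.1 with e | e
      · rw [e, zero_mul] at hxn'
        exact absurd hxn'.symm hn0
      · exact e
    have h2 := cf_supp hD hc
    rw [Finset.mem_filter, hT, Finset.mem_product, Finset.mem_Icc, Finset.mem_Icc]
    refine ⟨⟨⟨h1, Nat.le_floor (tent_supp hD h1 ht)⟩, h2.1, ?_⟩, hxn'⟩
    unfold Yj
    exact Nat.le_floor h2.2.1

end Pool.Agent.TNX
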