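import Pool.Agent.TNX.SA

/-!
# TNX/SB: consequences of the recursion (difficulty 3)

* `cf_sum_succ_real`: real version of `cf_sum_succ` (`Complex.ofReal_injective`, `push_cast`).
* `dp_cf`: induction on `j` with `cf_sum_succ`, `F n = ni n t`, `ni (a * m) t = ni a t * ni m t` (`BernOne.gd_ni_mul`); `St D (-t)`
  is `∑ tent D a * ni a (- - t)`.
* `Gs_zero`: `Yj D 0 = 1`.
* `Gs_succ`: `cf_sum_succ_real` with `F n = kn θ (u - log n)`, `log (a m) = log a + log m`.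
* `sum_cf`: induction, `∑ a ∈ Icc 1 ⌊8 D⌋, tent D a ≤ 2 * 8 D`.
* `sum_cf_sq`: first `cf D j n ≤ 2 ^ j * (n.divisors.card) ^ j` for `n ≥ 1` (induction: at most `n.divisors.card` factorizations
  `n = x y`, `tent D x ≤ 2`, `y.divisors.card ≤ n.divisors.card`).  Then `divisor_bound` (file `Div.lean`) with `ε / (j ^ 2 + 1)`:
  for `1 ≤ n ≤ (8 D) ^ j`: `cf D j n ≤ 2 ^ j c ^ j (8 D) ^ ε`, and `∑ cf ^ 2 ≤ (max cf) * ∑ cf ≤ 2 ^ j c ^ j (8 D) ^ ε (16 D) ^ j`.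
-/

namespace Pool.Agent.TNX

open Pool.Agent.TN Pool.Agent.MR Pool.Agent.BernOne Finset

theorem cf_sum_succ_real {D : ℝ} (hD : 1 ≤ D) (j : ℕ) (F : ℕ → ℝ) :
    ∑ n ∈ Icc 1 (Yj D (j + 1)), cf D (j + 1) n * F n =
      ∑ a ∈ Icc 1 ⌊8 * D⌋₊, tent D a * ∑ m ∈ Icc 1 (Yj D j), cf D j m * F (a * m) := by
  have h := cf_sum_succ hD j (fun n => (F n : ℂ))
  exact_mod_cast h

private theorem SB_Y0 (D : ℝ) : Icc 1 (Yj D 0) = {1} := by
  unfold Yj
  rw [pow_zero, Nat.floor_one]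
  rfl

private theorem SB_cf0 (D : ℝ) : cf D 0 1 = 1 := by
  unfold cf
  rw [if_pos rfl]

private theorem SB_tent_sum {D : ℝ} (hD : 1 ≤ D) : ∑ a ∈ Icc 1 ⌊8 * D⌋₊, tent D a ≤ 16 * D := by
  calc ∑ a ∈ Icc 1 ⌊8 * D⌋₊, tent D a ≤ ∑ a ∈ Icc 1 ⌊8 * D⌋₊, (2 : ℝ) :=
        Finset.sum_le_sum (fun a _ => tent_le D a)
    _ = ⌊8 * D⌋₊ * 2 := by rw [Finset.sum_const, Nat.card_Icc, nsmul_eq_mul, Nat.add_sub_cancel]
    _ ≤ 8 * D * 2 := by
        have h := Nat.floor_le (show 0 ≤ 8 * D by linarith)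
        linarith
    _ = 16 * D := by ring

theorem dp_cf {D : ℝ} (hD : 1 ≤ D) (j : ℕ) (t : ℝ) :
    dp (Icc 1 (Yj D j)) (fun n => (cf D j n : ℂ)) t = St D (-t) ^ j := by
  induction j with
  | zero =>
    unfold dp
    rw [SB_Y0, Finset.sum_singleton, pow_zero]
    show ((cf D 0 1 : ℝ) : ℂ) * ni 1 t = 1
    rw [SB_cf0]
    unfold ni
    simp
  | succ j ih =>
    have h := cf_sum_succ hD j (fun n => ni n t)
    have e : dp (Icc 1 (Yj D (j + 1))) (fun n => (cf D (j + 1) n : ℂ)) t =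
        ∑ n ∈ Icc 1 (Yj D (j + 1)), (cf D (j + 1) n : ℂ) * ni n t := rfl
    rw [e, h, pow_succ', ← ih]
    unfold St dp
    rw [Finset.sum_mul]
    refine Finset.sum_congr rfl (fun a ha => ?_)
    rw [neg_neg, mul_assoc]
    congr 1
    rw [Finset.mul_sum]
    refine Finset.sum_congr rfl (fun m hm => ?_)
    rw [gd_ni_mul a m (Finset.mem_Icc.1 ha).1 (Finset.mem_Icc.1 hm).1]
    ring

theorem Gs_zero (D θ u : ℝ) : Gs D 0 θ u = kn θ u := by
  unfold Gs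
  rw [SB_Y0, Finset.sum_singleton, SB_cf0, one_mul, Nat.cast_one, Real.log_one, sub_zero]

theorem Gs_succ {D : ℝ} (hD : 1 ≤ D) (j : ℕ) (θ u : ℝ) :
    Gs D (j + 1) θ u = ∑ a ∈ Icc 1 ⌊8 * D⌋₊, tent D a * Gs D j θ (u - Real.log a) := by
  have h := cf_sum_succ_real hD j (fun n => kn θ (u - Real.log n))
  have e : Gs D (j + 1) θ u = ∑ n ∈ Icc 1 (Yj D (j + 1)), cf D (j + 1) n * kn θ (u - Real.log n) := rfl
  rw [e, h]
  refine Finset.sum_congr rfl (fun a ha => ?_)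
  congr 1
  unfold Gs
  refine Finset.sum_congr rfl (fun m hm => ?_)
  have ha0 : (a : ℝ) ≠ 0 := by
    have := (Finset.mem_Icc.1 ha).1
    positivity
  have hm0 : (m : ℝ) ≠ 0 := by
    have := (Finset.mem_Icc.1 hm).1
    positivity
  rw [Nat.cast_mul, Real.log_mul ha0 hm0, sub_sub]

theorem sum_cf {D : ℝ} (hD : 1 ≤ D) (j : ℕ) : ∑ n ∈ Icc 1 (Yj D j), cf D j n ≤ (16 * D) ^ j := by
  induction j with
  | zero =>
    rw [SB_Y0, Finset.sum_singleton, SB_cf0, pow_zero]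
  | succ j ih =>
    have h := cf_sum_succ_real hD j (fun _ => (1 : ℝ))
    simp only [mul_one] at h
    rw [h, ← Finset.sum_mul, pow_succ']
    have h0 : 0 ≤ ∑ a ∈ Icc 1 ⌊8 * D⌋₊, tent D a := Finset.sum_nonneg (fun a _ => tent_nonneg D a)
    have h1 : 0 ≤ ∑ m ∈ Icc 1 (Yj D j), cf D j m := Finset.sum_nonneg (fun m _ => cf_nonneg D j m)
    exact mul_le_mul (SB_tent_sum hD) ih h1 (by linarith)

theorem norm_St_le {D : ℝ} (hD : 1 ≤ D) (t : ℝ) : ‖St D t‖ ≤ 16 * D := by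
  unfold St
  refine (norm_sum_le _ _).trans ?_
  refine le_trans (Finset.sum_le_sum (fun a _ => ?_)) (SB_tent_sum hD)
  rw [norm_mul, norm_ni, mul_one, Complex.norm_real, Real.norm_of_nonneg (tent_nonneg D a)]

private theorem SB_cf_le (D : ℝ) (j : ℕ) : ∀ n : ℕ, 1 ≤ n → cf D j n ≤ (2 * (n.divisors.card : ℝ)) ^ j := by
  induction j with
  | zero =>
    intro n _
    rw [pow_zero]
    unfold cf
    split_ifs
    · exact le_rfl
    · exact zero_le_one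
  | succ j ih =>
    intro n hn
    have e : cf D (j + 1) n = ∑ x ∈ n.divisorsAntidiagonal, tent D x.1 * cf D j x.2 := rfl
    rw [e, Nat.sum_divisorsAntidiagonal (fun a b => tent D a * cf D j b)]
    calc ∑ i ∈ n.divisors, tent D i * cf D j (n / i)
        ≤ ∑ i ∈ n.divisors, 2 * (2 * (n.divisors.card : ℝ)) ^ j := by
          refine Finset.sum_le_sum (fun i hi => ?_)
          have hin := (Nat.mem_divisors.1 hi).1
          have h1 : 1 ≤ n / i := Nat.div_pos (Nat.le_of_dvd hn hin) (Nat.pos_of_dvd_of_pos hin hn)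
          have h2 : (n / i).divisors ⊆ n.divisors :=
            Nat.divisors_subset_of_dvd (by omega) (Nat.div_dvd_of_dvd hin)
          have h3 : (((n / i).divisors.card : ℕ) : ℝ) ≤ (n.divisors.card : ℝ) := by
            exact_mod_cast Finset.card_le_card h2
          refine mul_le_mul (tent_le D i) ((ih _ h1).trans ?_) (cf_nonneg D j _) (by norm_num)
          exact pow_le_pow_left₀ (by positivity) (by linarith) j
      _ = (2 * (n.divisors.card : ℝ)) ^ (j + 1) := by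
          rw [Finset.sum_const, nsmul_eq_mul, pow_succ]
          ring

theorem sum_cf_sq (j : ℕ) {ε : ℝ} (hε : 0 < ε) : ∃ C : ℝ, 0 < C ∧ ∀ D : ℝ, 1 ≤ D →
    ∑ n ∈ Icc 1 (Yj D j), (cf D j n) ^ 2 ≤ C * D ^ ((j : ℝ) + ε) := by
  obtain ⟨c, hc, hdiv⟩ := divisor_bound (ε := ε / ((j : ℝ) ^ 2 + 1)) (by positivity)
  refine ⟨(2 * c) ^ j * (8 : ℝ) ^ ε * 16 ^ j, by positivity, ?_⟩
  intro D hD
  have hD0 : 0 < D := by linarith
  have h8 : 1 ≤ 8 * D := by linarith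
  have hmax : ∀ n ∈ Icc 1 (Yj D j), cf D j n ≤ (2 * c) ^ j * (8 * D) ^ ε := by
    intro n hn
    obtain ⟨hn1, hn2⟩ := Finset.mem_Icc.1 hn
    have hn3 : (n : ℝ) ≤ (8 * D) ^ j := by
      unfold Yj at hn2
      exact (Nat.le_floor_iff (by positivity)).1 hn2
    have h1 := SB_cf_le D j n hn1
    have h2 := hdiv n (by omega)
    have h3 : (n : ℝ) ^ (ε / ((j : ℝ) ^ 2 + 1)) ≤ ((8 * D) ^ j) ^ (ε / ((j : ℝ) ^ 2 + 1)) :=
      Real.rpow_le_rpow (Nat.cast_nonneg _) hn3 (by positivity)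
    have h4 : (2 * (n.divisors.card : ℝ)) ^ j ≤
        (2 * (c * ((8 * D) ^ j) ^ (ε / ((j : ℝ) ^ 2 + 1)))) ^ j := by
      refine pow_le_pow_left₀ (by positivity) ?_ j
      have h5 := h2.trans (mul_le_mul_of_nonneg_left h3 hc.le)
      linarith
    have h5 : (2 * (c * ((8 * D) ^ j) ^ (ε / ((j : ℝ) ^ 2 + 1)))) ^ j =
        (2 * c) ^ j * (8 * D) ^ ((j : ℝ) * (ε / ((j : ℝ) ^ 2 + 1)) * j) := by
      rw [← mul_assoc, mul_pow, ← Real.rpow_natCast (8 * D) j, ← Real.rpow_mul (by linarith),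
        ← Real.rpow_natCast ((8 * D) ^ ((j : ℝ) * (ε / ((j : ℝ) ^ 2 + 1)))) j,
        ← Real.rpow_mul (by linarith)]
    have h6 : (8 * D) ^ ((j : ℝ) * (ε / ((j : ℝ) ^ 2 + 1)) * j) ≤ (8 * D) ^ ε := by
      refine Real.rpow_le_rpow_of_exponent_le h8 ?_
      have h7 : (j : ℝ) * (ε / ((j : ℝ) ^ 2 + 1)) * j = ε * ((j : ℝ) ^ 2 / ((j : ℝ) ^ 2 + 1)) := by
        field_simp
      rw [h7]
      have h8 : (j : ℝ) ^ 2 / ((j : ℝ) ^ 2 + 1) ≤ 1 := by
        rw [div_le_one (by positivity)]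
        linarith
      calc ε * ((j : ℝ) ^ 2 / ((j : ℝ) ^ 2 + 1)) ≤ ε * 1 := mul_le_mul_of_nonneg_left h8 hε.le
        _ = ε := mul_one ε
    calc cf D j n ≤ _ := h1
      _ ≤ _ := h4
      _ = _ := h5
      _ ≤ _ := mul_le_mul_of_nonneg_left h6 (by positivity)
  have hM : 0 ≤ (2 * c) ^ j * (8 * D) ^ ε := by positivity
  calc ∑ n ∈ Icc 1 (Yj D j), (cf D j n) ^ 2
      ≤ ∑ n ∈ Icc 1 (Yj D j), ((2 * c) ^ j * (8 * D) ^ ε) * cf D j n := by
        refine Finset.sum_le_sum (fun n hn => ?_)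
        rw [sq]
        exact mul_le_mul_of_nonneg_right (hmax n hn) (cf_nonneg D j n)
    _ = ((2 * c) ^ j * (8 * D) ^ ε) * ∑ n ∈ Icc 1 (Yj D j), cf D j n := by rw [Finset.mul_sum]
    _ ≤ ((2 * c) ^ j * (8 * D) ^ ε) * (16 * D) ^ j := mul_le_mul_of_nonneg_left (sum_cf hD j) hM
    _ = _ := by
        rw [Real.mul_rpow (by norm_num) hD0.le, mul_pow, Real.rpow_add hD0, Real.rpow_natCast]
        ring

end Pool.Agent.TNX
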