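import Pool.Agent.TNX.Defs
import Pool.Agent.TNX.Div
import Pool.Agent.MR.AStLarge
import Pool.Agent.MR.AMvt
import Pool.Agent.BernOne.GDiff

/-!
# TNX/SDefs: definitions for smooth numbers in short intervals

`cf D j n` is the sum over the factorizations `n = a_1 ... a_j` of the products of the tent weights
`tent D a_i` (`MR/ATent.lean`; `tent D a = 0` for `a > 8 D`); so `cf D j n ≠ 0` only if all prime factors
of `n` are at most `8 D`.  `Gs D j θ u` is the Gaussian smoothing (kernel `BernOne.kn`) on the logarithmic scale.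
-/

namespace Pool.Agent.TNX

open Pool.Agent.TN Pool.Agent.MR Pool.Agent.BernOne Finset

/-- Coefficients of the `j`-th power of the tent polynomial. -/
noncomputable def cf (D : ℝ) : ℕ → ℕ → ℝ
  | 0, n => if n = 1 then 1 else 0
  | (j + 1), n => ∑ x ∈ n.divisorsAntidiagonal, tent D x.1 * cf D j x.2

/-- The length of the `j`-th power. -/
noncomputable def Yj (D : ℝ) (j : ℕ) : ℕ := ⌊(8 * D) ^ j⌋₊

/-- The Gaussian smoothing. -/
noncomputable def Gs (D : ℝ) (j : ℕ) (θ u : ℝ) : ℝ :=
  ∑ n ∈ Icc 1 (Yj D j), cf D j n * kn θ (u - Real.log n)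

end Pool.Agent.TNX
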