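import Pool.Agent.TNX.SB

/-!
# TNX/SL: lower bound for the long smoothing (difficulty 3)

`θ = D ^ (-1/2)`, `kn θ x = exp (-x ^ 2 / (2 θ ^ 2)) / (θ √(2π))`.
`long_one` (`j = 1`): `Gs D 1 θ v = ∑ a, tent D a * kn θ (v - log a)` (`Gs_succ`, `Gs_zero`), nonnegative terms.  For the integers `a` with
`e ^ v < a ≤ e ^ v (1 + θ)`: `0 < log a - v ≤ θ` so `kn θ (v - log a) ≥ exp (-1/2) / (θ √(2π)) ≥ 1 / (6 θ)`; `|log (a / D)| ≤ 1 + θ`
so `tent D a ≥ 1 / 2` (`θ ≤ 1 / 2`), and `a ≤ e D (1 + θ) ≤ 8 D`.  There are at least `e ^ v θ - 1 ≥ D θ / 3 - 1 ≥ D θ / 6` such `a`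
(`e ^ v ≥ D / e`, `D θ = √D` large; `Nat.card_Ioc` of floors).  Total `≥ D / 72`.
`long_lower`: by induction on `j` show the same with `|u - (j + 1) log D| ≤ 1 / 2 + (1 / 2) ^ (j + 1)` (for `j = 0` this is `long_one`).
Step: `Gs_succ`; for the integers `a` with `D < a ≤ D (1 + r)`, `r = (1 / 2) ^ (j + 2)`: `0 < log a - log D ≤ r`, `tent D a ≥ 1`,
`|u - log a - (j + 1) log D| ≤ 1 / 2 + (1 / 2) ^ (j + 2) + r = 1 / 2 + (1 / 2) ^ (j + 1)`; at least `r D - 1 ≥ r D / 2` integers, and all other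
terms are nonnegative (`Gs ≥ 0`).
-/

namespace Pool.Agent.TNX

open Pool.Agent.TN Pool.Agent.MR Pool.Agent.BernOne Finset

theorem SL_kn_nonneg {θ : ℝ} (hθ : 0 < θ) (x : ℝ) : 0 ≤ kn θ x := by
  unfold kn
  positivity

theorem SL_count {A B : ℝ} (hA : 0 ≤ A) (hAB : A ≤ B) :
    B - A - 1 ≤ ((Ioc ⌊A⌋₊ ⌊B⌋₊).card : ℝ) := by
  rw [Nat.card_Ioc, Nat.cast_sub (Nat.floor_mono hAB)]
  have h1 := Nat.sub_one_lt_floor B
  have h2 := Nat.floor_le hA
  linarith

theorem SL_sum {D A B m : ℝ} (F : ℕ → ℝ) (hF : ∀ a, 0 ≤ F a) (hA : 0 ≤ A) (hAB : A ≤ B)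
    (hB : B ≤ 8 * D) (hm : 0 ≤ m) (h : ∀ a : ℕ, A < a → (a : ℝ) ≤ B → m ≤ F a) :
    (B - A - 1) * m ≤ ∑ a ∈ Icc 1 ⌊8 * D⌋₊, F a := by
  have hB0 : 0 ≤ B := hA.trans hAB
  have hsub : Ioc ⌊A⌋₊ ⌊B⌋₊ ⊆ Icc 1 ⌊8 * D⌋₊ := by
    intro a ha
    rw [Finset.mem_Ioc] at ha
    rw [Finset.mem_Icc]
    exact ⟨by omega, ha.2.trans (Nat.floor_mono hB)⟩
  calc (B - A - 1) * m ≤ ((Ioc ⌊A⌋₊ ⌊B⌋₊).card : ℝ) * m :=
        mul_le_mul_of_nonneg_right (SL_count hA hAB) hm
    _ = ∑ _a ∈ Ioc ⌊A⌋₊ ⌊B⌋₊, m := by rw [Finset.sum_const, nsmul_eq_mul]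
    _ ≤ ∑ a ∈ Ioc ⌊A⌋₊ ⌊B⌋₊, F a := by
        apply Finset.sum_le_sum
        intro a ha
        rw [Finset.mem_Ioc] at ha
        exact h a ((Nat.floor_lt hA).1 ha.1) ((Nat.le_floor_iff hB0).1 ha.2)
    _ ≤ ∑ a ∈ Icc 1 ⌊8 * D⌋₊, F a :=
        Finset.sum_le_sum_of_subset_of_nonneg hsub (fun a _ _ => hF a)

theorem Gs_nonneg {D : ℝ} (j : ℕ) {θ : ℝ} (hθ : 0 < θ) (u : ℝ) : 0 ≤ Gs D j θ u := by
  unfold Gs
  exact Finset.sum_nonneg fun n _ => mul_nonneg (cf_nonneg D j n) (SL_kn_nonneg hθ _)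

theorem long_one : ∃ c D0 : ℝ, 0 < c ∧ 1 ≤ D0 ∧ ∀ D : ℝ, D0 ≤ D → ∀ v : ℝ, |v - Real.log D| ≤ 1 →
    c * D ≤ Gs D 1 (D ^ (-(1 / 2) : ℝ)) v := by
  refine ⟨1 / 72, 36, by norm_num, by norm_num, ?_⟩
  intro D hD v hv
  have hD0 : (0 : ℝ) < D := by linarith
  obtain ⟨s, hs⟩ : ∃ s : ℝ, s = √D := ⟨_, rfl⟩
  have hss : s * s = D := by
    rw [hs]
    exact Real.mul_self_sqrt hD0.le
  have hs0 : 0 ≤ s := by
    rw [hs]
    exact Real.sqrt_nonneg D
  have hs6 : 6 ≤ s := by nlinarith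
  have hspos : 0 < s := by linarith
  obtain ⟨θ, hθ⟩ : ∃ θ : ℝ, θ = D ^ (-(1 / 2) : ℝ) := ⟨_, rfl⟩
  have hθs : θ = 1 / s := by
    rw [hθ, Real.rpow_neg hD0.le, ← Real.sqrt_eq_rpow, hs, one_div]
  rw [← hθ]
  have hθ0 : 0 < θ := by
    rw [hθs]
    positivity
  have hθ1 : θ ≤ 1 / 6 := by
    rw [hθs]
    exact one_div_le_one_div_of_le (by norm_num) hs6
  have hθm : θ * s = 1 := by
    rw [hθs]
    field_simp
  rw [Gs_succ (by linarith)]
  have hv' := abs_le.1 hv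
  have he1 := Real.exp_one_lt_d9
  have he0 : (0 : ℝ) < Real.exp 1 := Real.exp_pos 1
  have hAlow : D / 3 ≤ Real.exp v := by
    have h1 : Real.exp (Real.log D - 1) ≤ Real.exp v := Real.exp_le_exp.2 (by linarith)
    rw [Real.exp_sub, Real.exp_log hD0] at h1
    have h2 : D / 3 ≤ D / Real.exp 1 := div_le_div_of_nonneg_left hD0.le he0 (by linarith)
    linarith
  have hAup : Real.exp v ≤ 3 * D := by
    have h1 : Real.exp v ≤ Real.exp (Real.log D + 1) := Real.exp_le_exp.2 (by linarith)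
    rw [Real.exp_add, Real.exp_log hD0] at h1
    nlinarith
  have hA0 : 0 < Real.exp v := Real.exp_pos v
  have key := SL_sum (D := D) (A := Real.exp v) (B := Real.exp v * (1 + θ)) (m := s / 12)
    (fun a => tent D a * Gs D 0 θ (v - Real.log a))
    (fun a => mul_nonneg (tent_nonneg D a) (Gs_nonneg 0 hθ0 _)) hA0.le (by nlinarith)
    (by nlinarith) (by positivity) (by
      intro a ha1 ha2
      have ha0 : (0 : ℝ) < a := hA0.trans ha1
      have h1 : v < Real.log a := (Real.lt_log_iff_exp_lt ha0).2 ha1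
      have h2 : Real.log a ≤ v + θ := by
        have h3 : Real.log a ≤ Real.log (Real.exp v * (1 + θ)) := Real.log_le_log ha0 ha2
        rw [Real.log_mul hA0.ne' (by linarith), Real.log_exp] at h3
        have h4 : Real.log (1 + θ) ≤ 1 + θ - 1 := Real.log_le_sub_one_of_pos (by linarith)
        linarith
      have htent : 1 / 2 ≤ tent D a := by
        unfold tent
        refine le_max_of_le_right ?_
        rw [Real.log_div ha0.ne' hD0.ne']
        have h5 : |Real.log a - Real.log D| ≤ 3 / 2 := by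
          rw [abs_le]
          constructor <;> linarith [hv'.1, hv'.2]
        linarith
      have hkn : s / 6 ≤ kn θ (v - Real.log a) := by
        unfold kn
        have h6 : (v - Real.log a) ^ 2 ≤ θ ^ 2 := by nlinarith
        have h7 : (v - Real.log a) ^ 2 / (2 * θ ^ 2) ≤ 1 / 2 := by
          rw [div_le_iff₀ (by positivity)]
          linarith
        have h8 : (1 : ℝ) / 2 ≤ Real.exp (-(v - Real.log a) ^ 2 / (2 * θ ^ 2)) := by
          have h9 := Real.add_one_le_exp (-(v - Real.log a) ^ 2 / (2 * θ ^ 2))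
          rw [neg_div] at h9 ⊢
          linarith
        have h10 : √(2 * Real.pi) ≤ 3 := by
          rw [Real.sqrt_le_left (by norm_num)]
          have := Real.pi_lt_d2
          linarith
        have h11 : 0 < √(2 * Real.pi) := by positivity
        rw [le_div_iff₀ (by positivity)]
        calc s / 6 * (θ * √(2 * Real.pi)) ≤ s / 6 * (θ * 3) := by
              apply mul_le_mul_of_nonneg_left _ (by positivity)
              exact mul_le_mul_of_nonneg_left h10 hθ0.le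
          _ = (θ * s) / 2 := by ring
          _ = 1 / 2 := by rw [hθm]
          _ ≤ _ := h8
      have h12 : Gs D 0 θ (v - Real.log a) = kn θ (v - Real.log a) := Gs_zero D θ _
      change s / 12 ≤ tent D a * Gs D 0 θ (v - Real.log a)
      rw [h12]
      calc s / 12 = (1 / 2) * (s / 6) := by ring
        _ ≤ tent D a * kn θ (v - Real.log a) :=
            mul_le_mul htent hkn (by positivity) (tent_nonneg D a))
  refine le_trans ?_ key
  have h13 : Real.exp v * θ ≥ s / 3 := by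
    calc Real.exp v * θ ≥ D / 3 * θ := mul_le_mul_of_nonneg_right hAlow hθ0.le
      _ = s * (θ * s) / 3 := by rw [← hss]; ring
      _ = s / 3 := by rw [hθm, mul_one]
  have h14 : s / 6 ≤ Real.exp v * (1 + θ) - Real.exp v - 1 := by nlinarith
  calc 1 / 72 * D = (s / 6) * (s / 12) := by rw [← hss]; ring
    _ ≤ (Real.exp v * (1 + θ) - Real.exp v - 1) * (s / 12) :=
        mul_le_mul_of_nonneg_right h14 (by positivity)

theorem SL_ind (j : ℕ) : ∃ c D0 : ℝ, 0 < c ∧ 1 ≤ D0 ∧ ∀ D : ℝ, D0 ≤ D → ∀ u : ℝ,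
    |u - ((j : ℝ) + 1) * Real.log D| ≤ 1 / 2 + (1 / 2) ^ (j + 1) →
      c * D ^ (j + 1) ≤ Gs D (j + 1) (D ^ (-(1 / 2) : ℝ)) u := by
  induction j with
  | zero =>
    obtain ⟨c, D0, hc, hD0, h⟩ := long_one
    refine ⟨c, D0, hc, hD0, fun D hD u hu => ?_⟩
    have h1 := h D hD u (by
      have h2 : u - Real.log D = u - (((0 : ℕ) : ℝ) + 1) * Real.log D := by
        push_cast
        ring
      rw [h2]
      refine hu.trans ?_
      norm_num)
    rw [zero_add, pow_one]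
    exact h1
  | succ j ih =>
    obtain ⟨c, D0, hc, hD0, h⟩ := ih
    obtain ⟨r, hr⟩ : ∃ r : ℝ, r = (1 / 2) ^ (j + 2) := ⟨_, rfl⟩
    have hr0 : 0 < r := by
      rw [hr]
      positivity
    have hr1 : r ≤ 1 := by
      rw [hr]
      exact pow_le_one₀ (by norm_num) (by norm_num)
    have hrr : (1 / 2 : ℝ) ^ (j + 1) = 2 * r := by
      rw [hr]
      ring
    refine ⟨r * c / 2, max D0 (2 / r), by positivity, hD0.trans (le_max_left _ _), ?_⟩
    intro D hD u hu
    have hD1 : D0 ≤ D := (le_max_left _ _).trans hD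
    have hD2 : 2 / r ≤ D := (le_max_right _ _).trans hD
    have hDp : (0 : ℝ) < D := by linarith
    have hrD : 2 ≤ r * D := by
      rw [div_le_iff₀ hr0] at hD2
      linarith
    have hθ0 : (0 : ℝ) < D ^ (-(1 / 2) : ℝ) := Real.rpow_pos_of_pos hDp _
    rw [Gs_succ (by linarith)]
    have key := SL_sum (D := D) (A := D) (B := D * (1 + r)) (m := c * D ^ (j + 1))
      (fun a => tent D a * Gs D (j + 1) (D ^ (-(1 / 2) : ℝ)) (u - Real.log a))
      (fun a => mul_nonneg (tent_nonneg D a) (Gs_nonneg _ hθ0 _)) hDp.le (by nlinarith)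
      (by nlinarith) (by positivity) (by
        intro a ha1 ha2
        have ha0 : (0 : ℝ) < a := hDp.trans ha1
        have h1 : Real.log D < Real.log a := Real.log_lt_log hDp ha1
        have h2 : Real.log a ≤ Real.log D + r := by
          have h3 : Real.log a ≤ Real.log (D * (1 + r)) := Real.log_le_log ha0 ha2
          rw [Real.log_mul hDp.ne' (by linarith)] at h3
          have h4 : Real.log (1 + r) ≤ 1 + r - 1 := Real.log_le_sub_one_of_pos (by linarith)
          linarith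
        have htent : 1 ≤ tent D a := by
          unfold tent
          refine le_max_of_le_right ?_
          rw [Real.log_div ha0.ne' hDp.ne', abs_of_pos (by linarith)]
          linarith
        have hG := h D hD1 (u - Real.log a) (by
          have hu' := abs_le.1 hu
          push_cast at hu'
          rw [← hr] at hu'
          rw [hrr, abs_le]
          constructor <;> nlinarith [hu'.1, hu'.2])
        have hcD : 0 ≤ c * D ^ (j + 1) := by positivity
        change c * D ^ (j + 1) ≤ tent D a * Gs D (j + 1) (D ^ (-(1 / 2) : ℝ)) (u - Real.log a)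
        nlinarith)
    refine le_trans ?_ key
    have h5 : r * D / 2 ≤ D * (1 + r) - D - 1 := by nlinarith
    calc r * c / 2 * D ^ (j + 1 + 1) = (r * D / 2) * (c * D ^ (j + 1)) := by ring
      _ ≤ (D * (1 + r) - D - 1) * (c * D ^ (j + 1)) :=
          mul_le_mul_of_nonneg_right h5 (by positivity)

theorem long_lower (j : ℕ) : ∃ c D0 : ℝ, 0 < c ∧ 1 ≤ D0 ∧ ∀ D : ℝ, D0 ≤ D → ∀ u : ℝ,
    |u - ((j : ℝ) + 1) * Real.log D| ≤ 1 / 2 → c * D ^ (j + 1) ≤ Gs D (j + 1) (D ^ (-(1 / 2) : ℝ)) u := by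
  obtain ⟨c, D0, hc, hD0, h⟩ := SL_ind j
  refine ⟨c, D0, hc, hD0, fun D hD u hu => h D hD u (hu.trans ?_)⟩
  have : (0 : ℝ) < (1 / 2) ^ (j + 1) := by positivity
  linarith

end Pool.Agent.TNX
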