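import Pool.Agent.TNX.SB

/-!
# TNX/SU: upper bound for the short smoothing at a gap (difficulty 3)

Let `n` be in the sum with `cf D (j + 1) n ≠ 0`: `P n ≤ 8 D` (`cf_supp`), so by `hgap` either `n ≤ x` or `(n : ℝ) > x + D ^ 2`.
`x ≤ e ^ (1 / 4) D ^ (j + 1) ≤ (4 / 3) D ^ (j + 1)`, `D ^ 2 ≤ D ^ (j + 1)`.
* `n ≤ x`: `u - log n ≥ log (x + D ^ 2 / 3) - log x = log (1 + D ^ 2 / (3 x)) ≥ D ^ 2 / (3 x + D ^ 2) ≥ D ^ 2 / (5 D ^ (j + 1))`
  (`log (1 + y) ≥ y / (1 + y)`, i.e. `Real.one_sub_inv_le_log_of_pos`);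
* `n > x + D ^ 2`: `log n - u ≥ log (x + D ^ 2) - log (x + D ^ 2 / 3 + 1) ≥ (2 D ^ 2 / 3 - 1) / (x + D ^ 2) ≥ D ^ 2 / (7 D ^ (j + 1))`
  (`D ^ 2 ≥ 3`).
So `|u - log n| ≥ D / (7 D ^ j)` and `kn (D ^ j)⁻¹ (u - log n) ≤ D ^ j exp (-(D ^ 2 / 98))`.
Sum (`sum_cf`): `Gs ≤ (16 D) ^ (j + 1) D ^ j exp (-(D ^ 2 / 98)) ≤ c D ^ (j + 1)` for large `D`.
-/

namespace Pool.Agent.TNX

open Pool.Agent.TN Pool.Agent.MR Pool.Agent.BernOne Finset

theorem SU_tend (j : ℕ) {c : ℝ} (hc : 0 < c) : ∃ D0 : ℝ, 98 ≤ D0 ∧ ∀ D : ℝ, D0 ≤ D →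
    (16 * D) ^ (j + 1) * (D ^ j * Real.exp (-(D ^ 2 / 98))) ≤ c * D ^ (j + 1) := by
  have h := Real.tendsto_pow_mul_exp_neg_atTop_nhds_zero j
  have h2 := h.const_mul ((16 : ℝ) ^ (j + 1))
  rw [mul_zero] at h2
  have h3 := h2.eventually (gt_mem_nhds hc)
  obtain ⟨D1, hD1⟩ := Filter.eventually_atTop.1 h3
  refine ⟨max 98 D1, le_max_left _ _, fun D hD => ?_⟩
  have hD98 : 98 ≤ D := (le_max_left _ _).trans hD
  have hDp : 0 < D := by linarith
  have h4 := hD1 D ((le_max_right _ _).trans hD)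
  have h5 : Real.exp (-(D ^ 2 / 98)) ≤ Real.exp (-D) := by
    apply Real.exp_le_exp.2
    have : D ≤ D ^ 2 / 98 := by
      rw [le_div_iff₀ (by norm_num)]
      nlinarith
    linarith
  calc (16 * D) ^ (j + 1) * (D ^ j * Real.exp (-(D ^ 2 / 98)))
      = D ^ (j + 1) * ((16 : ℝ) ^ (j + 1) * (D ^ j * Real.exp (-(D ^ 2 / 98)))) := by
        rw [mul_pow]
        ring
    _ ≤ D ^ (j + 1) * ((16 : ℝ) ^ (j + 1) * (D ^ j * Real.exp (-D))) := by
        apply mul_le_mul_of_nonneg_left _ (by positivity)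
        apply mul_le_mul_of_nonneg_left _ (by positivity)
        exact mul_le_mul_of_nonneg_left h5 (by positivity)
    _ ≤ D ^ (j + 1) * c := mul_le_mul_of_nonneg_left h4.le (by positivity)
    _ = c * D ^ (j + 1) := by ring

theorem SU_log {a b : ℝ} (ha : 0 < a) (hb : 0 < b) : 1 - a / b ≤ Real.log b - Real.log a := by
  have h := Real.one_sub_inv_le_log_of_pos (div_pos hb ha)
  rw [Real.log_div hb.ne' ha.ne', inv_div] at h
  exact h

theorem short_upper (j : ℕ) (hj : 2 ≤ j) {c : ℝ} (hc : 0 < c) : ∃ D0 : ℝ, 1 ≤ D0 ∧ ∀ D : ℝ, D0 ≤ D →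
    ∀ x : ℕ, 1 ≤ x → |Real.log x - ((j : ℝ) + 1) * Real.log D| ≤ 1 / 4 →
    (∀ a : ℕ, x < a → (a : ℝ) ≤ x + D ^ 2 → 8 * D < P a) →
    ∀ u : ℝ, Real.log (x + D ^ 2 / 3) ≤ u → u ≤ Real.log (x + D ^ 2 / 3 + 1) →
      Gs D (j + 1) (D ^ j)⁻¹ u ≤ c * D ^ (j + 1) := by
  obtain ⟨D0, hD0, hT⟩ := SU_tend j hc
  refine ⟨D0, by linarith, ?_⟩
  intro D hD x hx hxl hgap u hu1 hu2
  have hD98 : 98 ≤ D := hD0.trans hD
  have hDp : 0 < D := by linarith
  have hx0 : (0 : ℝ) < x := by exact_mod_cast hx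
  obtain ⟨E, hE⟩ : ∃ E : ℝ, E = D ^ (j + 1) := ⟨_, rfl⟩
  have hE0 : 0 < E := by
    rw [hE]
    positivity
  have hDE : D ^ 2 ≤ E := by
    rw [hE]
    exact pow_le_pow_right₀ (by linarith) (by omega)
  have hxE : (x : ℝ) ≤ 4 / 3 * E := by
    have h1 := (abs_le.1 hxl).2
    have h2 : Real.log x ≤ Real.log E + 1 / 4 := by
      rw [hE, Real.log_pow]
      push_cast
      linarith
    have h3 : (x : ℝ) ≤ Real.exp (Real.log E + 1 / 4) := by
      rw [← Real.log_le_iff_le_exp hx0]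
      exact h2
    rw [Real.exp_add, Real.exp_log hE0] at h3
    have h4 : Real.exp (1 / 4) ≤ 4 / 3 := by
      have h5 : Real.exp (1 / 4) ^ 4 = Real.exp 1 := by
        rw [← Real.exp_nat_mul]
        norm_num
      have h6 := Real.exp_one_lt_d9
      by_contra hlt
      push Not at hlt
      have h7 : (4 / 3 : ℝ) ^ 4 < Real.exp (1 / 4) ^ 4 :=
        pow_lt_pow_left₀ hlt (by norm_num) (by norm_num)
      rw [h5] at h7
      norm_num at h7
      linarith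
    nlinarith
  have hD2 : 9604 ≤ D ^ 2 := by nlinarith
  have hθ0 : 0 < (D ^ j)⁻¹ := by positivity
  have hED : E = D ^ j * D := by
    rw [hE, pow_succ]
  -- distance
  have hdist : ∀ n : ℕ, 1 ≤ n → (P n : ℝ) ≤ 8 * D → D / 7 * (D ^ j)⁻¹ ≤ |u - Real.log n| := by
    intro n hn hPn
    have hn0 : (0 : ℝ) < n := by exact_mod_cast hn
    have hr : D / 7 * (D ^ j)⁻¹ = D ^ 2 / (7 * E) := by
      rw [hED]
      field_simp
    rw [hr]
    by_cases hnx : n ≤ x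
    · have hnx' : (n : ℝ) ≤ x := by exact_mod_cast hnx
      have h1 : Real.log n ≤ Real.log x := Real.log_le_log hn0 hnx'
      have h2 := SU_log hx0 (show 0 < (x : ℝ) + D ^ 2 / 3 by positivity)
      have h3 : D ^ 2 / (7 * E) ≤ 1 - (x : ℝ) / (x + D ^ 2 / 3) := by
        have h4 : 1 - (x : ℝ) / (x + D ^ 2 / 3) = D ^ 2 / (3 * x + D ^ 2) := by
          field_simp
          ring
        rw [h4]
        apply div_le_div_of_nonneg_left (by positivity) (by positivity)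
        linarith
      refine le_trans ?_ (le_abs_self _)
      linarith
    · have hnx' : x < n := not_le.1 hnx
      have hnb : (x : ℝ) + D ^ 2 < n := by
        by_contra hle
        have := hgap n hnx' (not_lt.1 hle)
        linarith
      have h1 : Real.log (x + D ^ 2) ≤ Real.log n := Real.log_le_log (by positivity) hnb.le
      have h2 := SU_log (show 0 < (x : ℝ) + D ^ 2 / 3 + 1 by positivity)
        (show 0 < (x : ℝ) + D ^ 2 by positivity)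
      have h3 : D ^ 2 / (7 * E) ≤ 1 - ((x : ℝ) + D ^ 2 / 3 + 1) / (x + D ^ 2) := by
        have h4 : 1 - ((x : ℝ) + D ^ 2 / 3 + 1) / (x + D ^ 2) = (2 * D ^ 2 / 3 - 1) / (x + D ^ 2) := by
          field_simp
          ring
        rw [h4, div_le_div_iff₀ (by positivity) (by positivity)]
        have h5 : (x : ℝ) + D ^ 2 ≤ 7 / 3 * E := by linarith
        have h6 : D ^ 2 / 3 ≤ 2 * D ^ 2 / 3 - 1 := by linarith
        calc D ^ 2 * ((x : ℝ) + D ^ 2) ≤ D ^ 2 * (7 / 3 * E) :=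
              mul_le_mul_of_nonneg_left h5 (by positivity)
          _ = D ^ 2 / 3 * (7 * E) := by ring
          _ ≤ (2 * D ^ 2 / 3 - 1) * (7 * E) := mul_le_mul_of_nonneg_right h6 (by positivity)
      refine le_trans ?_ (neg_le_abs _)
      linarith
  -- kernel
  have hkn : ∀ y : ℝ, D / 7 * (D ^ j)⁻¹ ≤ |y| → kn (D ^ j)⁻¹ y ≤ D ^ j * Real.exp (-(D ^ 2 / 98)) := by
    intro y hy
    unfold kn
    have h1 : (D / 7 * (D ^ j)⁻¹) ^ 2 ≤ y ^ 2 := by
      rw [← sq_abs y]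
      exact pow_le_pow_left₀ (by positivity) hy 2
    have h2 : D ^ 2 / 98 ≤ y ^ 2 / (2 * ((D ^ j)⁻¹) ^ 2) := by
      rw [le_div_iff₀ (by positivity)]
      calc D ^ 2 / 98 * (2 * ((D ^ j)⁻¹) ^ 2) = (D / 7 * (D ^ j)⁻¹) ^ 2 := by ring
        _ ≤ y ^ 2 := h1
    have h3 : Real.exp (-y ^ 2 / (2 * ((D ^ j)⁻¹) ^ 2)) ≤ Real.exp (-(D ^ 2 / 98)) := by
      apply Real.exp_le_exp.2
      rw [neg_div]
      linarith
    have h4 : 1 ≤ √(2 * Real.pi) := by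
      rw [Real.one_le_sqrt]
      have := Real.pi_gt_three
      linarith
    rw [div_le_iff₀ (by positivity)]
    calc Real.exp (-y ^ 2 / (2 * ((D ^ j)⁻¹) ^ 2)) ≤ Real.exp (-(D ^ 2 / 98)) := h3
      _ = Real.exp (-(D ^ 2 / 98)) * 1 := by ring
      _ ≤ Real.exp (-(D ^ 2 / 98)) * √(2 * Real.pi) :=
          mul_le_mul_of_nonneg_left h4 (Real.exp_pos _).le
      _ = D ^ j * Real.exp (-(D ^ 2 / 98)) * ((D ^ j)⁻¹ * √(2 * Real.pi)) := by
          field_simp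
  unfold Gs
  calc ∑ n ∈ Icc 1 (Yj D (j + 1)), cf D (j + 1) n * kn (D ^ j)⁻¹ (u - Real.log n)
      ≤ ∑ n ∈ Icc 1 (Yj D (j + 1)), cf D (j + 1) n * (D ^ j * Real.exp (-(D ^ 2 / 98))) := by
        apply Finset.sum_le_sum
        intro n hn
        rw [Finset.mem_Icc] at hn
        by_cases h0 : cf D (j + 1) n = 0
        · rw [h0, zero_mul, zero_mul]
        · apply mul_le_mul_of_nonneg_left _ (cf_nonneg _ _ _)
          exact hkn _ (hdist n hn.1 (cf_supp (by linarith) h0).2.2)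
    _ = (∑ n ∈ Icc 1 (Yj D (j + 1)), cf D (j + 1) n) * (D ^ j * Real.exp (-(D ^ 2 / 98))) := by
        rw [Finset.sum_mul]
    _ ≤ (16 * D) ^ (j + 1) * (D ^ j * Real.exp (-(D ^ 2 / 98))) :=
        mul_le_mul_of_nonneg_right (sum_cf (by linarith) (j + 1)) (by positivity)
    _ ≤ c * D ^ (j + 1) := hT D hD

end Pool.Agent.TNX
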