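import Pool.Agent.TNX.SV2
import Pool.Agent.TNX.SL
import Pool.Agent.TNX.SU

/-!
# TNX/SM: few gaps between smooth numbers (difficulty 4)

`δ`, `C`, `D0` from `variance j`, `c` from `long_lower j`, `short_upper j` with `c / 2`.  Let `B` be the set (finite: `x ≤ (4/3) D ^ (j + 1)`).
For `x ∈ B` let `I x = Ico (log (x + D ^ 2 / 3)) (log (x + 1 + D ^ 2 / 3))`: pairwise disjoint.  For `u ∈ I x`:
`u ≥ log x ≥ (j + 1) log D - 1 / 4`, `u ≤ log x + (D ^ 2 / 3 + 1) / x ≤ log x + 1 / 4` (`x ≥ e ^ (-1/4) D ^ (j + 1) ≥ (3 / 4) D ^ 3`, `D` large), so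
`|u - (j + 1) log D| ≤ 1 / 2`, the long smoothing is `≥ c D ^ (j + 1)`, the short one `≤ (c / 2) D ^ (j + 1)`, and the square of the difference is
`≥ (c / 2) ^ 2 D ^ (2 (j + 1))`.  The length of `I x` is `log (1 + 1 / (x + D ^ 2 / 3)) ≥ 1 / (x + D ^ 2 / 3 + 1) ≥ 1 / (2 D ^ (j + 1))`.
So `#B * (1 / (2 D ^ (j + 1))) * (c / 2) ^ 2 D ^ (2 (j + 1)) ≤ ∫ (difference) ^ 2 ≤ C D ^ (2 (j + 1) - δ)`:
`MeasureTheory.integral_biUnion_finset` (or `setIntegral` over the finite union, `setIntegral_le_integral`),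
`setIntegral_ge_of_const_le` (or `setIntegral_mono_on`).
-/

namespace Pool.Agent.TNX

open Pool.Agent.TN Pool.Agent.MR Pool.Agent.BernOne Finset MeasureTheory

/-- size of `x` -/
theorem sm_size {j : ℕ} {D : ℝ} (hD : 0 < D) {x : ℕ} (hx : 1 ≤ x)
    (h : |Real.log x - ((j : ℝ) + 1) * Real.log D| ≤ 1 / 4) :
    3 / 4 * D ^ (j + 1) ≤ (x : ℝ) ∧ (x : ℝ) ≤ 4 / 3 * D ^ (j + 1) := by
  have hx0 : (0 : ℝ) < x := by exact_mod_cast hx
  have hpow : Real.exp (((j : ℝ) + 1) * Real.log D) = D ^ (j + 1) := by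
    rw [mul_comm, Real.exp_mul, Real.exp_log hD, ← Real.rpow_natCast]
    push_cast
    rfl
  have hx1 : (x : ℝ) = Real.exp (Real.log x) := (Real.exp_log hx0).symm
  obtain ⟨h1, h2⟩ := abs_le.mp h
  have hDp : 0 < D ^ (j + 1) := by positivity
  have he : (3 : ℝ) / 4 ≤ Real.exp (-(1 / 4)) := by
    have := Real.add_one_le_exp (-(1 / 4) : ℝ)
    linarith
  have he2 : Real.exp (1 / 4) ≤ (4 : ℝ) / 3 := by
    have h3 : Real.exp (1 / 4 : ℝ) = (Real.exp (-(1 / 4)))⁻¹ := by rw [Real.exp_neg, inv_inv]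
    rw [h3, inv_le_comm₀ (Real.exp_pos _) (by norm_num)]
    linarith
  constructor
  · calc 3 / 4 * D ^ (j + 1) ≤ Real.exp (-(1 / 4)) * D ^ (j + 1) :=
          mul_le_mul_of_nonneg_right he hDp.le
      _ = Real.exp (-(1 / 4) + ((j : ℝ) + 1) * Real.log D) := by rw [Real.exp_add, hpow]
      _ ≤ Real.exp (Real.log x) := Real.exp_le_exp.mpr (by linarith)
      _ = x := hx1.symm
  · calc (x : ℝ) = Real.exp (Real.log x) := hx1
      _ ≤ Real.exp (1 / 4 + ((j : ℝ) + 1) * Real.log D) := Real.exp_le_exp.mpr (by linarith)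
      _ = Real.exp (1 / 4) * D ^ (j + 1) := by rw [Real.exp_add, hpow]
      _ ≤ 4 / 3 * D ^ (j + 1) := mul_le_mul_of_nonneg_right he2 hDp.le

/-- the interval attached to `x` -/
theorem sm_mem {j : ℕ} (hj : 2 ≤ j) {D : ℝ} (hD : 8 ≤ D) {x : ℕ} (hx : 1 ≤ x)
    (h : |Real.log x - ((j : ℝ) + 1) * Real.log D| ≤ 1 / 4) {u : ℝ}
    (h1 : Real.log (x + D ^ 2 / 3) ≤ u) (h2 : u ≤ Real.log (x + D ^ 2 / 3 + 1)) :
    |u - ((j : ℝ) + 1) * Real.log D| ≤ 1 / 2 := by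
  have hD0 : 0 < D := by linarith
  have hx0 : (0 : ℝ) < x := by exact_mod_cast hx
  obtain ⟨hs1, _⟩ := sm_size hD0 hx h
  obtain ⟨h3, h4⟩ := abs_le.mp h
  have hD3 : D ^ 3 ≤ D ^ (j + 1) := pow_le_pow_right₀ (by linarith) (by omega)
  have hD2 : 64 ≤ D ^ 2 := by nlinarith
  have hD33 : 8 * D ^ 2 ≤ D ^ 3 := by nlinarith
  have h5 : Real.log x ≤ Real.log (x + D ^ 2 / 3) := Real.log_le_log hx0 (by linarith)
  have h6 : Real.log (x + D ^ 2 / 3 + 1) ≤ Real.log x + 1 / 4 := by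
    have h7 : (x : ℝ) + D ^ 2 / 3 + 1 ≤ x * (1 + 1 / 4) := by nlinarith
    have h8 : Real.log (x + D ^ 2 / 3 + 1) ≤ Real.log (x * (1 + 1 / 4)) :=
      Real.log_le_log (by positivity) h7
    rw [Real.log_mul hx0.ne' (by norm_num)] at h8
    have h9 := Real.log_le_sub_one_of_pos (show (0 : ℝ) < 1 + 1 / 4 by norm_num)
    linarith
  rw [abs_le]
  constructor <;> linarith

/-- the length of the interval -/
theorem sm_len {j : ℕ} (hj : 2 ≤ j) {D : ℝ} (hD : 8 ≤ D) {x : ℕ} (hx : 1 ≤ x)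
    (h : |Real.log x - ((j : ℝ) + 1) * Real.log D| ≤ 1 / 4) :
    1 / (2 * D ^ (j + 1)) ≤ Real.log (x + D ^ 2 / 3 + 1) - Real.log (x + D ^ 2 / 3) := by
  have hD0 : 0 < D := by linarith
  have hx0 : (0 : ℝ) < x := by exact_mod_cast hx
  obtain ⟨_, hs2⟩ := sm_size hD0 hx h
  have hD3 : D ^ 3 ≤ D ^ (j + 1) := pow_le_pow_right₀ (by linarith) (by omega)
  have hD2 : 64 ≤ D ^ 2 := by nlinarith
  have hD33 : 8 * D ^ 2 ≤ D ^ 3 := by nlinarith
  have hpos : 0 < (x : ℝ) + D ^ 2 / 3 := by positivity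
  have hpos1 : 0 < (x : ℝ) + D ^ 2 / 3 + 1 := by positivity
  rw [← Real.log_div hpos1.ne' hpos.ne']
  have h1 := Real.one_sub_inv_le_log_of_pos (div_pos hpos1 hpos)
  refine le_trans ?_ h1
  rw [inv_div]
  have h2 : 1 - ((x : ℝ) + D ^ 2 / 3) / (x + D ^ 2 / 3 + 1) = 1 / (x + D ^ 2 / 3 + 1) := by
    field_simp
    ring
  rw [h2]
  exact one_div_le_one_div_of_le hpos1 (by linarith)

theorem gap_count (j : ℕ) (hj : 2 ≤ j) : ∃ δ C D0 : ℝ, 0 < δ ∧ 0 < C ∧ 1 ≤ D0 ∧ ∀ D : ℝ, D0 ≤ D →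
    ({x : ℕ | 1 ≤ x ∧ |Real.log x - ((j : ℝ) + 1) * Real.log D| ≤ 1 / 4 ∧
      ∀ a : ℕ, x < a → (a : ℝ) ≤ x + D ^ 2 → 8 * D < P a}.ncard : ℝ) ≤ C * D ^ ((j : ℝ) + 1 - δ) := by
  obtain ⟨δ, C1, D1, hδ, hC1, hD1, hvar⟩ := variance j (by omega)
  obtain ⟨c, D2, hc, hD2, hlow⟩ := long_lower j
  obtain ⟨D3, hD3, hup⟩ := short_upper j hj (half_pos hc)
  refine ⟨δ, 8 * C1 / c ^ 2, max 8 (max D1 (max D2 D3)), hδ, by positivity,
    le_trans (by norm_num) (le_max_left _ _), ?_⟩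
  intro D hD
  have hD8 : 8 ≤ D := (le_max_left _ _).trans hD
  have hDD1 : D1 ≤ D := ((le_max_left _ _).trans (le_max_right _ _)).trans hD
  have hDD2 : D2 ≤ D := ((le_max_left _ _).trans ((le_max_right _ _).trans (le_max_right _ _))).trans hD
  have hDD3 : D3 ≤ D := ((le_max_right _ _).trans ((le_max_right _ _).trans (le_max_right _ _))).trans hD
  have hD0 : 0 < D := by linarith
  obtain ⟨hI, hle⟩ := hvar D hDD1
  set B : Set ℕ := {x : ℕ | 1 ≤ x ∧ |Real.log x - ((j : ℝ) + 1) * Real.log D| ≤ 1 / 4 ∧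
      ∀ a : ℕ, x < a → (a : ℝ) ≤ x + D ^ 2 → 8 * D < P a} with hB
  have hfin : B.Finite := by
    refine (Set.finite_Iic ⌊4 / 3 * D ^ (j + 1)⌋₊).subset ?_
    intro x hx
    exact Nat.le_floor (sm_size hD0 hx.1 hx.2.1).2
  set s : Finset ℕ := hfin.toFinset with hs
  have hmem : ∀ x ∈ s, x ∈ B := fun x hx => hfin.mem_toFinset.mp hx
  set f : ℝ → ℝ := fun u =>
    (Gs D (j + 1) (D ^ j)⁻¹ u - Gs D (j + 1) (D ^ (-(1 / 2) : ℝ)) u) ^ 2 with hf
  set I : ℕ → Set ℝ := fun x => Set.Ico (Real.log (x + D ^ 2 / 3)) (Real.log (x + D ^ 2 / 3 + 1)) with hIdef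
  have hmeas : ∀ x ∈ s, MeasurableSet (I x) := fun x _ => measurableSet_Ico
  have hdis : Set.Pairwise (↑s) (Function.onFun Disjoint I) := by
    have key : ∀ x y : ℕ, x < y → Disjoint (I x) (I y) := by
      intro x y hxy
      rw [Set.disjoint_left]
      intro u hu hu'
      have h1 : ((x : ℝ) + 1) ≤ y := by exact_mod_cast hxy
      have h2 : Real.log ((x : ℝ) + D ^ 2 / 3 + 1) ≤ Real.log ((y : ℝ) + D ^ 2 / 3) :=
        Real.log_le_log (by positivity) (by linarith)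
      exact absurd (hu.2.trans_le (h2.trans hu'.1)) (lt_irrefl _)
    intro x _ y _ hxy
    rcases lt_or_gt_of_ne hxy with h | h
    · exact key x y h
    · exact (key y x h).symm
  have hfx : ∀ x ∈ s, ∀ u ∈ I x, (c / 2 * D ^ (j + 1)) ^ 2 ≤ f u := by
    intro x hx u hu
    obtain ⟨hx1, hx2, hx3⟩ := hmem x hx
    have h1 := hlow D hDD2 u (sm_mem hj hD8 hx1 hx2 hu.1 hu.2.le)
    have h2 := hup D hDD3 x hx1 hx2 hx3 u hu.1 hu.2.le
    have h3 : c / 2 * D ^ (j + 1) ≤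
        Gs D (j + 1) (D ^ (-(1 / 2) : ℝ)) u - Gs D (j + 1) (D ^ j)⁻¹ u := by linarith
    have h4 : 0 ≤ c / 2 * D ^ (j + 1) := by positivity
    have h5 := pow_le_pow_left₀ h4 h3 2
    simp only [hf]
    calc _ ≤ _ := h5
      _ = _ := by ring
  have hint : ∀ x ∈ s, (c / 2 * D ^ (j + 1)) ^ 2 * (1 / (2 * D ^ (j + 1))) ≤ ∫ u in I x, f u := by
    intro x hx
    obtain ⟨hx1, hx2, _⟩ := hmem x hx
    have h1 := setIntegral_ge_of_const_le_real (μ := volume) (hmeas x hx) (by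
      simp only [hIdef, Real.volume_Ico]
      exact ENNReal.ofReal_ne_top) (hfx x hx) hI.integrableOn
    refine le_trans ?_ h1
    refine mul_le_mul_of_nonneg_left ?_ (sq_nonneg _)
    have h2 := sm_len hj hD8 hx1 hx2
    have h3 : volume.real (I x) = Real.log (x + D ^ 2 / 3 + 1) - Real.log (x + D ^ 2 / 3) := by
      simp only [hIdef]
      rw [Real.volume_real_Ico_of_le]
      exact Real.log_le_log (by positivity) (by linarith)
    rw [h3]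
    exact h2
  have hsum : (s.card : ℝ) * ((c / 2 * D ^ (j + 1)) ^ 2 * (1 / (2 * D ^ (j + 1)))) ≤
      C1 * D ^ (2 * ((j : ℝ) + 1) - δ) := by
    calc (s.card : ℝ) * ((c / 2 * D ^ (j + 1)) ^ 2 * (1 / (2 * D ^ (j + 1))))
        = ∑ x ∈ s, (c / 2 * D ^ (j + 1)) ^ 2 * (1 / (2 * D ^ (j + 1))) := by
          rw [Finset.sum_const, nsmul_eq_mul]
      _ ≤ ∑ x ∈ s, ∫ u in I x, f u := Finset.sum_le_sum hint
      _ = ∫ u in ⋃ x ∈ s, I x, f u :=
          (integral_biUnion_finset s hmeas hdis fun x _ => hI.integrableOn).symm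
      _ ≤ ∫ u, f u := setIntegral_le_integral hI (Filter.Eventually.of_forall fun u => sq_nonneg _)
      _ ≤ _ := hle
  have hcard : B.ncard = s.card := Set.ncard_eq_toFinset_card B hfin
  rw [hcard]
  have hDp : 0 < D ^ (j + 1) := by positivity
  have e1 : (c / 2 * D ^ (j + 1)) ^ 2 * (1 / (2 * D ^ (j + 1))) = c ^ 2 / 8 * D ^ (j + 1) := by
    field_simp
    ring
  have e2 : D ^ (2 * ((j : ℝ) + 1) - δ) = D ^ (j + 1) * D ^ ((j : ℝ) + 1 - δ) := by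
    have : D ^ (j + 1) = D ^ ((j : ℝ) + 1) := by
      rw [← Real.rpow_natCast]
      push_cast
      rfl
    rw [this, ← Real.rpow_add hD0]
    congr 1
    ring
  rw [e1, e2] at hsum
  have h9 : (s.card : ℝ) * (c ^ 2 / 8) ≤ C1 * D ^ ((j : ℝ) + 1 - δ) := by
    have : (s.card : ℝ) * (c ^ 2 / 8) * D ^ (j + 1) ≤ C1 * D ^ ((j : ℝ) + 1 - δ) * D ^ (j + 1) := by
      calc _ = (s.card : ℝ) * (c ^ 2 / 8 * D ^ (j + 1)) := by ring
        _ ≤ _ := hsum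
        _ = _ := by ring
    exact le_of_mul_le_mul_right this hDp
  have h10 : 8 * C1 / c ^ 2 * D ^ ((j : ℝ) + 1 - δ) = (C1 * D ^ ((j : ℝ) + 1 - δ)) / (c ^ 2 / 8) := by
    field_simp
  rw [h10, le_div_iff₀ (by positivity)]
  exact h9

end Pool.Agent.TNX
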