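import Pool.Agent.TNX.SB

/-!
# TNX/SV1: pointwise bound for the variance (difficulty 3)

Let `F = ‖St D (-t)‖ ≤ 16 D` (`norm_St_le`), `T = D ^ j`, `gw T t = exp (-(t / T) ^ 2)`, `x = |t|`.
* `x ≤ D ^ (1 / 8)`: `min 1 (..) ≤ (D ^ (-1/2) t) ^ 4 ≤ D ^ (-2) D ^ (1 / 2) = D ^ (-3/2)`, `gw T t ≤ 1 ≤ 3 * gw (D ^ (1 / 8)) t`
  (`gw (D ^ (1 / 8)) t ≥ exp (-1) ≥ 1 / 3`, as `exp 1 < 3`): the first term.
* `D ^ (1 / 8) ≤ x ≤ D ^ (j + 1)`: `F ≤ D ^ (1 - δ)` by `hS` (applied to `-t`), `min ≤ 1`, `F ^ (2 (j + 1)) = F ^ 2 * F ^ (2 j)`: the second term.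
* `x > D ^ (j + 1)`: `(t / T) ^ 2 ≥ D ^ 2`, so `exp (-(t / T) ^ 2) ≤ exp (-(D ^ 2 / 2)) * exp (-(t / T) ^ 2 / 2) ≤`
  `exp (-(D ^ 2 / 2)) * gw (2 * T) t`: the third term.
All terms are nonnegative.
-/

namespace Pool.Agent.TNX

open Pool.Agent.TN Pool.Agent.MR Pool.Agent.BernOne Finset

theorem sv_pointwise (j : ℕ) {D δ : ℝ} (hD : 1 ≤ D)
    (hS : ∀ t : ℝ, D ^ (1 / 8 : ℝ) ≤ |t| → |t| ≤ D ^ (j + 1) → ‖St D t‖ ≤ D ^ (1 - δ)) (t : ℝ) :
    ‖St D (-t) ^ (j + 1)‖ ^ 2 * min 1 ((D ^ (-(1 / 2) : ℝ) * t) ^ 4) * gw (D ^ j) t ≤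
      (16 * D) ^ (2 * (j + 1)) * D ^ (-(3 / 2) : ℝ) * 3 * gw (D ^ (1 / 8 : ℝ)) t +
      D ^ (2 - 2 * δ) * (‖St D (-t) ^ j‖ ^ 2 * gw (D ^ j) t) +
      (16 * D) ^ (2 * (j + 1)) * Real.exp (-(D ^ 2 / 2)) * gw (2 * D ^ j) t := by
  have hD0 : 0 < D := by linarith
  obtain ⟨F, hF⟩ : ∃ F : ℝ, F = ‖St D (-t)‖ := ⟨_, rfl⟩
  have hF0 : 0 ≤ F := by rw [hF]; exact norm_nonneg _
  have hF16 : F ≤ 16 * D := by rw [hF]; exact norm_St_le hD _
  have hT : 0 < D ^ j := by positivity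
  have hgw0 : ∀ T s : ℝ, 0 < gw T s := fun T s => Real.exp_pos _
  have hgw1 : ∀ T s : ℝ, gw T s ≤ 1 := by
    intro T s
    unfold gw
    rw [Real.exp_le_one_iff]
    have := sq_nonneg (s / T)
    linarith
  have hmin0 : 0 ≤ min 1 ((D ^ (-(1 / 2) : ℝ) * t) ^ 4) := le_min (by norm_num) (by positivity)
  have hmin1 : min 1 ((D ^ (-(1 / 2) : ℝ) * t) ^ 4) ≤ 1 := min_le_left _ _
  have e1 : ‖St D (-t) ^ (j + 1)‖ ^ 2 = F ^ (2 * (j + 1)) := by
    rw [norm_pow, ← hF, ← pow_mul, mul_comm (j + 1) 2]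
  have e2 : ‖St D (-t) ^ j‖ ^ 2 = F ^ (2 * j) := by
    rw [norm_pow, ← hF, ← pow_mul, mul_comm j 2]
  rw [e1, e2]
  have hFA : F ^ (2 * (j + 1)) ≤ (16 * D) ^ (2 * (j + 1)) := pow_le_pow_left₀ hF0 hF16 _
  have t1 : 0 ≤ (16 * D) ^ (2 * (j + 1)) * D ^ (-(3 / 2) : ℝ) * 3 * gw (D ^ (1 / 8 : ℝ)) t := by
    have := (hgw0 (D ^ (1 / 8 : ℝ)) t).le
    positivity
  have t2 : 0 ≤ D ^ (2 - 2 * δ) * (F ^ (2 * j) * gw (D ^ j) t) := by
    have := (hgw0 (D ^ j) t).le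
    positivity
  have t3 : 0 ≤ (16 * D) ^ (2 * (j + 1)) * Real.exp (-(D ^ 2 / 2)) * gw (2 * D ^ j) t := by
    have := (hgw0 (2 * D ^ j) t).le
    positivity
  have hFp : 0 ≤ F ^ (2 * (j + 1)) := by positivity
  rcases le_total |t| (D ^ (1 / 8 : ℝ)) with h1 | h1
  · -- first case
    have hD8 : 0 < D ^ (1 / 8 : ℝ) := Real.rpow_pos_of_pos hD0 _
    have hm : min 1 ((D ^ (-(1 / 2) : ℝ) * t) ^ 4) ≤ D ^ (-(3 / 2) : ℝ) := by
      refine (min_le_right _ _).trans ?_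
      have q1 : (D ^ (-(1 / 2) : ℝ)) ^ 4 = D ^ (-2 : ℝ) := by
        rw [← Real.rpow_natCast, ← Real.rpow_mul hD0.le]
        norm_num
      have q2 : t ^ 4 ≤ D ^ (1 / 2 : ℝ) := by
        have : t ^ 4 = |t| ^ 4 := by
          rw [← abs_pow, abs_of_nonneg (by positivity)]
        rw [this]
        calc |t| ^ 4 ≤ (D ^ (1 / 8 : ℝ)) ^ 4 := pow_le_pow_left₀ (abs_nonneg _) h1 _
          _ = D ^ (1 / 2 : ℝ) := by
            rw [← Real.rpow_natCast, ← Real.rpow_mul hD0.le]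
            norm_num
      rw [mul_pow, q1]
      calc D ^ (-2 : ℝ) * t ^ 4 ≤ D ^ (-2 : ℝ) * D ^ (1 / 2 : ℝ) :=
            mul_le_mul_of_nonneg_left q2 (Real.rpow_nonneg hD0.le _)
        _ = D ^ (-(3 / 2) : ℝ) := by
          rw [← Real.rpow_add hD0]
          norm_num
    have hg : gw (D ^ j) t ≤ 3 * gw (D ^ (1 / 8 : ℝ)) t := by
      have q3 : Real.exp (-1) ≤ gw (D ^ (1 / 8 : ℝ)) t := by
        unfold gw
        apply Real.exp_le_exp.mpr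
        have : (t / D ^ (1 / 8 : ℝ)) ^ 2 ≤ 1 := by
          rw [← sq_abs, abs_div, abs_of_pos hD8]
          have : |t| / D ^ (1 / 8 : ℝ) ≤ 1 := (div_le_one hD8).mpr h1
          have h0 : 0 ≤ |t| / D ^ (1 / 8 : ℝ) := by positivity
          nlinarith
        linarith
      have q4 : (1 : ℝ) ≤ 3 * Real.exp (-1) := by
        rw [Real.exp_neg]
        have := Real.exp_one_lt_d9
        have h5 : 0 < Real.exp 1 := Real.exp_pos _
        rw [← div_eq_mul_inv, le_div_iff₀ h5]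
        linarith
      have := hgw1 (D ^ j) t
      linarith
    have main : F ^ (2 * (j + 1)) * min 1 ((D ^ (-(1 / 2) : ℝ) * t) ^ 4) * gw (D ^ j) t ≤
        (16 * D) ^ (2 * (j + 1)) * D ^ (-(3 / 2) : ℝ) * 3 * gw (D ^ (1 / 8 : ℝ)) t := by
      calc F ^ (2 * (j + 1)) * min 1 ((D ^ (-(1 / 2) : ℝ) * t) ^ 4) * gw (D ^ j) t
          ≤ ((16 * D) ^ (2 * (j + 1)) * D ^ (-(3 / 2) : ℝ)) * (3 * gw (D ^ (1 / 8 : ℝ)) t) := by
            apply mul_le_mul _ hg (hgw0 _ _).le (by positivity)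
            exact mul_le_mul hFA hm hmin0 (by positivity)
        _ = _ := by ring
    linarith
  · rcases le_total |t| (D ^ (j + 1)) with h2 | h2
    · have hSt : F ≤ D ^ (1 - δ) := by
        rw [hF]
        apply hS
        · rwa [abs_neg]
        · rwa [abs_neg]
      have hF2 : F ^ 2 ≤ D ^ (2 - 2 * δ) := by
        calc F ^ 2 ≤ (D ^ (1 - δ)) ^ 2 := pow_le_pow_left₀ hF0 hSt _
          _ = D ^ (2 - 2 * δ) := by
            rw [← Real.rpow_natCast, ← Real.rpow_mul hD0.le]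
            congr 1
            push_cast
            ring
      have main : F ^ (2 * (j + 1)) * min 1 ((D ^ (-(1 / 2) : ℝ) * t) ^ 4) * gw (D ^ j) t ≤
          D ^ (2 - 2 * δ) * (F ^ (2 * j) * gw (D ^ j) t) := by
        have e3 : F ^ (2 * (j + 1)) = F ^ 2 * F ^ (2 * j) := by
          rw [← pow_add]
          congr 1
          ring
        rw [e3]
        calc F ^ 2 * F ^ (2 * j) * min 1 ((D ^ (-(1 / 2) : ℝ) * t) ^ 4) * gw (D ^ j) t
            ≤ F ^ 2 * F ^ (2 * j) * 1 * gw (D ^ j) t := by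
              apply mul_le_mul_of_nonneg_right _ (hgw0 _ _).le
              exact mul_le_mul_of_nonneg_left hmin1 (by positivity)
          _ = F ^ 2 * (F ^ (2 * j) * gw (D ^ j) t) := by ring
          _ ≤ _ := mul_le_mul_of_nonneg_right hF2 (mul_nonneg (by positivity) (hgw0 _ _).le)
      linarith
    · have hg : gw (D ^ j) t ≤ Real.exp (-(D ^ 2 / 2)) * gw (2 * D ^ j) t := by
        unfold gw
        rw [← Real.exp_add]
        apply Real.exp_le_exp.mpr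
        have q1 : D ≤ |t| / D ^ j := by
          rw [le_div_iff₀ hT]
          calc D * D ^ j = D ^ (j + 1) := by ring
            _ ≤ |t| := h2
        have q2 : D ^ 2 ≤ (t / D ^ j) ^ 2 := by
          rw [← sq_abs (t / D ^ j), abs_div, abs_of_pos hT]
          exact pow_le_pow_left₀ hD0.le q1 _
        have q3 : (t / (2 * D ^ j)) ^ 2 = (t / D ^ j) ^ 2 / 4 := by
          field_simp
          ring
        rw [q3]
        have := sq_nonneg (t / D ^ j)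
        linarith
      have main : F ^ (2 * (j + 1)) * min 1 ((D ^ (-(1 / 2) : ℝ) * t) ^ 4) * gw (D ^ j) t ≤
          (16 * D) ^ (2 * (j + 1)) * Real.exp (-(D ^ 2 / 2)) * gw (2 * D ^ j) t := by
        calc F ^ (2 * (j + 1)) * min 1 ((D ^ (-(1 / 2) : ℝ) * t) ^ 4) * gw (D ^ j) t
            ≤ ((16 * D) ^ (2 * (j + 1)) * 1) * (Real.exp (-(D ^ 2 / 2)) * gw (2 * D ^ j) t) := by
              apply mul_le_mul _ hg (hgw0 _ _).le (by positivity)
              exact mul_le_mul hFA hmin1 hmin0 (by positivity)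
          _ = _ := by ring
      linarith

end Pool.Agent.TNX
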