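import Pool.Agent.TNX.SV1

/-!
# TNX/SV2: the variance (difficulty 4)

`gauss_diff` (`BernOne/GDiff.lean`) with `s = Icc 1 (Yj D (j + 1))`, `c n = (cf D (j + 1) n : ℂ)`, `θ = (D ^ j)⁻¹ ≤ θ2 = D ^ (-1/2)` (`j ≥ 1`): the
sum inside the norm is the difference of the two `Gs` (as in `psi_l2`), `dp s c t = St D (-t) ^ (j + 1)` (`dp_cf`), `1 / θ = D ^ j`.
`St_large` (`MR/AStLarge.lean`) with `C = j + 1` gives `δ`, `M0`: for `D ≥ M0` the hypothesis `hS` of `sv_pointwise` holds (`rpow_natCast`).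
Integrate `sv_pointwise` (`integral_mono_of_nonneg` / `integral_mono`; all terms integrable: `integrable_gw_one`, `integrable_dp`):
* `∫ gw T = √π T` (`integral_gaussian`), `≤ 2 T`; the first term is `≤ 6 (16 D) ^ (2 (j + 1)) D ^ (-3/2) D ^ (1/8)`
  `≤ C1 D ^ (2 (j + 1) - 1)`;
* `∫ ‖St ^ j‖ ^ 2 gw (D ^ j) ≤ 10 (D ^ j + Yj D j) ∑ cf ^ 2` (`mvt`, `dp_cf`), `Yj D j ≤ (8 D) ^ j`, `sum_cf_sq` with `ε = δ`:
  the second term is `≤ D ^ (2 - 2 δ) * 10 (1 + 8 ^ j) D ^ j * C D ^ (j + δ) = C2 D ^ (2 (j + 1) - δ)`;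
* the third term is `≤ (16 D) ^ (2 (j + 1)) * exp (-(D ^ 2 / 2)) * 4 D ^ j`, and `exp (-(D ^ 2 / 2)) D ^ (j + 1)` is bounded for `D ≥ 1`
  (`D ^ (j+1) ≤ C exp (D ^ 2 / 2)`, for example from `Real.pow_div_factorial_le_exp` with `D ^ 2 / 2`).
Take the final exponent `δ' = min δ 1`.
-/

namespace Pool.Agent.TNX

open Pool.Agent.TN Pool.Agent.MR Pool.Agent.BernOne Finset MeasureTheory

theorem sv2_gw_integral {T : ℝ} (hT : 0 < T) : ∫ t : ℝ, gw T t ≤ 2 * T := by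
  have h1 : ∀ t : ℝ, gw T t = Real.exp (-(1 / T ^ 2) * t ^ 2) := by
    intro t
    unfold gw
    rw [div_pow, neg_mul, one_div_mul_eq_div]
  have h2 : ∫ t : ℝ, gw T t = √(Real.pi / (1 / T ^ 2)) := by
    rw [← integral_gaussian]
    exact integral_congr_ae (Filter.Eventually.of_forall h1)
  rw [h2, div_div_eq_mul_div, div_one, Real.sqrt_mul Real.pi_pos.le, Real.sqrt_sq hT.le]
  have h3 : √Real.pi ≤ 2 := by
    rw [Real.sqrt_le_left (by norm_num)]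
    have := Real.pi_le_four
    linarith
  exact mul_le_mul_of_nonneg_right h3 hT.le

theorem sv2_exp (j : ℕ) {D : ℝ} (hD : 1 ≤ D) :
    D ^ (2 * (j + 1)) * Real.exp (-(D ^ 2 / 2)) ≤ 2 ^ (j + 1) * ((j + 1).factorial : ℝ) := by
  have h1 := Real.pow_div_factorial_le_exp (D ^ 2 / 2) (by positivity) (j + 1)
  have h2 : (0 : ℝ) < ((j + 1).factorial : ℝ) := by exact_mod_cast Nat.factorial_pos _
  rw [div_le_iff₀ h2, div_pow, div_le_iff₀ (by positivity)] at h1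
  rw [Real.exp_neg, ← div_eq_mul_inv, div_le_iff₀ (Real.exp_pos _)]
  calc D ^ (2 * (j + 1)) = (D ^ 2) ^ (j + 1) := by rw [pow_mul]
    _ ≤ _ := h1
    _ = _ := by ring

/-- the integral of the square is bounded by the three terms -/
theorem sv2_main (j : ℕ) (hj : 1 ≤ j) {D δ : ℝ} (hD : 1 ≤ D)
    (hS : ∀ t : ℝ, D ^ (1 / 8 : ℝ) ≤ |t| → |t| ≤ D ^ (j + 1) → ‖St D t‖ ≤ D ^ (1 - δ)) :
    Integrable (fun u : ℝ =>
      (Gs D (j + 1) (D ^ j)⁻¹ u - Gs D (j + 1) (D ^ (-(1 / 2) : ℝ)) u) ^ 2) ∧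
    ∫ u : ℝ, (Gs D (j + 1) (D ^ j)⁻¹ u - Gs D (j + 1) (D ^ (-(1 / 2) : ℝ)) u) ^ 2 ≤
      (16 * D) ^ (2 * (j + 1)) * D ^ (-(3 / 2) : ℝ) * 3 * (2 * D ^ (1 / 8 : ℝ)) +
      D ^ (2 - 2 * δ) * (10 * (D ^ j + Yj D j) * ∑ n ∈ Icc 1 (Yj D j), (cf D j n) ^ 2) +
      (16 * D) ^ (2 * (j + 1)) * Real.exp (-(D ^ 2 / 2)) * (2 * (2 * D ^ j)) := by
  have hD0 : 0 < D := by linarith
  have hT : 0 < D ^ j := pow_pos hD0 j
  have hle : (D ^ j)⁻¹ ≤ D ^ (-(1 / 2) : ℝ) := by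
    rw [Real.rpow_neg hD0.le]
    apply inv_anti₀ (Real.rpow_pos_of_pos hD0 _)
    rw [← Real.rpow_natCast]
    apply Real.rpow_le_rpow_of_exponent_le hD
    have : (1 : ℝ) ≤ (j : ℝ) := by exact_mod_cast hj
    linarith
  obtain ⟨hI, hle'⟩ := gauss_diff (Icc 1 (Yj D (j + 1))) (fun n hn => (Finset.mem_Icc.mp hn).1)
    (fun n => (cf D (j + 1) n : ℂ)) (D ^ j)⁻¹ (D ^ (-(1 / 2) : ℝ)) (inv_pos.mpr hT) hle
  have hfun : (fun u : ℝ =>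
      (Gs D (j + 1) (D ^ j)⁻¹ u - Gs D (j + 1) (D ^ (-(1 / 2) : ℝ)) u) ^ 2) = fun u : ℝ =>
      ‖∑ n ∈ Icc 1 (Yj D (j + 1)), (cf D (j + 1) n : ℂ) *
        ((kn (D ^ j)⁻¹ (u - Real.log n) - kn (D ^ (-(1 / 2) : ℝ)) (u - Real.log n) : ℝ) : ℂ)‖ ^ 2 := by
    funext u
    have h1 : ∑ n ∈ Icc 1 (Yj D (j + 1)), (cf D (j + 1) n : ℂ) *
        ((kn (D ^ j)⁻¹ (u - Real.log n) - kn (D ^ (-(1 / 2) : ℝ)) (u - Real.log n) : ℝ) : ℂ)
        = ((Gs D (j + 1) (D ^ j)⁻¹ u - Gs D (j + 1) (D ^ (-(1 / 2) : ℝ)) u : ℝ) : ℂ) := by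
      unfold Gs
      rw [← Finset.sum_sub_distrib, Complex.ofReal_sum]
      refine Finset.sum_congr rfl fun n _ => ?_
      rw [← mul_sub, Complex.ofReal_mul]
    rw [h1, Complex.norm_real, Real.norm_eq_abs, sq_abs]
  rw [hfun]
  refine ⟨hI, hle'.trans ?_⟩
  have i1 : Integrable (fun t : ℝ => (16 * D) ^ (2 * (j + 1)) * D ^ (-(3 / 2) : ℝ) * 3 *
      gw (D ^ (1 / 8 : ℝ)) t) := (integrable_gw_one _ (Real.rpow_pos_of_pos hD0 _)).const_mul _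
  have i2' : Integrable (fun t : ℝ => ‖St D (-t) ^ j‖ ^ 2 * gw (D ^ j) t) := by
    have h := integrable_dp (Icc 1 (Yj D j)) (fun n => (cf D j n : ℂ)) (D ^ j) hT
    refine h.congr (Filter.Eventually.of_forall fun t => ?_)
    simp only
    rw [dp_cf hD j t]
  have i2 : Integrable (fun t : ℝ => D ^ (2 - 2 * δ) * (‖St D (-t) ^ j‖ ^ 2 * gw (D ^ j) t)) :=
    i2'.const_mul _
  have i3 : Integrable (fun t : ℝ => (16 * D) ^ (2 * (j + 1)) * Real.exp (-(D ^ 2 / 2)) *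
      gw (2 * D ^ j) t) := (integrable_gw_one _ (by positivity)).const_mul _
  have i12 := i1.add i2
  have hm2 : ∫ t : ℝ, ‖St D (-t) ^ j‖ ^ 2 * gw (D ^ j) t ≤
      10 * (D ^ j + Yj D j) * ∑ n ∈ Icc 1 (Yj D j), (cf D j n) ^ 2 := by
    have h := mvt (D ^ j) hT (Yj D j) (fun n => (cf D j n : ℂ))
    have e1 : ∫ t, ‖dp (Icc 1 (Yj D j)) (fun n => (cf D j n : ℂ)) t‖ ^ 2 * gw (D ^ j) t =
        ∫ t : ℝ, ‖St D (-t) ^ j‖ ^ 2 * gw (D ^ j) t :=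
      integral_congr_ae (Filter.Eventually.of_forall fun t => by
        simp only
        rw [dp_cf hD j t])
    have e2 : ∑ n ∈ Icc 1 (Yj D j), ‖(cf D j n : ℂ)‖ ^ 2 = ∑ n ∈ Icc 1 (Yj D j), (cf D j n) ^ 2 :=
      Finset.sum_congr rfl fun n _ => by rw [Complex.norm_real, Real.norm_eq_abs, sq_abs]
    rw [e1, e2] at h
    exact h
  have hmono : ∫ t, ‖dp (Icc 1 (Yj D (j + 1))) (fun n => (cf D (j + 1) n : ℂ)) t‖ ^ 2 *
        min 1 ((D ^ (-(1 / 2) : ℝ) * t) ^ 4) * gw (1 / (D ^ j)⁻¹) t ≤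
      ∫ t : ℝ, ((16 * D) ^ (2 * (j + 1)) * D ^ (-(3 / 2) : ℝ) * 3 * gw (D ^ (1 / 8 : ℝ)) t +
      D ^ (2 - 2 * δ) * (‖St D (-t) ^ j‖ ^ 2 * gw (D ^ j) t) +
      (16 * D) ^ (2 * (j + 1)) * Real.exp (-(D ^ 2 / 2)) * gw (2 * D ^ j) t) := by
    refine integral_mono_of_nonneg (Filter.Eventually.of_forall fun t => ?_) (i12.add i3)
      (Filter.Eventually.of_forall fun t => ?_)
    · have h1 : 0 ≤ gw (1 / (D ^ j)⁻¹) t := (Real.exp_pos _).le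
      have h2 : 0 ≤ min 1 ((D ^ (-(1 / 2) : ℝ) * t) ^ 4) := le_min zero_le_one (by positivity)
      simp only [Pi.zero_apply]
      positivity
    · have h := sv_pointwise j hD hS t
      have e : (1 : ℝ) / (D ^ j)⁻¹ = D ^ j := by rw [one_div, inv_inv]
      simp only
      rw [dp_cf hD (j + 1) t, e]
      exact h
  refine hmono.trans ?_
  have e3 : ∫ t : ℝ, ((16 * D) ^ (2 * (j + 1)) * D ^ (-(3 / 2) : ℝ) * 3 * gw (D ^ (1 / 8 : ℝ)) t +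
      D ^ (2 - 2 * δ) * (‖St D (-t) ^ j‖ ^ 2 * gw (D ^ j) t) +
      (16 * D) ^ (2 * (j + 1)) * Real.exp (-(D ^ 2 / 2)) * gw (2 * D ^ j) t) =
      (16 * D) ^ (2 * (j + 1)) * D ^ (-(3 / 2) : ℝ) * 3 * (∫ t : ℝ, gw (D ^ (1 / 8 : ℝ)) t) +
      D ^ (2 - 2 * δ) * (∫ t : ℝ, ‖St D (-t) ^ j‖ ^ 2 * gw (D ^ j) t) +
      (16 * D) ^ (2 * (j + 1)) * Real.exp (-(D ^ 2 / 2)) * (∫ t : ℝ, gw (2 * D ^ j) t) := by
    have i12' : Integrable (fun t : ℝ => (16 * D) ^ (2 * (j + 1)) * D ^ (-(3 / 2) : ℝ) * 3 *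
      gw (D ^ (1 / 8 : ℝ)) t + D ^ (2 - 2 * δ) * (‖St D (-t) ^ j‖ ^ 2 * gw (D ^ j) t)) := i12
    rw [integral_add i12' i3, integral_add i1 i2, integral_const_mul, integral_const_mul,
      integral_const_mul]
  rw [e3]
  have g1 := sv2_gw_integral (T := D ^ (1 / 8 : ℝ)) (Real.rpow_pos_of_pos hD0 _)
  have g3 := sv2_gw_integral (T := 2 * D ^ j) (by positivity)
  have p1 : 0 ≤ D ^ (-(3 / 2) : ℝ) := (Real.rpow_pos_of_pos hD0 _).le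
  have p2 : 0 ≤ D ^ (2 - 2 * δ) := (Real.rpow_pos_of_pos hD0 _).le
  have p3 := (Real.exp_pos (-(D ^ 2 / 2))).le
  refine add_le_add (add_le_add ?_ ?_) ?_
  · exact mul_le_mul_of_nonneg_left g1 (by positivity)
  · exact mul_le_mul_of_nonneg_left hm2 p2
  · exact mul_le_mul_of_nonneg_left g3 (by positivity)

theorem variance (j : ℕ) (hj : 1 ≤ j) : ∃ δ C D0 : ℝ, 0 < δ ∧ 0 < C ∧ 1 ≤ D0 ∧ ∀ D : ℝ, D0 ≤ D →
    Integrable (fun u : ℝ =>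
      (Gs D (j + 1) (D ^ j)⁻¹ u - Gs D (j + 1) (D ^ (-(1 / 2) : ℝ)) u) ^ 2) ∧
    ∫ u : ℝ, (Gs D (j + 1) (D ^ j)⁻¹ u - Gs D (j + 1) (D ^ (-(1 / 2) : ℝ)) u) ^ 2 ≤
      C * D ^ (2 * ((j : ℝ) + 1) - δ) := by
  obtain ⟨δ, M0, hδ0, hδ1, hM0, hSt⟩ := St_large ((j + 1 : ℕ) : ℝ)
  obtain ⟨C, hC, hcf⟩ := sum_cf_sq j hδ0
  refine ⟨δ, 6 * 16 ^ (2 * (j + 1)) + 10 * (1 + 8 ^ j) * C +
    4 * 16 ^ (2 * (j + 1)) * (2 ^ (j + 1) * ((j + 1).factorial : ℝ)), M0, hδ0, by positivity, hM0, ?_⟩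
  intro D hDM
  have hD : 1 ≤ D := hM0.trans hDM
  have hD0 : 0 < D := by linarith
  obtain ⟨hI, hle⟩ := sv2_main j hj (δ := δ) hD (fun t h1 h2 => hSt D hDM t h1 (by
    rw [Real.rpow_natCast]
    exact h2))
  refine ⟨hI, hle.trans ?_⟩
  have hj0 : (0 : ℝ) ≤ (j : ℝ) := Nat.cast_nonneg j
  have q1 : (16 * D) ^ (2 * (j + 1)) * D ^ (-(3 / 2) : ℝ) * 3 * (2 * D ^ (1 / 8 : ℝ)) ≤
      6 * 16 ^ (2 * (j + 1)) * D ^ (2 * ((j : ℝ) + 1) - δ) := by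
    have e : (16 * D) ^ (2 * (j + 1)) * D ^ (-(3 / 2) : ℝ) * 3 * (2 * D ^ (1 / 8 : ℝ)) =
        6 * 16 ^ (2 * (j + 1)) * (D ^ (((2 * (j + 1) : ℕ) : ℝ)) * D ^ (-(3 / 2) : ℝ) * D ^ (1 / 8 : ℝ)) := by
      rw [mul_pow, Real.rpow_natCast]
      ring
    rw [e, ← Real.rpow_add hD0, ← Real.rpow_add hD0]
    refine mul_le_mul_of_nonneg_left (Real.rpow_le_rpow_of_exponent_le hD ?_) (by positivity)
    push_cast
    linarith
  have q2 : D ^ (2 - 2 * δ) * (10 * (D ^ j + Yj D j) * ∑ n ∈ Icc 1 (Yj D j), (cf D j n) ^ 2) ≤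
      10 * (1 + 8 ^ j) * C * D ^ (2 * ((j : ℝ) + 1) - δ) := by
    have hY : (Yj D j : ℝ) ≤ 8 ^ j * D ^ j := by
      unfold Yj
      rw [← mul_pow]
      exact Nat.floor_le (by positivity)
    have hYn : (0 : ℝ) ≤ (Yj D j : ℝ) := Nat.cast_nonneg _
    have hDj : 0 < D ^ j := by positivity
    have e : 10 * (1 + 8 ^ j) * C * D ^ (2 * ((j : ℝ) + 1) - δ) =
        D ^ (2 - 2 * δ) * (10 * ((1 + 8 ^ j) * D ^ (j : ℝ)) * (C * D ^ ((j : ℝ) + δ))) := by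
      have : D ^ (2 * ((j : ℝ) + 1) - δ) = D ^ (2 - 2 * δ) * D ^ (j : ℝ) * D ^ ((j : ℝ) + δ) := by
        rw [← Real.rpow_add hD0, ← Real.rpow_add hD0]
        congr 1
        ring
      rw [this]
      ring
    rw [e, Real.rpow_natCast]
    refine mul_le_mul_of_nonneg_left ?_ (Real.rpow_pos_of_pos hD0 _).le
    refine mul_le_mul ?_ (hcf D hD) (Finset.sum_nonneg fun n _ => sq_nonneg _) (by positivity)
    nlinarith
  have q3 : (16 * D) ^ (2 * (j + 1)) * Real.exp (-(D ^ 2 / 2)) * (2 * (2 * D ^ j)) ≤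
      4 * 16 ^ (2 * (j + 1)) * (2 ^ (j + 1) * ((j + 1).factorial : ℝ)) * D ^ (2 * ((j : ℝ) + 1) - δ) := by
    have e : (16 * D) ^ (2 * (j + 1)) * Real.exp (-(D ^ 2 / 2)) * (2 * (2 * D ^ j)) =
        4 * 16 ^ (2 * (j + 1)) * (D ^ (2 * (j + 1)) * Real.exp (-(D ^ 2 / 2))) * D ^ (j : ℝ) := by
      rw [mul_pow, Real.rpow_natCast]
      ring
    rw [e]
    have hx := sv2_exp j hD
    refine mul_le_mul ?_ (Real.rpow_le_rpow_of_exponent_le hD (by linarith))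
      (Real.rpow_pos_of_pos hD0 _).le (by positivity)
    exact mul_le_mul_of_nonneg_left hx (by positivity)
  calc _ ≤ _ := add_le_add (add_le_add q1 q2) q3
    _ = _ := by ring

end Pool.Agent.TNX
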