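import Pool.Agent.TNX.Fib

/-!
# TNX/Un: unions over dyadic ranges, decay (difficulty 2)

* `union_le`: finite union of finite sets (`n ≤ N`), `Set.ncard_le_ncard`, induction over the finset `Ico a b` (or
  `Finset.set_ncard_biUnion_le`).
* `decay`: `tendsto_pow_const_mul_const_pow_of_abs_lt_one` with `r = 2 ^ (-κ)`, `Real.rpow_mul`, `Real.rpow_natCast`.
* `card_Rg`: `fib` with `Q = True`, `B p = N / p`, and `inv_block`.
-/

namespace Pool.Agent.TNX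

open Pool.Agent.TN Finset

private theorem un_gen (S : Finset ℕ) (A : ℕ → Set ℕ) (B : ℕ → ℝ)
    (hB : ∀ j ∈ S, ((A j).ncard : ℝ) ≤ B j) :
    (((⋃ j ∈ S, A j)).ncard : ℝ) ≤ ∑ j ∈ S, B j := by
  have h := Finset.set_ncard_biUnion_le S A
  have h2 : ((⋃ j ∈ S, A j).ncard : ℝ) ≤ ((∑ j ∈ S, (A j).ncard : ℕ) : ℝ) := by
    exact_mod_cast h
  refine h2.trans ?_
  push_cast
  exact Finset.sum_le_sum hB

theorem union_le (N a b : ℕ) (Q : ℕ → ℕ → Prop) (B : ℕ → ℝ)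
    (hB : ∀ j ∈ Ico a b, ({n | Rg N j n ∧ Q j n}.ncard : ℝ) ≤ B j) :
    ({n | ∃ j ∈ Ico a b, Rg N j n ∧ Q j n}.ncard : ℝ) ≤ ∑ j ∈ Ico a b, B j := by
  have h := un_gen (Ico a b) (fun j => {n | Rg N j n ∧ Q j n}) B hB
  have heq : {n | ∃ j ∈ Ico a b, Rg N j n ∧ Q j n} = ⋃ j ∈ Ico a b, {n | Rg N j n ∧ Q j n} := by
    ext n
    simp only [Set.mem_iUnion, exists_prop]
    rfl
  rw [heq]
  exact h

theorem decay {κ : ℝ} (hκ : 0 < κ) (m : ℕ) {ε : ℝ} (hε : 0 < ε) : ∃ J0 : ℕ, ∀ J : ℕ, J0 ≤ J →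
    (J : ℝ) ^ m * (2 : ℝ) ^ (-(κ * J)) ≤ ε := by
  have hr0 : (0 : ℝ) < (2 : ℝ) ^ (-κ) := Real.rpow_pos_of_pos (by norm_num) _
  have hr1 : (2 : ℝ) ^ (-κ) < 1 := Real.rpow_lt_one_of_one_lt_of_neg (by norm_num) (by linarith)
  have ht := tendsto_pow_const_mul_const_pow_of_abs_lt_one m
    (show |(2 : ℝ) ^ (-κ)| < 1 by rw [abs_of_pos hr0]; exact hr1)
  have hev := ht.eventually (ge_mem_nhds hε)
  obtain ⟨J0, hJ0⟩ := Filter.eventually_atTop.mp hev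
  refine ⟨J0, fun J hJ => ?_⟩
  have h := hJ0 J hJ
  have h2 : (2 : ℝ) ^ (-(κ * J)) = ((2 : ℝ) ^ (-κ)) ^ J := by
    rw [← Real.rpow_natCast, ← Real.rpow_mul (by norm_num)]
    congr 1
    ring
  rw [h2]
  exact h

theorem card_Rg (N j : ℕ) : ({n | Rg N j n}.ncard : ℝ) ≤ N * (12 / (j + 1)) := by
  have h := fib N j (fun _ _ => True) (fun p => (N : ℝ) * (1 / p)) (by
    intro p hp
    have hfin : (Set.Icc 1 (N / p)).Finite := Set.finite_Icc _ _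
    have h1 : ({m | 1 ≤ m ∧ m ≤ N / p ∧ P m ≤ p ∧ True} : Set ℕ).ncard ≤ (Set.Icc 1 (N / p)).ncard := by
      apply Set.ncard_le_ncard _ hfin
      rintro m ⟨h1, h2, _⟩
      exact ⟨h1, h2⟩
    have h2 : (Set.Icc 1 (N / p) : Set ℕ).ncard = N / p := by
      rw [← Finset.coe_Icc, Set.ncard_coe_finset, Nat.card_Icc]
      exact Nat.add_sub_cancel _ _
    rw [h2] at h1
    have h3 : (({m | 1 ≤ m ∧ m ≤ N / p ∧ P m ≤ p ∧ True} : Set ℕ).ncard : ℝ) ≤ ((N / p : ℕ) : ℝ) := by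
      exact_mod_cast h1
    refine h3.trans ?_
    have h4 : ((N / p : ℕ) : ℝ) ≤ (N : ℝ) / p := Nat.cast_div_le
    rw [mul_one_div]
    exact h4)
  have heq : {n | Rg N j n ∧ True} = {n | Rg N j n} := by
    ext n
    simp
  simp only [and_true] at h
  refine h.trans ?_
  rw [← Finset.mul_sum]
  exact mul_le_mul_of_nonneg_left (inv_block j) (Nat.cast_nonneg N)

end Pool.Agent.TNX
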